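import Pool.Agent.H98.CF.Lin

/-!
# Averaging over the solutions
-/

set_option autoImplicit false

namespace H98.CF

open Finset

variable {V : Type*} [Fintype V] [DecidableEq V] {s r : V → V}

omit [Fintype V] [DecidableEq V] in
theorem al_apply (y : V → ZMod 2) (v : V) : al s v y = y v + y (s v) := rfl

omit [Fintype V] in
theorem ka_tri {b : V → Bool} (y : V → ZMod 2) {v : V} (h : r (r (r v)) = v) :
    ka r b v y = y v + y (r v) + y (r (r v)) := by
  unfold ka
  rw [if_pos h]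
  rfl

omit [Fintype V] [DecidableEq V] in
theorem Hom0.add [DecidableEq V] {b : V → Bool} {y z : V → ZMod 2} (hy : Hom0 s r b y)
    (hz : Hom0 s r b z) : Hom0 s r b (y + z) :=
  ⟨fun v => by rw [map_add, hy.1, hz.1, add_zero], fun v => by rw [map_add, hy.2, hz.2, add_zero]⟩

omit [Fintype V] in
theorem hom0_zero {b : V → Bool} : Hom0 s r b (0 : V → ZMod 2) :=
  ⟨fun _ => map_zero _, fun _ => map_zero _⟩

/-- two solutions of the homogeneous system with independent values on an orbit of size three -/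
theorem exists_basis (hs : ∀ v, s (s v) = v) (hs0 : ∀ v, s v ≠ v)
    (hr : ∀ v, r (r (r v)) = v ∨ (r (r (r (r v))) = v ∧ r (r v) ≠ v))
    (hr1 : ∀ v, r v ≠ v) (hb : ∀ w : V → Bool, (∀ v, w (r v) = w v) → dl s w ≠ 1)
    {b : V → Bool} (hbq : ∀ v, r (r (r v)) ≠ v → b (r v) = !b v)
    (hg : ∀ w : V → Bool, (∀ v, (r (r (r v)) = v ∨ b v = true) → w (r v) = w v) → dl s w ≤ 1 →
        ∀ v, w (r v) = w v) (a : V) (ha : r (r (r a)) = a) :
    ∃ z1 z2, Hom0 s r b z1 ∧ Hom0 s r b z2 ∧ z1 a = 1 ∧ z1 (r a) = 0 ∧ z2 a = 0 ∧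
      z2 (r a) = 1 := by
  obtain ⟨y1, h1, k1⟩ := exists_nonzero hs hs0 hr hr1 hb hbq hg a
  obtain ⟨y2, h2, k2⟩ := exists_nonzero hs hs0 hr hr1 hb hbq hg (r a)
  obtain ⟨y3, h3, k3⟩ := exists_nonzero hs hs0 hr hr1 hb hbq hg (r (r a))
  have e3 := h3.2 a
  rw [ka_tri y3 ha, k3] at e3
  rcases zmod2 (y1 (r a)) with p | p <;> rcases zmod2 (y2 a) with q | q
  · exact ⟨y1, y2, h1, h2, k1, p, q, k2⟩
  · refine ⟨y1, y1 + y2, h1, h1.add h2, k1, p, ?_, ?_⟩
    · show y1 a + y2 a = 0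
      rw [k1, q]; decide
    · show y1 (r a) + y2 (r a) = 1
      rw [k2, p]; decide
  · refine ⟨y1 + y2, y2, h1.add h2, h2, ?_, ?_, q, k2⟩
    · show y1 a + y2 a = 1
      rw [k1, q]; decide
    · show y1 (r a) + y2 (r a) = 0
      rw [k2, p]; decide
  · rcases zmod2 (y3 a) with m | m <;> rcases zmod2 (y3 (r a)) with n | n
    · rw [m, n] at e3; exact absurd e3 (by decide)
    · refine ⟨y1 + y3, y3, h1.add h3, h3, ?_, ?_, m, n⟩
      · show y1 a + y3 a = 1
        rw [k1, m]; decide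
      · show y1 (r a) + y3 (r a) = 0
        rw [p, n]; decide
    · refine ⟨y3, y1 + y3, h3, h1.add h3, m, n, ?_, ?_⟩
      · show y1 a + y3 a = 0
        rw [k1, m]; decide
      · show y1 (r a) + y3 (r a) = 1
        rw [p, n]; decide
    · rw [m, n] at e3; exact absurd e3 (by decide)

/-- The homogeneous solutions. -/
noncomputable def HS (s r : V → V) (b : V → Bool) : Finset (V → ZMod 2) := by
  classical
  exact univ.filter (fun y => Hom0 s r b y)

theorem mem_HS {b : V → Bool} {y : V → ZMod 2} : y ∈ HS s r b ↔ Hom0 s r b y := by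
  classical
  unfold HS
  rw [mem_filter]
  exact ⟨fun h => h.2, fun h => ⟨mem_univ _, h⟩⟩

theorem quarter (hs : ∀ v, s (s v) = v) (hs0 : ∀ v, s v ≠ v)
    (hr : ∀ v, r (r (r v)) = v ∨ (r (r (r (r v))) = v ∧ r (r v) ≠ v))
    (hr1 : ∀ v, r v ≠ v) (hb : ∀ w : V → Bool, (∀ v, w (r v) = w v) → dl s w ≠ 1)
    {b : V → Bool} (hbq : ∀ v, r (r (r v)) ≠ v → b (r v) = !b v)
    (hg : ∀ w : V → Bool, (∀ v, (r (r (r v)) = v ∨ b v = true) → w (r v) = w v) → dl s w ≤ 1 →
        ∀ v, w (r v) = w v) (x0 : V → ZMod 2) (a : V) (ha : r (r (r a)) = a) :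
    4 * ((HS s r b).filter (fun y => x0 a + y a = 0 ∧ x0 (r a) + y (r a) = 0)).card ≤
      (HS s r b).card := by
  obtain ⟨z1, z2, h1, h2, e1, e2, e3, e4⟩ := exists_basis hs hs0 hr hr1 hb hbq hg a ha
  have hcard : (((HS s r b).filter (fun y => x0 a + y a = 0 ∧ x0 (r a) + y (r a) = 0)) ×ˢ
      (univ : Finset (ZMod 2 × ZMod 2))).card =
      4 * ((HS s r b).filter (fun y => x0 a + y a = 0 ∧ x0 (r a) + y (r a) = 0)).card := by
    rw [card_product, card_univ, Fintype.card_prod, ZMod.card, mul_comm]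
  rw [← hcard]
  refine card_le_card_of_injOn (fun q => q.1 + (q.2.1 • z1 + q.2.2 • z2)) ?_ ?_
  · rintro ⟨y, i, j⟩ hq
    rw [mem_coe, mem_product, mem_filter, mem_HS] at hq
    rw [mem_coe, mem_HS]
    have hsm : ∀ (i : ZMod 2) (z : V → ZMod 2), Hom0 s r b z → Hom0 s r b (i • z) :=
      fun i z hz => ⟨fun v => by rw [map_smul, hz.1, smul_zero],
        fun v => by rw [map_smul, hz.2, smul_zero]⟩
    exact hq.1.1.add ((hsm i z1 h1).add (hsm j z2 h2))
  · rintro ⟨y, i, j⟩ hq ⟨y', i', j'⟩ hq' h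
    rw [mem_coe, mem_product, mem_filter] at hq hq'
    have h : y + (i • z1 + j • z2) = y' + (i' • z1 + j' • z2) := h
    have f1 : y a + (i * z1 a + j * z2 a) = y' a + (i' * z1 a + j' * z2 a) := congrFun h a
    have f2 : y (r a) + (i * z1 (r a) + j * z2 (r a)) =
        y' (r a) + (i' * z1 (r a) + j' * z2 (r a)) := congrFun h (r a)
    have g1 : x0 a + y a = 0 := hq.1.2.1
    have g2 : x0 (r a) + y (r a) = 0 := hq.1.2.2
    have g1' : x0 a + y' a = 0 := hq'.1.2.1
    have g2' : x0 (r a) + y' (r a) = 0 := hq'.1.2.2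
    rw [e1, e3] at f1
    rw [e2, e4] at f2
    have k1 : i = i' := by linear_combination f1 - g1 + g1'
    have k2 : j = j' := by linear_combination f2 - g2 + g2'
    subst k1 k2
    have k3 : y = y' := add_right_cancel h
    rw [k3]

/-- The solution. -/
theorem exists_x (hs : ∀ v, s (s v) = v) (hs0 : ∀ v, s v ≠ v)
    (hr : ∀ v, r (r (r v)) = v ∨ (r (r (r (r v))) = v ∧ r (r v) ≠ v))
    (hr1 : ∀ v, r v ≠ v) (hb : ∀ w : V → Bool, (∀ v, w (r v) = w v) → dl s w ≠ 1)
    {b : V → Bool} (hbq : ∀ v, r (r (r v)) ≠ v → b (r v) = !b v)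
    (hg : ∀ w : V → Bool, (∀ v, (r (r (r v)) = v ∨ b v = true) → w (r v) = w v) → dl s w ≤ 1 →
        ∀ v, w (r v) = w v) :
    ∃ x : V → ZMod 2, (∀ v, x (s v) = x v) ∧
      (∀ v, r (r (r v)) ≠ v → b v = true → x (r v) = x v + 1) ∧
      (∀ v, r (r (r v)) = v → x v + x (r v) + x (r (r v)) = 0) ∧
      4 * (univ.filter (fun a => r (r (r a)) = a ∧ x a = 0 ∧ x (r a) = 0)).card ≤
        (univ.filter (fun a => r (r (r a)) = a)).card := by
  obtain ⟨x0, hx1, hx2⟩ := exists_particular hs hr hr1 hbq hg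
  have hne : (HS s r b).Nonempty := ⟨0, mem_HS.2 hom0_zero⟩
  have hsum : ∑ y ∈ HS s r b, 4 * (univ.filter (fun a => r (r (r a)) = a ∧
      x0 a + y a = 0 ∧ x0 (r a) + y (r a) = 0)).card ≤
      ∑ _y ∈ HS s r b, (univ.filter (fun a => r (r (r a)) = a)).card := by
    rw [sum_const, smul_eq_mul, ← mul_sum]
    have e1 : ∀ y : V → ZMod 2, (univ.filter (fun a => r (r (r a)) = a ∧
        x0 a + y a = 0 ∧ x0 (r a) + y (r a) = 0)).card =
        ∑ a ∈ univ.filter (fun a => r (r (r a)) = a),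
          if x0 a + y a = 0 ∧ x0 (r a) + y (r a) = 0 then 1 else 0 := by
      intro y
      rw [← card_filter, filter_filter]
    simp only [e1]
    rw [sum_comm, mul_sum]
    have e2 : ∀ a ∈ univ.filter (fun a => r (r (r a)) = a),
        4 * ∑ y ∈ HS s r b, (if x0 a + y a = 0 ∧ x0 (r a) + y (r a) = 0 then 1 else 0) ≤
          (HS s r b).card := by
      intro a ha
      rw [mem_filter] at ha
      rw [← card_filter]
      exact quarter hs hs0 hr hr1 hb hbq hg x0 a ha.2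
    refine (sum_le_sum e2).trans ?_
    rw [sum_const, smul_eq_mul, mul_comm]
  obtain ⟨y, hy, hy2⟩ := exists_le_of_sum_le hne hsum
  rw [mem_HS] at hy
  have h2 : ∀ p : ZMod 2, p + p = 0 := by decide
  refine ⟨x0 + y, ?_, ?_, ?_, hy2⟩
  · intro v
    have h1 : al s v (x0 + y) = 0 := by rw [map_add, hx1, hy.1, add_zero]
    rw [al_apply] at h1
    have := h2 ((x0 + y) v)
    linear_combination h1 - this
  · intro v hv hbv
    have h1 : ka r b v (x0 + y) = 1 := by
      rw [map_add, hx2, hy.2, add_zero]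
      unfold ta
      rw [if_neg hv, if_pos hbv]
    have h3 : ka r b v (x0 + y) = (x0 + y) v + (x0 + y) (r v) := by
      unfold ka
      rw [if_neg hv, if_pos hbv]
      rfl
    rw [h3] at h1
    have := h2 ((x0 + y) v)
    linear_combination h1 - this
  · intro v hv
    rw [← ka_tri (b := b) _ hv, map_add, hx2, hy.2, add_zero]
    unfold ta
    rw [if_pos hv]

end H98.CF
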