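import Mathlib

/-!
# Cubic graphs with a 2-factor of 4-cycles

`r : V → V` is the rotation along the 4-cycles.  There is an induced 2-regular subgraph with at least
half of the vertices.
-/

set_option autoImplicit false

namespace H98.CF

open Finset

section involutions

variable {V : Type*} [Fintype V]

/-- Two fixed point free involutions have a common proper 2-colouring. -/
theorem two_colour (s t : V → V) (hs : ∀ v, s (s v) = v) (ht : ∀ v, t (t v) = v)
    (hs0 : ∀ v, s v ≠ v) (ht0 : ∀ v, t v ≠ v) :
    ∃ c : V → Bool, (∀ v, c (s v) = !c v) ∧ ∀ v, c (t v) = !c v := by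
  classical
  let σ : Equiv.Perm V := ⟨s, s, hs, hs⟩
  let τ : Equiv.Perm V := ⟨t, t, ht, ht⟩
  have hσ : ∀ v, σ v = s v := fun _ => rfl
  have hτ : ∀ v, τ v = t v := fun _ => rfl
  let π : Equiv.Perm V := σ * τ
  have hσσ : σ * σ = 1 := by ext v; exact hs v
  have hττ : τ * τ = 1 := by ext v; exact ht v
  have hσi : σ⁻¹ = σ := inv_eq_of_mul_eq_one_left hσσ
  have hτi : τ⁻¹ = τ := inv_eq_of_mul_eq_one_left hττ
  have hconj : ∀ k : ℤ, σ * π ^ k = π ^ (-k) * σ := by
    have h1 : σ * π * σ⁻¹ = π⁻¹ := by
      simp only [π]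
      rw [mul_inv_rev, hσi, hτi]
      rw [← mul_assoc, hσσ, one_mul]
    intro k
    have h2 : σ * π ^ k * σ⁻¹ = π ^ (-k) := by
      rw [← conj_zpow, h1, inv_zpow, zpow_neg]
    rw [← h2, inv_mul_cancel_right]
  have hdiff : ∀ v, ¬ π.SameCycle v (s v) := by
    rintro v ⟨k, hk⟩
    rcases Int.even_or_odd' k with ⟨j, rfl | rfl⟩
    · apply hs0 ((π ^ j) v)
      have h1 : s ((π ^ j) v) = (σ * π ^ j) v := rfl
      rw [h1, hconj j]
      change (π ^ (-j)) (s v) = _
      rw [← hk, ← Equiv.Perm.mul_apply, ← zpow_add]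
      congr 2
      ring
    · apply ht0 ((π ^ j) v)
      have h1 : s (t ((π ^ j) v)) = (π * π ^ j) v := rfl
      have h2 : s ((π ^ j) v) = (π * π ^ j) v := by
        have h3 : s ((π ^ j) v) = (σ * π ^ j) v := rfl
        rw [h3, hconj j]
        change (π ^ (-j)) (s v) = _
        rw [← hk, ← Equiv.Perm.mul_apply, ← zpow_add, ← zpow_one_add]
        congr 2
        ring
      rw [← hs (t ((π ^ j) v)), h1, ← h2, hs]
  let q : V → Quotient (Equiv.Perm.SameCycle.setoid π) := fun v => Quotient.mk _ v
  have hq : ∀ v w, q v = q w ↔ π.SameCycle v w := fun v w => Quotient.eq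
  have : Fintype (Quotient (Equiv.Perm.SameCycle.setoid π)) := Fintype.ofFinite _
  let e := Fintype.equivFin (Quotient (Equiv.Perm.SameCycle.setoid π))
  have hne : ∀ v, e (q v) ≠ e (q (s v)) := by
    intro v h
    exact hdiff v ((hq v (s v)).1 (e.injective h))
  have hst : ∀ v, q (t v) = q (s v) := by
    intro v
    rw [hq]
    refine ⟨1, ?_⟩
    rw [zpow_one]
    change s (t (t v)) = s v
    rw [ht]
  have hst2 : ∀ v, q (s (t v)) = q v := by
    intro v
    rw [eq_comm, hq]
    exact ⟨1, by rw [zpow_one]; rfl⟩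
  refine ⟨fun v => decide (e (q v) < e (q (s v))), fun v => ?_, fun v => ?_⟩
  · have h := hne v
    show decide (e (q (s v)) < e (q (s (s v)))) = !decide (e (q v) < e (q (s v)))
    rw [hs]
    rcases lt_trichotomy (e (q v)) (e (q (s v))) with h1 | h1 | h1
    · simp [h1, not_lt.2 h1.le]
    · exact absurd h1 h
    · simp [h1, not_lt.2 h1.le]
  · have h := hne v
    show decide (e (q (t v)) < e (q (s (t v)))) = !decide (e (q v) < e (q (s v)))
    rw [hst, hst2]
    rcases lt_trichotomy (e (q v)) (e (q (s v))) with h1 | h1 | h1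
    · simp [h1, not_lt.2 h1.le]
    · exact absurd h1 h
    · simp [h1, not_lt.2 h1.le]

end involutions

/-- The table behind `four_factor`. -/
theorem table : ∀ xv x1 x2 x3 cv c1 p : Bool,
    (c1 = cv ∧ x1 = (!xv) ∧ x3 = (!x2)) ∨ (c1 = (!cv) ∧ x3 = (!xv) ∧ x1 = (!x2)) →
    (xv || (cv && (x1 && x3))) = true →
    ((x1 || (c1 && (x2 && xv))) = true ∧ (x3 || (!c1 && (xv && x2))) = true ∧
        (xv || (!cv && p)) = false) ∨
      ((x1 || (c1 && (x2 && xv))) = true ∧ (x3 || (!c1 && (xv && x2))) = false ∧
        (xv || (!cv && p)) = true) ∨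
      ((x1 || (c1 && (x2 && xv))) = false ∧ (x3 || (!c1 && (xv && x2))) = true ∧
        (xv || (!cv && p)) = true) := by
  decide

variable {V : Type*} [Fintype V] [DecidableEq V] {G : SimpleGraph V} [DecidableRel G.Adj]

/-- Cubic graphs with a 2-factor of 4-cycles. -/
theorem four_factor (h3 : G.IsRegularOfDegree 3) (r : V → V) (h1 : ∀ v, G.Adj v (r v))
    (h2 : ∀ v, r (r v) ≠ v) (h4 : ∀ v, r (r (r (r v))) = v) :
    ∃ S : Finset V, (∀ v ∈ S, (S.filter (fun y => G.Adj v y)).card = 2) ∧
      Fintype.card V ≤ 2 * S.card := by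
  classical
  have hr3 : ∀ v, r (r (r v)) ≠ v := by
    intro v h
    have := h4 v
    rw [h] at this
    exact (h1 v).ne' this
  have hadj3 : ∀ v, G.Adj v (r (r (r v))) := by
    intro v
    have := h1 (r (r (r v)))
    rw [h4] at this
    exact this.symm
  have hr13 : ∀ v, r v ≠ r (r (r v)) := fun v h => h2 (r v) h.symm
  -- the third neighbour
  have hex : ∀ v, ∃ w, w ≠ r v ∧ w ≠ r (r (r v)) ∧
      G.neighborFinset v = {r v, r (r (r v)), w} := by
    intro v
    have hc : (G.neighborFinset v).card = 3 := h3 v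
    have e1 : r v ∈ G.neighborFinset v := by
      rw [SimpleGraph.mem_neighborFinset]; exact h1 v
    have e2 : r (r (r v)) ∈ (G.neighborFinset v).erase (r v) := by
      rw [mem_erase, SimpleGraph.mem_neighborFinset]
      exact ⟨(hr13 v).symm, hadj3 v⟩
    have e3 : (((G.neighborFinset v).erase (r v)).erase (r (r (r v)))).card = 1 := by
      rw [card_erase_of_mem e2, card_erase_of_mem e1, hc]
    obtain ⟨w, hw⟩ := card_eq_one.1 e3
    have hw' : w ∈ ((G.neighborFinset v).erase (r v)).erase (r (r (r v))) := by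
      rw [hw]; exact mem_singleton_self w
    rw [mem_erase, mem_erase] at hw'
    refine ⟨w, hw'.2.1, hw'.1, ?_⟩
    rw [← insert_erase e1, ← insert_erase e2, hw]
  choose s hs1 hs2 hs3 using hex
  have hadj : ∀ v w, G.Adj v w ↔ w = r v ∨ w = r (r (r v)) ∨ w = s v := by
    intro v w
    rw [← SimpleGraph.mem_neighborFinset, hs3 v]
    simp
  have hss : ∀ v, s (s v) = v := by
    intro v
    have hv : G.Adj (s v) v := ((hadj v (s v)).2 (Or.inr (Or.inr rfl))).symm
    rcases (hadj (s v) v).1 hv with h | h | h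
    · exfalso
      apply hs2 v
      conv_lhs => rw [← h4 (s v)]
      rw [← h]
    · exfalso
      apply hs1 v
      conv_rhs => rw [h]
      rw [h4]
    · exact h.symm
  have hs0 : ∀ v, s v ≠ v := fun v => ((hadj v (s v)).2 (Or.inr (Or.inr rfl))).ne'
  obtain ⟨c, hcs, hct⟩ := two_colour s (fun v => r (r v)) hss (fun v => by simp only [h4]) hs0
    (fun v => h2 v)
  -- the vertex of the same 4-cycle with the same label
  let ρ : V → V := fun v => if c (r v) = c v then r v else r (r (r v))
  have hρ : ∀ v, ρ v = if c (r v) = c v then r v else r (r (r v)) := fun _ => rfl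
  have hρc : ∀ v, c (ρ v) = c v := by
    intro v
    rw [hρ]
    split_ifs with h
    · exact h
    · rw [hct]
      cases h5 : c (r v) <;> cases h6 : c v <;> simp_all
  have hρρ : ∀ v, ρ (ρ v) = v := by
    intro v
    by_cases h : c (r v) = c v
    · have e1 : ρ v = r v := by rw [hρ, if_pos h]
      rw [e1, hρ, if_neg]
      · exact h4 v
      · rw [hct, h]
        cases c v <;> simp
    · have e1 : ρ v = r (r (r v)) := by rw [hρ, if_neg h]
      rw [e1, hρ, if_pos]
      · exact h4 v
      · rw [h4, hct]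
        cases h5 : c (r v) <;> cases h6 : c v <;> simp_all
  have hρ0 : ∀ v, ρ v ≠ v := by
    intro v
    rw [hρ]
    split_ifs
    · exact (h1 v).ne'
    · exact hr3 v
  obtain ⟨z, hzs, hzρ⟩ := two_colour s ρ hss hρρ hs0 hρ0
  obtain ⟨x, hx⟩ : ∃ x : V → Bool, x = fun v => xor (z v) (c v) := ⟨_, rfl⟩
  have hxs : ∀ v, x (s v) = x v := by
    intro v
    rw [hx]
    simp only [hzs, hcs]
    cases z v <;> cases c v <;> rfl
  have hxρ : ∀ v, x (ρ v) = !x v := by
    intro v
    rw [hx]
    simp only [hzρ, hρc]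
    cases z v <;> cases c v <;> rfl
  -- the relations in a 4-cycle
  have hcyc : ∀ v, (c (r v) = c v ∧ x (r v) = (!x v) ∧ x (r (r (r v))) = (!x (r (r v)))) ∨
      (c (r v) = (!c v) ∧ x (r (r (r v))) = (!x v) ∧ x (r v) = (!x (r (r v)))) := by
    intro v
    by_cases h : c (r v) = c v
    · left
      refine ⟨h, ?_, ?_⟩
      · have := hxρ v
        rwa [hρ, if_pos h] at this
      · have := hxρ (r (r v))
        rwa [hρ, if_pos] at this
        rw [hct, hct, h]
    · right
      have h' : c (r v) = !c v := by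
        cases h5 : c (r v) <;> cases h6 : c v <;> simp_all
      refine ⟨h', ?_, ?_⟩
      · have := hxρ v
        rwa [hρ, if_neg h] at this
      · have := hxρ (r (r v))
        rw [hρ, if_neg, h4] at this
        · exact this
        · rw [hct, hct, h']
          cases c v <;> simp
  let f : V → Bool := fun v => x v || (c v && (x (r v) && x (r (r (r v)))))
  have hf : ∀ v, f v = (x v || (c v && (x (r v) && x (r (r (r v)))))) := fun _ => rfl
  refine ⟨univ.filter (fun v => f v = true), ?_, ?_⟩
  · intro v hv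
    rw [mem_filter] at hv
    have hfv := hv.2
    have hset : (univ.filter (fun v => f v = true)).filter (fun y => G.Adj v y) =
        ({r v, r (r (r v)), s v} : Finset V).filter (fun y => f y = true) := by
      ext y
      simp only [mem_filter, mem_univ, true_and, mem_insert, mem_singleton, hadj v y]
      tauto
    rw [hset, filter_insert, filter_insert, filter_singleton]
    have n1 : s v ≠ r v := hs1 v
    have n2 : s v ≠ r (r (r v)) := hs2 v
    have n3 : r v ≠ r (r (r v)) := hr13 v
    have e1 : f (r v) = (x (r v) || (c (r v) && (x (r (r v)) && x v))) := by rw [hf, h4]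
    have e3 : f (r (r (r v))) = (x (r (r (r v))) || (!c (r v) && (x v && x (r (r v))))) := by
      rw [hf, h4, hct]
    have es : f (s v) = (x v || (!c v && (x (r (s v)) && x (r (r (r (s v))))))) := by
      rw [hf, hxs, hcs]
    rw [hf] at hfv
    have key : (f (r v) = true ∧ f (r (r (r v))) = true ∧ f (s v) = false) ∨
        (f (r v) = true ∧ f (r (r (r v))) = false ∧ f (s v) = true) ∨
        (f (r v) = false ∧ f (r (r (r v))) = true ∧ f (s v) = true) := by
      rw [e1, e3, es]
      exact table _ _ _ _ _ _ _ (hcyc v) hfv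
    rcases key with ⟨k1, k2, k3⟩ | ⟨k1, k2, k3⟩ | ⟨k1, k2, k3⟩ <;>
      simp [k1, k2, k3, n1, n2, n3, n1.symm, n2.symm, n3.symm, card_insert_of_notMem]
  · have e1 : (univ.filter (fun v => x v = true)).card =
        (univ.filter (fun v => x v = false)).card := by
      refine card_bij (fun v _ => ρ v) ?_ ?_ ?_
      · intro v hv
        rw [mem_filter] at hv ⊢
        exact ⟨mem_univ _, by rw [hxρ, hv.2]; rfl⟩
      · intro v _ w _ h
        have h := congrArg ρ h
        rwa [hρρ, hρρ] at h
      · intro v hv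
        rw [mem_filter] at hv
        exact ⟨ρ v, by rw [mem_filter]; exact ⟨mem_univ _, by rw [hxρ, hv.2]; rfl⟩, hρρ v⟩
    have e2 : (univ.filter (fun v => x v = true)).card +
        (univ.filter (fun v => x v = false)).card = Fintype.card V := by
      rw [← card_univ, ← card_filter_add_card_filter_not (s := univ) (fun v => x v = true)]
      congr 2
      ext v
      simp
    have e3 : (univ.filter (fun v => x v = true)).card ≤
        (univ.filter (fun v => f v = true)).card := by
      refine card_le_card fun v hv => ?_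
      rw [mem_filter] at hv ⊢
      exact ⟨mem_univ _, by rw [hf, hv.2]; rfl⟩
    omega

end H98.CF
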