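import Pool.Agent.H98.CF.Lin2
import Pool.Agent.H98.CF.Four

/-!
# The solutions and the selection
-/

set_option autoImplicit false

namespace H98.CF

open Finset

/-- Exactly two of three. -/
def ex2 (x y z : Bool) : Bool := (x && (y && !z)) || ((x && (!y && z)) || (!x && (y && z)))

theorem ex2_a : ∀ p q : Bool, (true ^^ (p ^^ q)) = false → ex2 p q true = true := by decide

/-- the pattern on a 4-cycle -/
def pat4 (p q t u : Bool) : Bool := !(p ^^ (q ^^ (t ^^ u))) && !(p && (q && (t && u)))

theorem tab1 : ∀ x1 x2 x3 c1 c3 : Bool, pat4 true x1 x2 x3 = true →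
    (x2 = true → x1 = false → x3 = false → c3 = !c1) →
    ex2 (x1 || (x2 && (true && (c1 && !x1)))) (x3 || (true && (x2 && (c3 && !x3)))) true = true := by
  decide

theorem pat4_sel : ∀ p q t u : Bool, pat4 p q t u = true → q = true → u = true →
    p = false ∧ t = false := by decide

variable {V : Type*} [Fintype V] [DecidableEq V]

/-- `f` is (the indicator of) a set with all degrees two -/
def VS (s r ri : V → V) (f : V → Bool) : Prop :=
  ∀ v, f v = true → ex2 (f (r v)) (f (ri v)) (decide (s v ≠ v) && f (s v)) = true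

/-- the additional vertices -/
def mid (r : V → V) (X ch : V → Bool) (v : V) : Bool :=
  decide (r (r (r v)) ≠ v) && (X (r v) && (X (r (r (r v))) && (ch v && !X v)))

theorem valid_of {s r ri : V → V} (hri : ∀ v, r (ri v) = v)
    (hr : ∀ v, r (r (r v)) = v ∨ (r (r (r (r v))) = v ∧ r (r v) ≠ v))
    (hr1 : ∀ v, r v ≠ v) (X ch : V → Bool) (h1 : ∀ v, X (s v) = X v)
    (h2 : ∀ v, s v = v → X v = false)
    (h3 : ∀ v, r (r (r v)) = v → (X v ^^ (X (r v) ^^ X (r (r v)))) = false)
    (h4 : ∀ v, r (r (r v)) ≠ v → pat4 (X v) (X (r v)) (X (r (r v))) (X (r (r (r v)))) = true)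
    (h5 : ∀ v, r (r (r v)) ≠ v → X v = false → X (r v) = true → X (r (r (r v))) = true →
      ch (r (r v)) = !ch v)
    (h6 : ∀ v, mid r X ch v = true → s v ≠ v → mid r X ch (s v) = false) :
    VS s r ri (fun v => X v || mid r X ch v) := by
  have hinj := inj_of_orbits hr hr1
  intro v hv
  show ex2 (X (r v) || mid r X ch (r v)) (X (ri v) || mid r X ch (ri v))
    (decide (s v ≠ v) && (X (s v) || mid r X ch (s v))) = true
  have hv : (X v || mid r X ch v) = true := hv
  by_cases hT : r (r (r v)) = v
  · have e1 : ri v = r (r v) := hinj (by rw [hri, hT])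
    have m0 : mid r X ch v = false := by
      unfold mid; rw [decide_eq_false (by rw [hT]; simp), Bool.false_and]
    have m1 : mid r X ch (r v) = false := by
      unfold mid; rw [decide_eq_false (by rw [hT]; simp), Bool.false_and]
    have m2 : mid r X ch (r (r v)) = false := by
      unfold mid; rw [decide_eq_false (by rw [hT]; simp), Bool.false_and]
    rw [m0, Bool.or_false] at hv
    have hl : s v ≠ v := fun h => by rw [h2 v h] at hv; exact absurd hv (by decide)
    rw [e1, m1, m2, Bool.or_false, Bool.or_false, decide_eq_true hl, h1, hv, Bool.true_or,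
      Bool.and_self]
    have := h3 v hT
    rw [hv] at this
    exact ex2_a _ _ this
  · have hq4 := ((hr v).resolve_left hT).1
    have e1 : ri v = r (r (r v)) := hinj (by rw [hri, hq4])
    have hv1 : r (r (r (r v))) ≠ r v := fun h => hT (hinj h)
    have hv2 : r (r (r (r (r v)))) ≠ r (r v) := fun h => hv1 (hinj h)
    have hv3 : r (r (r (r (r (r v))))) ≠ r (r (r v)) := fun h => hv2 (hinj h)
    cases hX : X v with
    | true =>
      have hl : s v ≠ v := fun h => by rw [h2 v h] at hX; exact absurd hX (by decide)
      have m1 : mid r X ch (r v) = (X (r (r v)) && (true && (ch (r v) && !X (r v)))) := by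
        unfold mid
        rw [decide_eq_true hv1, Bool.true_and, hq4, hX]
      have m3 : mid r X ch (r (r (r v))) =
          (true && (X (r (r v)) && (ch (r (r (r v))) && !X (r (r (r v)))))) := by
        unfold mid
        rw [decide_eq_true hv3, Bool.true_and, hq4, hX]
      rw [e1, m1, m3, decide_eq_true hl, h1, hX, Bool.true_or, Bool.and_self]
      have h7 := h4 v hT
      rw [hX] at h7
      refine tab1 _ _ _ _ _ h7 ?_
      intro k2 k1 k3
      exact h5 (r v) hv1 k1 k2 (by rw [hq4]; exact hX)
    | false =>
      rw [hX, Bool.false_or] at hv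
      have hm := hv
      unfold mid at hm
      rw [Bool.and_eq_true, Bool.and_eq_true, Bool.and_eq_true] at hm
      have k1 : X (r v) = true := hm.2.1
      have k3 : X (r (r (r v))) = true := hm.2.2.1
      have k4 : (decide (s v ≠ v) && (X (s v) || mid r X ch (s v))) = false := by
        by_cases hl : s v = v
        · rw [decide_eq_false (by rw [hl]; simp), Bool.false_and]
        · rw [h1, hX, h6 v hv hl, Bool.false_or, Bool.and_false]
      rw [e1, k1, k3, k4, Bool.true_or, Bool.true_or]
      rfl

section sols

variable {s r : V → V} {sp b : V → Bool}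

/-- The solutions. -/
noncomputable def Sols (s r : V → V) (sp b : V → Bool) : Finset (V → ZMod 2) := by
  classical
  exact univ.filter (fun x => Sol s r sp b x)

theorem mem_Sols {x : V → ZMod 2} : x ∈ Sols s r sp b ↔ Sol s r sp b x := by
  classical
  unfold Sols
  rw [mem_filter]
  exact ⟨fun h => h.2, fun h => ⟨mem_univ _, h⟩⟩

omit [Fintype V] in
theorem Sol.add {x y : V → ZMod 2} (hx : Sol s r sp b x) (hy : Hom2 s r sp b y) :
    Sol s r sp b (x + y) :=
  ⟨fun v => by rw [map_add, hx.1, hy.1, add_zero], fun v => by rw [map_add, hx.2, hy.2, add_zero]⟩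

omit [Fintype V] in
theorem Sol.dead {x : V → ZMod 2} (hx : Sol s r sp b x) {v : V} (hv : s v = v) : x v = 0 := by
  have := hx.1 v
  unfold al2 at this
  rw [if_pos hv] at this
  exact this

omit [Fintype V] in
theorem Sol.s_eq {x : V → ZMod 2} (hx : Sol s r sp b x) (v : V) : x (s v) = x v := by
  by_cases hv : s v = v
  · rw [hv]
  · have := hx.1 v
    unfold al2 at this
    rw [if_neg hv] at this
    have this : x v + x (s v) = 0 := this
    have h2 : ∀ p : ZMod 2, p + p = 0 := by decide
    have := h2 (x v)
    linear_combination ‹x v + x (s v) = 0› - this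

omit [Fintype V] in
theorem Sol.pair {x : V → ZMod 2} (hx : Sol s r sp b x) {v : V} (hv : sp v = true)
    (hb : b v = true) : x (r v) = x v + 1 := by
  have := hx.2 v
  unfold ka2 ta2 at this
  rw [if_pos hv, if_pos hb, if_pos hv, if_pos hb] at this
  have this : x v + x (r v) = 1 := this
  have h2 : ∀ p : ZMod 2, p + p = 0 := by decide
  have h3 := h2 (x v)
  linear_combination this - h3

omit [Fintype V] in
theorem Sol.tri {x : V → ZMod 2} (hx : Sol s r sp b x) {v : V} (hv : sp v = false)
    (hT : r (r (r v)) = v) : x v + x (r v) + x (r (r v)) = 0 := by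
  have := hx.2 v
  unfold ka2 ta2 at this
  rw [if_neg (by rw [hv]; decide), if_pos hT, if_neg (by rw [hv]; decide)] at this
  exact this

omit [Fintype V] in
theorem Sol.quad {x : V → ZMod 2} (hx : Sol s r sp b x) {v : V} (hv : sp v = false)
    (hT : r (r (r v)) ≠ v) : x v + x (r v) + x (r (r v)) + x (r (r (r v))) = 0 := by
  have := hx.2 v
  unfold ka2 ta2 at this
  rw [if_neg (by rw [hv]; decide), if_neg hT, if_neg (by rw [hv]; decide)] at this
  exact this

theorem half (y : V → ZMod 2) (hy : Hom2 s r sp b y) (a : V) (ha : y a = 1) :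
    2 * ((Sols s r sp b).filter (fun x => x a = 1)).card = (Sols s r sp b).card := by
  have h1 : ((Sols s r sp b).filter (fun x => x a = 1)).card =
      ((Sols s r sp b).filter (fun x => ¬ x a = 1)).card := by
    have h2 : ∀ p : ZMod 2, p + p = 0 := by decide
    have hyy : y + y = 0 := by
      funext v
      exact h2 (y v)
    refine card_bij (fun x _ => x + y) ?_ ?_ ?_
    · intro x hx
      rw [mem_filter, mem_Sols] at hx ⊢
      refine ⟨hx.1.add hy, ?_⟩
      show ¬ (x a + y a = 1)
      rw [hx.2, ha]
      decide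
    · intro x _ x' _ h
      exact add_right_cancel h
    · intro x hx
      rw [mem_filter, mem_Sols] at hx
      refine ⟨x + y, ?_, ?_⟩
      · rw [mem_filter, mem_Sols]
        refine ⟨hx.1.add hy, ?_⟩
        show x a + y a = 1
        rw [(zmod2 (x a)).resolve_right hx.2, ha]
        decide
      · show x + y + y = x
        rw [add_assoc, hyy, add_zero]
  have h3 := card_filter_add_card_filter_not (s := Sols s r sp b) (fun x => x a = 1)
  omega

theorem avg (hnz : ∀ a, s a ≠ a → ∃ y, Hom2 s r sp b y ∧ y a = 1) :
    ∑ x ∈ Sols s r sp b, 2 * (univ.filter (fun v => x v = 1)).card =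
      ∑ _x ∈ Sols s r sp b, (univ.filter (fun v => s v ≠ v)).card := by
  rw [sum_const, smul_eq_mul, ← mul_sum]
  have e1 : ∀ x : V → ZMod 2, (univ.filter (fun v => x v = 1)).card =
      ∑ v, if x v = 1 then 1 else 0 := fun x => by rw [card_filter]
  simp only [e1]
  rw [sum_comm, mul_sum, card_filter, mul_sum]
  refine sum_congr rfl fun v _ => ?_
  rw [← card_filter]
  by_cases hv : s v = v
  · rw [if_neg (by rw [hv]; simp), mul_zero, filter_false_of_mem, card_empty, mul_zero]
    intro x hx
    rw [(mem_Sols.1 hx).dead hv]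
    decide
  · rw [if_pos hv, mul_one]
    obtain ⟨y, hy, hy1⟩ := hnz v hv
    exact half y hy v hy1

end sols

end H98.CF
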