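import Pool.Agent.H98.CF.Glue

/-!
# Cubic graphs with a 2-factor of 3-cycles and 4-cycles, bridges allowed
-/

set_option autoImplicit false

namespace H98.CF

open Finset

theorem ex2_cases : ∀ x y z : Bool, ex2 x y z = true →
    (x = true ∧ y = true ∧ z = false) ∨ (x = true ∧ y = false ∧ z = true) ∨
      (x = false ∧ y = true ∧ z = true) := by
  decide

variable {V : Type*} [Fintype V] [DecidableEq V] {G : SimpleGraph V} [DecidableRel G.Adj]

/-- Cubic graphs with a 2-factor of 3-cycles and 4-cycles. -/
theorem short_factor (h3 : G.IsRegularOfDegree 3) (r : V → V) (h1 : ∀ v, G.Adj v (r v))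
    (hr : ∀ v, r (r (r v)) = v ∨ (r (r (r (r v))) = v ∧ r (r v) ≠ v)) :
    ∃ S : Finset V, (∀ v ∈ S, (S.filter (fun y => G.Adj v y)).card = 2) ∧
      Fintype.card V ≤ 2 * S.card := by
  classical
  have hr1 : ∀ v, r v ≠ v := fun v => (h1 v).ne'
  have hr2 : ∀ v, r (r v) ≠ v := by
    intro v h
    rcases hr v with h' | h'
    · rw [h] at h'
      exact hr1 v h'
    · exact h'.2 h
  have hinj := inj_of_orbits hr hr1
  -- the inverse of `r`
  obtain ⟨ri, hri⟩ : ∃ ri : V → V, ∀ v, r (ri v) = v := by
    refine ⟨fun v => if r (r (r v)) = v then r (r v) else r (r (r v)), fun v => ?_⟩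
    show r (if r (r (r v)) = v then r (r v) else r (r (r v))) = v
    split_ifs with h
    · exact h
    · exact ((hr v).resolve_left h).1
  have hri' : ∀ v, ri (r v) = v := fun v => hinj (hri (r v))
  have hadji : ∀ v, G.Adj v (ri v) := by
    intro v
    have := h1 (ri v)
    rw [hri] at this
    exact this.symm
  have hne : ∀ v, r v ≠ ri v := fun v h => hr2 v (by rw [h, hri])
  -- the third neighbour
  have hex : ∀ v, ∃ w, w ≠ r v ∧ w ≠ ri v ∧ G.neighborFinset v = {r v, ri v, w} := by
    intro v
    have hc : (G.neighborFinset v).card = 3 := h3 v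
    have e1 : r v ∈ G.neighborFinset v := by
      rw [SimpleGraph.mem_neighborFinset]; exact h1 v
    have e2 : ri v ∈ (G.neighborFinset v).erase (r v) := by
      rw [mem_erase, SimpleGraph.mem_neighborFinset]
      exact ⟨(hne v).symm, hadji v⟩
    have e3 : (((G.neighborFinset v).erase (r v)).erase (ri v)).card = 1 := by
      rw [card_erase_of_mem e2, card_erase_of_mem e1, hc]
    obtain ⟨w, hw⟩ := card_eq_one.1 e3
    have hw' : w ∈ ((G.neighborFinset v).erase (r v)).erase (ri v) := by
      rw [hw]; exact mem_singleton_self w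
    rw [mem_erase, mem_erase] at hw'
    refine ⟨w, hw'.2.1, hw'.1, ?_⟩
    rw [← insert_erase e1, ← insert_erase e2, hw]
  choose s hs1 hs2 hs3 using hex
  have hadj : ∀ v w, G.Adj v w ↔ w = r v ∨ w = ri v ∨ w = s v := by
    intro v w
    rw [← SimpleGraph.mem_neighborFinset, hs3 v]
    simp
  have hss : ∀ v, s (s v) = v := by
    intro v
    have hv : G.Adj (s v) v := ((hadj v (s v)).2 (Or.inr (Or.inr rfl))).symm
    rcases (hadj (s v) v).1 hv with h | h | h
    · exfalso
      apply hs2 v
      conv_rhs => rw [h]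
      rw [hri']
    · exfalso
      apply hs1 v
      conv_rhs => rw [h]
      rw [hri]
    · exact h.symm
  have hs0 : ∀ v, s v ≠ v := fun v => ((hadj v (s v)).2 (Or.inr (Or.inr rfl))).ne'
  obtain ⟨f, hf, hw⟩ := (three_all hr hr1 hri (n3 s) s hss hs1 hs2 le_rfl).1
  have hn : n3 s = Fintype.card V := by
    unfold n3
    rw [filter_true_of_mem (fun v _ => hs0 v), card_univ]
  have hwt : wt s f = (univ.filter (fun v => f v = true)).card := by
    unfold wt
    congr 1
    ext v
    simp [hs0 v]
  refine ⟨univ.filter (fun v => f v = true), ?_, ?_⟩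
  · intro v hv
    rw [mem_filter] at hv
    have hset : (univ.filter (fun v => f v = true)).filter (fun y => G.Adj v y) =
        ({r v, ri v, s v} : Finset V).filter (fun y => f y = true) := by
      ext y
      simp only [mem_filter, mem_univ, true_and, mem_insert, mem_singleton, hadj v y]
      tauto
    rw [hset, filter_insert, filter_insert, filter_singleton]
    have n1 : s v ≠ r v := hs1 v
    have n2 : s v ≠ ri v := hs2 v
    have n3 : r v ≠ ri v := hne v
    have hk := hf v hv.2
    rw [decide_eq_true (hs0 v), Bool.true_and] at hk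
    rcases ex2_cases _ _ _ hk with ⟨k1, k2, k3⟩ | ⟨k1, k2, k3⟩ | ⟨k1, k2, k3⟩ <;>
      simp [k1, k2, k3, n1, n2, n3, n1.symm, n2.symm, n3.symm, card_insert_of_notMem]
  · rw [← hn, ← hwt]
    exact hw

end H98.CF
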