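import Pool.Agent.H98.CF.Piece3

/-!
# Induction over the bridges
-/

set_option autoImplicit false

namespace H98.CF

open Finset

variable {V : Type*} [Fintype V] [DecidableEq V] {s r ri : V → V}

/-- keep the edges inside `w` -/
def cut (s : V → V) (w : V → Bool) (v : V) : V := if w v = true ∧ w (s v) = true then s v else v

/-- the three statements -/
def Three (s r ri : V → V) : Prop :=
  (∃ f, VS s r ri f ∧ n3 s ≤ 2 * wt s f) ∧
    ∀ d0, s d0 = d0 → (∃ f, VS s r ri f ∧ f d0 = false ∧ n3 s ≤ 2 * wt s f) ∧
      (∃ f, VS s r ri f ∧ ((f d0 = true ∧ n3 s ≤ 2 * wt s f) ∨ n3 s < 2 * wt s f))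

theorem even_n3 (hs : ∀ v, s (s v) = v) : Even (n3 s) := by
  have h : ∑ _v ∈ univ.filter (fun v => s v ≠ v), (1 : ZMod 2) = 0 := by
    refine sum_involution (fun v _ => s v) ?_ ?_ ?_ ?_
    · intro v _; decide
    · intro v hv _
      rw [mem_filter] at hv
      exact hv.2
    · intro v hv
      rw [mem_filter] at hv ⊢
      exact ⟨mem_univ _, by rw [hs]; exact fun h => hv.2 h.symm⟩
    · intro v _
      exact hs v
  rw [sum_const, nsmul_eq_mul, mul_one] at h
  exact ZMod.natCast_eq_zero_iff_even.1 h

omit [Fintype V] [DecidableEq V] in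
theorem cut_cut (hs : ∀ v, s (s v) = v) (w : V → Bool) (v : V) : cut s w (cut s w v) = v := by
  unfold cut
  by_cases h : w v = true ∧ w (s v) = true
  · have h' : w (s v) = true ∧ w (s (s v)) = true := ⟨h.2, by rw [hs]; exact h.1⟩
    rw [if_pos h, if_pos h', hs]
  · rw [if_neg h, if_neg h]

theorem n3_cut (hs : ∀ v, s (s v) = v) (w : V → Bool) :
    n3 s = n3 (cut s w) + n3 (cut s (fun v => !w v)) + dl s w + dl s (fun v => !w v) := by
  unfold n3 dl
  simp only [card_filter, ← sum_add_distrib]
  refine sum_congr rfl fun v _ => ?_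
  unfold cut
  by_cases h : s v = v
  · cases h1 : w v <;> simp [h, h1]
  · cases h1 : w v <;> cases h2 : w (s v) <;> simp [h, h1, h2]

theorem glue (hs : ∀ v, s (s v) = v) (hri : ∀ v, r (ri v) = v) {w : V → Bool}
    (hwr : ∀ v, w (r v) = w v) {p : V} (hp1 : w p = true) (hp2 : w (s p) = false)
    (hun : ∀ v, w v = true → w (s v) = false → v = p) {f1 f2 : V → Bool}
    (h1 : VS (cut s w) r ri f1) (h2 : VS (cut s (fun v => !w v)) r ri f2)
    (hpq : ¬ (f1 p = true ∧ f2 (s p) = true)) :
    VS s r ri (fun v => if w v = true then f1 v else f2 v) ∧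
      wt s (fun v => if w v = true then f1 v else f2 v) = wt (cut s w) f1 +
        wt (cut s (fun v => !w v)) f2 + ((if f1 p = true then 1 else 0) +
        (if f2 (s p) = true then 1 else 0)) := by
  have hwi : ∀ v, w (ri v) = w v := fun v => by rw [← hwr (ri v), hri]
  have hun' : ∀ v, w v = false → w (s v) = true → v = s p := by
    intro v h3 h4
    have := hun (s v) h4 (by rw [hs]; exact h3)
    rw [← this, hs]
  constructor
  · intro v hv
    show ex2 (if w (r v) = true then f1 (r v) else f2 (r v))
      (if w (ri v) = true then f1 (ri v) else f2 (ri v))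
      (decide (s v ≠ v) && (if w (s v) = true then f1 (s v) else f2 (s v))) = true
    have hv : (if w v = true then f1 v else f2 v) = true := hv
    rw [hwr, hwi]
    cases hw : w v with
    | true =>
      rw [if_pos hw] at hv
      rw [if_pos rfl, if_pos rfl]
      have h3 := h1 v hv
      cases hw' : w (s v) with
      | true =>
        have e : cut s w v = s v := by unfold cut; rw [if_pos ⟨hw, hw'⟩]
        rw [e] at h3
        rw [if_pos rfl]
        exact h3
      | false =>
        have e : cut s w v = v := by
          unfold cut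
          rw [if_neg]
          rintro ⟨-, h⟩
          rw [hw'] at h
          exact absurd h (by decide)
        have e2 : v = p := hun v hw hw'
        have e3 : f2 (s v) = false := by
          rw [e2] at hv ⊢
          by_contra h
          exact hpq ⟨hv, by simpa using h⟩
        rw [e, decide_eq_false (by simp), Bool.false_and] at h3
        rw [if_neg (by decide), e3, Bool.and_false]
        exact h3
    | false =>
      rw [if_neg (by rw [hw]; decide)] at hv
      rw [if_neg (by decide), if_neg (by decide)]
      have h3 := h2 v hv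
      cases hw' : w (s v) with
      | false =>
        have e : cut s (fun v => !w v) v = s v := by
          unfold cut
          rw [if_pos]
          exact ⟨by show (!w v) = true; rw [hw]; rfl, by show (!w (s v)) = true; rw [hw']; rfl⟩
        rw [e] at h3
        rw [if_neg (by decide)]
        exact h3
      | true =>
        have e : cut s (fun v => !w v) v = v := by
          unfold cut
          rw [if_neg]
          rintro ⟨-, h⟩
          have h : (!w (s v)) = true := h
          rw [hw'] at h
          exact absurd h (by decide)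
        have e2 : v = s p := hun' v hw hw'
        have e3 : f1 (s v) = false := by
          rw [e2] at hv ⊢
          rw [hs]
          by_contra h
          exact hpq ⟨by simpa using h, hv⟩
        rw [e, decide_eq_false (by simp), Bool.false_and] at h3
        rw [if_pos rfl, e3, Bool.and_false]
        exact h3
  · have e1 : (if f1 p = true then 1 else 0) =
        (univ.filter (fun v => w v = true ∧ w (s v) = false ∧ f1 v = true)).card := by
      split_ifs with h
      · symm
        rw [card_eq_one]
        refine ⟨p, ?_⟩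
        ext v
        rw [mem_filter, mem_singleton]
        exact ⟨fun h3 => hun v h3.2.1 h3.2.2.1, fun h3 => by
          rw [h3]; exact ⟨mem_univ _, hp1, hp2, h⟩⟩
      · symm
        rw [card_eq_zero, filter_eq_empty_iff]
        rintro v - ⟨h3, h4, h5⟩
        rw [hun v h3 h4] at h5
        exact h h5
    have e2 : (if f2 (s p) = true then 1 else 0) =
        (univ.filter (fun v => w v = false ∧ w (s v) = true ∧ f2 v = true)).card := by
      split_ifs with h
      · symm
        rw [card_eq_one]
        refine ⟨s p, ?_⟩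
        ext v
        rw [mem_filter, mem_singleton]
        exact ⟨fun h3 => hun' v h3.2.1 h3.2.2.1, fun h3 => by
          rw [h3, hs]; exact ⟨mem_univ _, hp2, hp1, h⟩⟩
      · symm
        rw [card_eq_zero, filter_eq_empty_iff]
        rintro v - ⟨h3, h4, h5⟩
        rw [hun' v h3 h4] at h5
        exact h h5
    rw [e1, e2]
    unfold wt
    simp only [card_filter, ← sum_add_distrib]
    refine sum_congr rfl fun v _ => ?_
    unfold cut
    by_cases h : s v = v
    · cases h1 : w v <;> simp [h, h1]
    · cases h1 : w v <;> cases h2 : w (s v) <;> cases h3 : f1 v <;> cases h4 : f2 v <;>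
        simp [h, h1, h2, h3, h4]

theorem step (hs : ∀ v, s (s v) = v) (hri : ∀ v, r (ri v) = v) {w : V → Bool}
    (hwr : ∀ v, w (r v) = w v) (hd : dl s w = 1) (ih1 : Three (cut s w) r ri)
    (ih2 : Three (cut s (fun v => !w v)) r ri) :
    (∃ f, VS s r ri f ∧ n3 s ≤ 2 * wt s f) ∧
    ∀ d0, s d0 = d0 → w d0 = true → (∃ f, VS s r ri f ∧ f d0 = false ∧ n3 s ≤ 2 * wt s f) ∧
      (∃ f, VS s r ri f ∧ ((f d0 = true ∧ n3 s ≤ 2 * wt s f) ∨ n3 s < 2 * wt s f)) := by
  have hd' := hd
  unfold dl at hd'
  obtain ⟨p, hp⟩ := card_eq_one.1 hd'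
  have hpm : w p = true ∧ w (s p) = false := by
    have : p ∈ univ.filter (fun v => w v = true ∧ w (s v) = false) := by
      rw [hp]; exact mem_singleton_self p
    rw [mem_filter] at this
    exact this.2
  have hun : ∀ v, w v = true → w (s v) = false → v = p := by
    intro v h4 h5
    have : v ∈ univ.filter (fun v => w v = true ∧ w (s v) = false) := by
      rw [mem_filter]; exact ⟨mem_univ _, h4, h5⟩
    rw [hp, mem_singleton] at this
    exact this
  have hn3 := n3_cut hs w
  rw [dl_not s hs, hd] at hn3
  have hev := even_n3 (cut_cut hs (fun v => !w v))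
  have hq : cut s (fun v => !w v) (s p) = s p := by
    unfold cut
    rw [if_neg]
    rintro ⟨-, h⟩
    have h : (!w (s (s p))) = true := h
    rw [hs, hpm.1] at h
    exact absurd h (by decide)
  have comp : ∀ f1, VS (cut s w) r ri f1 → ∃ f, VS s r ri f ∧ (∀ v, w v = true → f v = f1 v) ∧
      n3 s + 2 * wt (cut s w) f1 ≤ 2 * wt s f + n3 (cut s w) := by
    intro f1 hf1
    cases h1 : f1 p with
    | true =>
      obtain ⟨f2, k1, k2, k3⟩ := (ih2.2 (s p) hq).1
      have hg := glue hs hri hwr hpm.1 hpm.2 hun hf1 k1 (by rw [k2]; simp)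
      refine ⟨_, hg.1, fun v hv => by show (if w v = true then _ else _) = _; rw [if_pos hv], ?_⟩
      rw [hg.2, h1, k2, if_pos rfl, if_neg (by decide)]
      omega
    | false =>
      obtain ⟨f2, k1, k3⟩ := (ih2.2 (s p) hq).2
      have hg := glue hs hri hwr hpm.1 hpm.2 hun hf1 k1 (by rw [h1]; simp)
      refine ⟨_, hg.1, fun v hv => by show (if w v = true then _ else _) = _; rw [if_pos hv], ?_⟩
      rw [hg.2, h1, if_neg (by decide)]
      rcases k3 with ⟨k2, k3⟩ | k3
      · rw [k2, if_pos rfl]
        omega
      · obtain ⟨m, hm⟩ := hev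
        omega
  refine ⟨?_, fun d0 hd0 hwd => ⟨?_, ?_⟩⟩
  · obtain ⟨f1, g1, g2⟩ := ih1.1
    obtain ⟨f, e1, -, e3⟩ := comp f1 g1
    exact ⟨f, e1, by omega⟩
  · have hdc : cut s w d0 = d0 := by
      unfold cut
      split_ifs
      · exact hd0
      · rfl
    obtain ⟨f1, g1, g2, g3⟩ := (ih1.2 d0 hdc).1
    obtain ⟨f, e1, e2, e3⟩ := comp f1 g1
    exact ⟨f, e1, by rw [e2 d0 hwd]; exact g2, by omega⟩
  · have hdc : cut s w d0 = d0 := by
      unfold cut
      split_ifs
      · exact hd0
      · rfl
    obtain ⟨f1, g1, g3⟩ := (ih1.2 d0 hdc).2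
    obtain ⟨f, e1, e2, e3⟩ := comp f1 g1
    refine ⟨f, e1, ?_⟩
    rcases g3 with ⟨g2, g3⟩ | g3
    · left
      exact ⟨by rw [e2 d0 hwd]; exact g2, by omega⟩
    · right
      omega

theorem three_all (hr : ∀ v, r (r (r v)) = v ∨ (r (r (r (r v))) = v ∧ r (r v) ≠ v))
    (hr1 : ∀ v, r v ≠ v) (hri : ∀ v, r (ri v) = v) : ∀ n : ℕ, ∀ s : V → V,
    (∀ v, s (s v) = v) → (∀ v, s v ≠ r v) → (∀ v, s v ≠ ri v) → n3 s ≤ n → Three s r ri := by
  intro n
  induction n using Nat.strong_induction_on with
  | _ n ih =>
    intro s hs hsr hsri hn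
    by_cases hb : ∀ w : V → Bool, (∀ v, w (r v) = w v) → dl s w ≠ 1
    · exact base hs hr hr1 hri hsr hsri hb
    · push Not at hb
      obtain ⟨w, hwr, hd⟩ := hb
      have hn3 := n3_cut hs w
      rw [dl_not s hs, hd] at hn3
      have hcr : ∀ w : V → Bool, ∀ v, cut s w v ≠ r v := by
        intro w v
        unfold cut
        split_ifs
        · exact hsr v
        · exact (hr1 v).symm
      have hcri : ∀ w : V → Bool, ∀ v, cut s w v ≠ ri v := by
        intro w v
        unfold cut
        split_ifs
        · exact hsri v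
        · intro h
          have := hri v
          rw [← h] at this
          exact hr1 v this
      have ih1 := ih (n3 (cut s w)) (by omega) (cut s w) (cut_cut hs w) (hcr w) (hcri w) le_rfl
      have ih2 := ih (n3 (cut s (fun v => !w v))) (by omega) (cut s (fun v => !w v))
        (cut_cut hs _) (hcr _) (hcri _) le_rfl
      have st1 := step hs hri hwr hd ih1 ih2
      have hww : (fun v => !(fun v => !w v) v) = w := by
        funext v
        show (!!w v) = w v
        rw [Bool.not_not]
      have st2 := step (w := fun v => !w v) hs hri (fun v => by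
        show (!w (r v)) = !w v
        rw [hwr]) (by rw [dl_not s hs, hd]) ih2 (by rw [hww]; exact ih1)
      refine ⟨st1.1, fun d0 hd0 => ?_⟩
      cases hw : w d0 with
      | true => exact st1.2 d0 hd0 hw
      | false => exact st2.2 d0 hd0 (by show (!w d0) = true; rw [hw]; rfl)

end H98.CF
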