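import Pool.Agent.H98.CF.Split

/-!
# The linear system

After the splitting the system `x (s v) = x v`, `x (r v) = x v + 1` on the pairs, sum zero on the
orbits of size three, has a solution in which at most a quarter of the orbits of size three are
constant.
-/

set_option autoImplicit false

namespace H98.CF

open Finset

variable {V : Type*} [Fintype V] [DecidableEq V]

/-- coordinate -/
def pr (v : V) : (V → ZMod 2) →ₗ[ZMod 2] ZMod 2 := LinearMap.proj v

omit [Fintype V] in
theorem pr_single (v u : V) : pr v (Pi.single u (1 : ZMod 2)) = if v = u then 1 else 0 := by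
  show (Pi.single u (1 : ZMod 2) : V → ZMod 2) v = _
  rw [Pi.single_apply]

/-- the functional of the `s`-edge -/
def al (s : V → V) (v : V) : (V → ZMod 2) →ₗ[ZMod 2] ZMod 2 := pr v + pr (s v)

/-- the functional of the block -/
def ka (r : V → V) (b : V → Bool) (v : V) : (V → ZMod 2) →ₗ[ZMod 2] ZMod 2 :=
  if r (r (r v)) = v then pr v + pr (r v) + pr (r (r v)) else
    if b v = true then pr v + pr (r v) else 0

/-- the constant of the block -/
def ta (r : V → V) (b : V → Bool) (v : V) : ZMod 2 :=
  if r (r (r v)) = v then 0 else if b v = true then 1 else 0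

section

variable {s r : V → V}

theorem inj_of_orbits (hr : ∀ v, r (r (r v)) = v ∨ (r (r (r (r v))) = v ∧ r (r v) ≠ v))
    (hr1 : ∀ v, r v ≠ v) : Function.Injective r := by
  intro x y h
  rcases hr x with hx | ⟨hx, hx2⟩ <;> rcases hr y with hy | ⟨hy, hy2⟩
  · rw [← hx, h, hy]
  · exfalso
    have : r (r (r x)) = r (r (r y)) := by rw [h]
    rw [hx] at this
    apply hr1 y
    rw [← h, this, hy]
  · exfalso
    have : r (r (r x)) = r (r (r y)) := by rw [h]
    rw [hy] at this
    apply hr1 x
    rw [h, ← this, hx]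
  · rw [← hx, h, hy]

theorem al_inv (hs : ∀ v, s (s v) = v) (v u : V) :
    al s v (Pi.single (s u) 1) = al s v (Pi.single u 1) := by
  unfold al
  rw [LinearMap.add_apply, LinearMap.add_apply, pr_single, pr_single, pr_single, pr_single]
  have e1 : (v = s u) ↔ (s v = u) := ⟨fun h => by rw [h, hs], fun h => by rw [← h, hs]⟩
  have e2 : (s v = s u) ↔ (v = u) := ⟨fun h => by rw [← hs v, h, hs], fun h => by rw [h]⟩
  simp only [e1, e2]
  rw [add_comm]

theorem ka_inv (hr : ∀ v, r (r (r v)) = v ∨ (r (r (r (r v))) = v ∧ r (r v) ≠ v))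
    (hr1 : ∀ v, r v ≠ v) {b : V → Bool} (hbq : ∀ v, r (r (r v)) ≠ v → b (r v) = !b v) (v u : V)
    (hu : r (r (r u)) = u ∨ b u = true) :
    ka r b v (Pi.single (r u) 1) = ka r b v (Pi.single u 1) := by
  have hinj := inj_of_orbits hr hr1
  have e2 : (r v = r u) ↔ (v = u) := hinj.eq_iff
  unfold ka
  split_ifs with h1 h2
  · rw [LinearMap.add_apply, LinearMap.add_apply, LinearMap.add_apply, LinearMap.add_apply,
      pr_single, pr_single, pr_single, pr_single, pr_single, pr_single]
    have e1 : (v = r u) ↔ (r (r v) = u) := by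
      constructor
      · intro h
        apply hinj
        rw [h1, h]
      · intro h
        rw [← h, h1]
    have e3 : (r (r v) = r u) ↔ (r v = u) := hinj.eq_iff
    simp only [e1, e2, e3]
    ring
  · rw [LinearMap.add_apply, LinearMap.add_apply,
      pr_single, pr_single, pr_single, pr_single]
    have e1 : ¬ (v = r u) := by
      intro h
      have hq : r (r (r u)) ≠ u := by
        intro h3
        apply h1
        rw [h, h3]
      have h4 := hu.resolve_left hq
      have h5 := hbq u hq
      rw [← h, h2, h4] at h5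
      exact absurd h5 (by decide)
    have e3 : ¬ (r v = u) := by
      intro h
      have hq : r (r (r u)) ≠ u := by
        intro h3
        rw [← h] at h3
        exact h1 (hinj h3)
      have h4 := hu.resolve_left hq
      have h5 := hbq v h1
      rw [h, h2, h4] at h5
      exact absurd h5 (by decide)
    simp only [e1, e2, e3, if_false]
    ring
  · rfl

/-- the dual computation -/
theorem dual_cut (hs : ∀ v, s (s v) = v)
    (hr : ∀ v, r (r (r v)) = v ∨ (r (r (r (r v))) = v ∧ r (r v) ≠ v))
    (hr1 : ∀ v, r v ≠ v) {b : V → Bool} (hbq : ∀ v, r (r (r v)) ≠ v → b (r v) = !b v)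
    (c : V ⊕ V → ZMod 2) (g : V → ZMod 2)
    (h : ∀ u, ∑ v, c (Sum.inl v) * al s v (Pi.single u 1) +
      ∑ v, c (Sum.inr v) * ka r b v (Pi.single u 1) = g u) :
    ∃ w : V → ZMod 2, (∀ v, w v = ∑ u, c (Sum.inr u) * ka r b u (Pi.single v 1)) ∧
      (∀ v, (r (r (r v)) = v ∨ b v = true) → w (r v) = w v) ∧
      ∀ v, w v + w (s v) = g v + g (s v) := by
  refine ⟨fun v => ∑ u, c (Sum.inr u) * ka r b u (Pi.single v 1), fun _ => rfl, ?_, ?_⟩
  · intro v hv
    refine sum_congr rfl fun u _ => ?_
    rw [ka_inv hr hr1 hbq u v hv]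
  · intro v
    have h1 := h v
    have h2 := h (s v)
    have h3 : ∑ u, c (Sum.inl u) * al s u (Pi.single (s v) 1) =
        ∑ u, c (Sum.inl u) * al s u (Pi.single v 1) :=
      sum_congr rfl fun u _ => by rw [al_inv hs u v]
    rw [h3] at h2
    rw [← h1, ← h2]
    have h4 : ∀ p : ZMod 2, p + p = 0 := by decide
    have := h4 (∑ u, c (Sum.inl u) * al s u (Pi.single v 1))
    linear_combination -this

theorem zmod2 : ∀ p : ZMod 2, p = 0 ∨ p = 1 := by decide

/-- The homogeneous space. -/
def Hom0 (s r : V → V) (b : V → Bool) (y : V → ZMod 2) : Prop :=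
  (∀ v, al s v y = 0) ∧ ∀ v, ka r b v y = 0

theorem exists_nonzero (hs : ∀ v, s (s v) = v) (hs0 : ∀ v, s v ≠ v)
    (hr : ∀ v, r (r (r v)) = v ∨ (r (r (r (r v))) = v ∧ r (r v) ≠ v))
    (hr1 : ∀ v, r v ≠ v) (hb : ∀ w : V → Bool, (∀ v, w (r v) = w v) → dl s w ≠ 1)
    {b : V → Bool} (hbq : ∀ v, r (r (r v)) ≠ v → b (r v) = !b v)
    (hg : ∀ w : V → Bool, (∀ v, (r (r (r v)) = v ∨ b v = true) → w (r v) = w v) → dl s w ≤ 1 →
        ∀ v, w (r v) = w v) (a : V) :
    ∃ y, Hom0 s r b y ∧ y a = 1 := by
  by_contra hcon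
  push Not at hcon
  have h1 : pr a ∈ Submodule.span (ZMod 2) (Set.range (Sum.elim (al s) (ka r b))) := by
    refine mem_span_of_iInf_ker_le_ker fun y hy => ?_
    rw [Submodule.mem_iInf] at hy
    rw [LinearMap.mem_ker]
    have h2 := hcon y ⟨fun v => hy (Sum.inl v), fun v => hy (Sum.inr v)⟩
    exact (zmod2 (y a)).resolve_right h2
  rw [Submodule.mem_span_range_iff_exists_fun] at h1
  obtain ⟨c, hc⟩ := h1
  have h3 : ∀ u, ∑ v, c (Sum.inl v) * al s v (Pi.single u 1) +
      ∑ v, c (Sum.inr v) * ka r b v (Pi.single u 1) = if a = u then 1 else 0 := by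
    intro u
    rw [← pr_single, ← hc, Fintype.sum_sum_type, LinearMap.add_apply, LinearMap.sum_apply,
      LinearMap.sum_apply]
    simp only [LinearMap.smul_apply, smul_eq_mul, Sum.elim_inl, Sum.elim_inr]
  obtain ⟨w, -, hw1, hw2⟩ := dual_cut hs hr hr1 hbq c _ h3
  let W : V → Bool := fun v => decide (w v = 1)
  have hW : ∀ v, W v = true ↔ w v = 1 := fun v => by simp [W]
  have hW0 : ∀ v, W v = false ↔ w v = 0 := fun v => by
    rw [← Bool.not_eq_true, hW]
    rcases zmod2 (w v) with h | h
    · rw [h]; decide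
    · rw [h]; decide
  have hsat : ∀ v, (r (r (r v)) = v ∨ b v = true) → W (r v) = W v := by
    intro v hv
    show decide (w (r v) = 1) = decide (w v = 1)
    rw [hw1 v hv]
  have hmem : ∀ v, W v = true → W (s v) = false → v = a ∨ v = s a := by
    intro v h1 h2
    rw [hW] at h1
    rw [hW0] at h2
    have h3 := hw2 v
    rw [h1, h2] at h3
    by_contra h4
    push Not at h4
    rw [if_neg h4.1.symm, if_neg (fun h => h4.2 (by rw [h, hs]))] at h3
    exact absurd h3 (by decide)
  have hle : dl s W ≤ 1 := by
    unfold dl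
    rw [card_le_one]
    intro v hv u hu
    rw [mem_filter] at hv hu
    rcases hmem v hv.2.1 hv.2.2 with h1 | h1 <;> rcases hmem u hu.2.1 hu.2.2 with h2 | h2
    · rw [h1, h2]
    · have h3 := hv.2.2
      rw [h1, ← h2, hu.2.1] at h3
      exact absurd h3 (by decide)
    · have h3 := hu.2.2
      rw [h2, ← h1, hv.2.1] at h3
      exact absurd h3 (by decide)
    · rw [h1, h2]
  have hge : 1 ≤ dl s W := by
    unfold dl
    rw [Nat.one_le_iff_ne_zero, card_ne_zero]
    have h3 := hw2 a
    rw [if_pos rfl, if_neg (fun h => hs0 a h.symm), add_zero] at h3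
    rcases zmod2 (w a) with h1 | h1
    · rw [h1, zero_add] at h3
      refine ⟨s a, ?_⟩
      rw [mem_filter, hs]
      exact ⟨mem_univ _, (hW _).2 h3, (hW0 _).2 h1⟩
    · rw [h1] at h3
      refine ⟨a, ?_⟩
      rw [mem_filter]
      exact ⟨mem_univ _, (hW _).2 h1, (hW0 _).2 (by simpa using h3)⟩
  exact hb W (hg W hsat hle) (le_antisymm hle hge)

theorem exists_particular (hs : ∀ v, s (s v) = v)
    (hr : ∀ v, r (r (r v)) = v ∨ (r (r (r (r v))) = v ∧ r (r v) ≠ v))
    (hr1 : ∀ v, r v ≠ v)
    {b : V → Bool} (hbq : ∀ v, r (r (r v)) ≠ v → b (r v) = !b v)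
    (hg : ∀ w : V → Bool, (∀ v, (r (r (r v)) = v ∨ b v = true) → w (r v) = w v) → dl s w ≤ 1 →
        ∀ v, w (r v) = w v) :
    ∃ x : V → ZMod 2, (∀ v, al s v x = 0) ∧ ∀ v, ka r b v x = ta r b v := by
  by_contra hcon
  push Not at hcon
  let L : V ⊕ V → ((V → ZMod 2) × ZMod 2) →ₗ[ZMod 2] ZMod 2 :=
    Sum.elim (fun v => (al s v).comp (LinearMap.fst _ _ _))
      (fun v => (ka r b v).comp (LinearMap.fst _ _ _) - (ta r b v) • LinearMap.snd _ _ _)
  have h1 : (LinearMap.snd (ZMod 2) (V → ZMod 2) (ZMod 2)) ∈
      Submodule.span (ZMod 2) (Set.range L) := by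
    refine mem_span_of_iInf_ker_le_ker fun y hy => ?_
    rw [Submodule.mem_iInf] at hy
    rw [LinearMap.mem_ker]
    by_contra h2
    have h3 : y.2 = 1 := (zmod2 y.2).resolve_left h2
    obtain ⟨v, hv⟩ := hcon y.1 (fun v => hy (Sum.inl v))
    apply hv
    have h4 : ka r b v y.1 - ta r b v * y.2 = 0 := hy (Sum.inr v)
    rw [h3, mul_one] at h4
    exact sub_eq_zero.1 h4
  rw [Submodule.mem_span_range_iff_exists_fun] at h1
  obtain ⟨c, hc⟩ := h1
  have h3 : ∀ u, ∑ v, c (Sum.inl v) * al s v (Pi.single u 1) +
      ∑ v, c (Sum.inr v) * ka r b v (Pi.single u 1) = 0 := by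
    intro u
    have h4 := congrArg (fun f => f ((Pi.single u 1 : V → ZMod 2), (0 : ZMod 2))) hc
    simp only [Fintype.sum_sum_type, LinearMap.add_apply, LinearMap.sum_apply,
      LinearMap.smul_apply, smul_eq_mul, L, Sum.elim_inl, Sum.elim_inr, LinearMap.comp_apply,
      LinearMap.fst_apply, LinearMap.sub_apply, LinearMap.snd_apply, mul_zero, sub_zero] at h4
    exact h4
  have h5 : ∑ v, c (Sum.inr v) * ta r b v = 1 := by
    have h4 := congrArg (fun f => f ((0 : V → ZMod 2), (1 : ZMod 2))) hc
    simp only [Fintype.sum_sum_type, LinearMap.add_apply, LinearMap.sum_apply,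
      LinearMap.smul_apply, smul_eq_mul, L, Sum.elim_inl, Sum.elim_inr, LinearMap.comp_apply,
      LinearMap.fst_apply, LinearMap.sub_apply, LinearMap.snd_apply, map_zero, mul_zero,
      sum_const_zero, zero_add, mul_one, zero_sub] at h4
    rw [← h4]
    refine sum_congr rfl fun v _ => ?_
    have : ∀ p : ZMod 2, -p = p := by decide
    rw [this]
  obtain ⟨w, hw0, hw1, hw2⟩ := dual_cut hs hr hr1 hbq c _ h3
  let W : V → Bool := fun v => decide (w v = 1)
  have hdl : dl s W ≤ 1 := by
    have : dl s W = 0 := by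
      unfold dl
      rw [card_eq_zero, filter_eq_empty_iff]
      rintro v - ⟨h6, h7⟩
      have h6 : w v = 1 := by simpa [W] using h6
      have h7 : ¬ w (s v) = 1 := by simpa [W] using h7
      have h8 := hw2 v
      rw [h6, (zmod2 (w (s v))).resolve_right h7] at h8
      exact absurd h8 (by decide)
    omega
  have hWr := hg W (fun v hv => by
    show decide (w (r v) = 1) = decide (w v = 1)
    rw [hw1 v hv]) hdl
  have hwr : ∀ v, w (r v) = w v := by
    intro v
    have h6 : decide (w (r v) = 1) = decide (w v = 1) := hWr v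
    rcases zmod2 (w (r v)) with h7 | h7 <;> rcases zmod2 (w v) with h8 | h8
    · rw [h7, h8]
    · rw [h7, h8] at h6; exact absurd h6 (by decide)
    · rw [h7, h8] at h6; exact absurd h6 (by decide)
    · rw [h7, h8]
  have hinj := inj_of_orbits hr hr1
  have hcw : ∀ v, c (Sum.inr v) * ta r b v = w v * ta r b v := by
    intro v
    unfold ta
    split_ifs with h6 h7
    · rw [mul_zero, mul_zero]
    · rw [mul_one, mul_one, hw0 v, sum_eq_single v]
      · have : ka r b v (Pi.single v 1) = 1 := by
          unfold ka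
          rw [if_neg h6, if_pos h7, LinearMap.add_apply, pr_single, pr_single, if_pos rfl,
            if_neg (hr1 v), add_zero]
        rw [this, mul_one]
      · intro u _ huv
        have : ka r b u (Pi.single v 1) = 0 := by
          unfold ka
          split_ifs with h8 h9
          · rw [LinearMap.add_apply, LinearMap.add_apply, pr_single, pr_single, pr_single,
              if_neg huv, if_neg, if_neg]
            · rfl
            · rintro rfl
              exact h6 (by rw [h8])
            · rintro rfl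
              exact h6 (by rw [h8])
          · rw [LinearMap.add_apply, pr_single, pr_single, if_neg huv, if_neg]
            · rfl
            · rintro rfl
              have h10 := hbq u h8
              rw [h7, h9] at h10
              exact absurd h10 (by decide)
          · rfl
        rw [this, mul_zero]
      · intro h; exact absurd (mem_univ v) h
    · rw [mul_zero, mul_zero]
  have h6 : ∑ v, w v * ta r b v = 0 := by
    refine sum_involution (fun v _ => if r (r (r v)) = v then v else r (r v)) ?_ ?_ ?_ ?_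
    · intro v _
      have h4 : ∀ p : ZMod 2, p + p = 0 := by decide
      split_ifs with h7
      · exact h4 _
      · rw [hwr, hwr]
        have h8 : ta r b (r (r v)) = ta r b v := by
          unfold ta
          have h9 : ¬ r (r (r (r (r v)))) = r (r v) := fun h => h7 (hinj (hinj h))
          have h10 : r (r (r (r v))) ≠ r v := fun h => h7 (hinj h)
          rw [if_neg h9, if_neg h7, hbq (r v) h10, hbq v h7, Bool.not_not]
        rw [h8]
        exact h4 _
    · intro v _ hne
      have h7 : ¬ r (r (r v)) = v := by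
        intro h7
        apply hne
        unfold ta
        rw [if_pos h7, mul_zero]
      rw [if_neg h7]
      exact ((hr v).resolve_left h7).2
    · intro v _
      exact mem_univ _
    · intro v _
      by_cases h7 : r (r (r v)) = v
      · simp only [if_pos h7]
      · have h9 : ¬ r (r (r (r (r v)))) = r (r v) := fun h => h7 (hinj (hinj h))
        simp only [if_neg h7, if_neg h9]
        exact ((hr v).resolve_left h7).1
  rw [sum_congr rfl fun v _ => hcw v, h6] at h5
  exact absurd h5 (by decide)

end

end H98.CF
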