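import Pool.Agent.H98.CF.Split2
import Pool.Agent.H98.CF.Lin

/-!
# The linear system, with dead vertices

As `Lin.lean`; fixed points of `s` (dead vertices) get the value zero, orbits outside `sp` have sum
zero.
-/

set_option autoImplicit false

namespace H98.CF

open Finset

variable {V : Type*} [Fintype V] [DecidableEq V]

/-- the functional of the `s`-edge or of the dead vertex -/
def al2 (s : V → V) (v : V) : (V → ZMod 2) →ₗ[ZMod 2] ZMod 2 :=
  if s v = v then pr v else pr v + pr (s v)

/-- the functional of the block -/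
def ka2 (r : V → V) (sp b : V → Bool) (v : V) : (V → ZMod 2) →ₗ[ZMod 2] ZMod 2 :=
  if sp v = true then (if b v = true then pr v + pr (r v) else 0) else
    if r (r (r v)) = v then pr v + pr (r v) + pr (r (r v)) else
      pr v + pr (r v) + pr (r (r v)) + pr (r (r (r v)))

/-- the constant of the block -/
def ta2 (sp b : V → Bool) (v : V) : ZMod 2 :=
  if sp v = true then (if b v = true then 1 else 0) else 0

section

variable {s r : V → V}

omit [Fintype V] in
theorem al2_inv (hs : ∀ v, s (s v) = v) (v u : V) :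
    al2 s v (Pi.single (s u) 1) = al2 s v (Pi.single u 1) := by
  have e1 : (v = s u) ↔ (s v = u) := ⟨fun h => by rw [h, hs], fun h => by rw [← h, hs]⟩
  unfold al2
  split_ifs with h0
  · rw [pr_single, pr_single]
    rw [h0] at e1
    simp only [e1]
  · rw [LinearMap.add_apply, LinearMap.add_apply, pr_single, pr_single, pr_single, pr_single]
    have e2 : (s v = s u) ↔ (v = u) := ⟨fun h => by rw [← hs v, h, hs], fun h => by rw [h]⟩
    simp only [e1, e2]
    rw [add_comm]

theorem ka2_inv (hr : ∀ v, r (r (r v)) = v ∨ (r (r (r (r v))) = v ∧ r (r v) ≠ v))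
    (hr1 : ∀ v, r v ≠ v) {sp b : V → Bool} (hsp : ∀ v, sp (r v) = sp v)
    (hbq : ∀ v, sp v = true → b (r v) = !b v) (v u : V) (hu : sp u = false ∨ b u = true) :
    ka2 r sp b v (Pi.single (r u) 1) = ka2 r sp b v (Pi.single u 1) := by
  have hinj := inj_of_orbits hr hr1
  have e2 : (r v = r u) ↔ (v = u) := hinj.eq_iff
  have e3 : (r (r v) = r u) ↔ (r v = u) := hinj.eq_iff
  have e4 : (r (r (r v)) = r u) ↔ (r (r v) = u) := hinj.eq_iff
  unfold ka2
  split_ifs with h1 h2 h3
  · rw [LinearMap.add_apply, LinearMap.add_apply,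
      pr_single, pr_single, pr_single, pr_single]
    have e1 : ¬ (v = r u) := by
      intro h
      have hq : sp u = true := by rw [← hsp, ← h]; exact h1
      have h4 := hu.resolve_left (by rw [hq]; decide)
      have h5 := hbq u hq
      rw [← h, h2, h4] at h5
      exact absurd h5 (by decide)
    have e3 : ¬ (r v = u) := by
      intro h
      have hq : sp u = true := by rw [← h, hsp]; exact h1
      have h4 := hu.resolve_left (by rw [hq]; decide)
      have h5 := hbq v h1
      rw [h, h2, h4] at h5
      exact absurd h5 (by decide)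
    simp only [e1, e2, e3, if_false]
    ring
  · rfl
  · rw [LinearMap.add_apply, LinearMap.add_apply, LinearMap.add_apply, LinearMap.add_apply,
      pr_single, pr_single, pr_single, pr_single, pr_single, pr_single]
    have e1 : (v = r u) ↔ (r (r v) = u) := by
      rw [← e4, h3]
    simp only [e1, e2, e3]
    ring
  · rw [LinearMap.add_apply, LinearMap.add_apply, LinearMap.add_apply, LinearMap.add_apply,
      LinearMap.add_apply, LinearMap.add_apply, pr_single, pr_single, pr_single, pr_single,
      pr_single, pr_single, pr_single, pr_single]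
    have e5 : (r (r (r (r v))) = r u) ↔ (r (r (r v)) = u) := hinj.eq_iff
    have e1 : (v = r u) ↔ (r (r (r v)) = u) := by
      rw [← e5, ((hr v).resolve_left h3).1]
    simp only [e1, e2, e3, e4]
    ring

/-- the dual computation -/
theorem dual_cut2 (hs : ∀ v, s (s v) = v)
    (hr : ∀ v, r (r (r v)) = v ∨ (r (r (r (r v))) = v ∧ r (r v) ≠ v))
    (hr1 : ∀ v, r v ≠ v) {sp b : V → Bool} (hsp : ∀ v, sp (r v) = sp v)
    (hbq : ∀ v, sp v = true → b (r v) = !b v)
    (c : V ⊕ V → ZMod 2) (g : V → ZMod 2)
    (h : ∀ u, ∑ v, c (Sum.inl v) * al2 s v (Pi.single u 1) +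
      ∑ v, c (Sum.inr v) * ka2 r sp b v (Pi.single u 1) = g u) :
    ∃ w : V → ZMod 2, (∀ v, w v = ∑ u, c (Sum.inr u) * ka2 r sp b u (Pi.single v 1)) ∧
      (∀ v, (sp v = false ∨ b v = true) → w (r v) = w v) ∧
      ∀ v, w v + w (s v) = g v + g (s v) := by
  refine ⟨fun v => ∑ u, c (Sum.inr u) * ka2 r sp b u (Pi.single v 1), fun _ => rfl, ?_, ?_⟩
  · intro v hv
    refine sum_congr rfl fun u _ => ?_
    rw [ka2_inv hr hr1 hsp hbq u v hv]
  · intro v
    have h1 := h v
    have h2 := h (s v)
    have h3 : ∑ u, c (Sum.inl u) * al2 s u (Pi.single (s v) 1) =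
        ∑ u, c (Sum.inl u) * al2 s u (Pi.single v 1) :=
      sum_congr rfl fun u _ => by rw [al2_inv hs u v]
    rw [h3] at h2
    rw [← h1, ← h2]
    have h4 : ∀ p : ZMod 2, p + p = 0 := by decide
    have := h4 (∑ u, c (Sum.inl u) * al2 s u (Pi.single v 1))
    linear_combination -this

/-- The homogeneous space. -/
def Hom2 (s r : V → V) (sp b : V → Bool) (y : V → ZMod 2) : Prop :=
  (∀ v, al2 s v y = 0) ∧ ∀ v, ka2 r sp b v y = 0

/-- The solutions. -/
def Sol (s r : V → V) (sp b : V → Bool) (x : V → ZMod 2) : Prop :=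
  (∀ v, al2 s v x = 0) ∧ ∀ v, ka2 r sp b v x = ta2 sp b v

theorem exists_nonzero2 (hs : ∀ v, s (s v) = v)
    (hr : ∀ v, r (r (r v)) = v ∨ (r (r (r (r v))) = v ∧ r (r v) ≠ v))
    (hr1 : ∀ v, r v ≠ v) (hb : ∀ w : V → Bool, (∀ v, w (r v) = w v) → dl s w ≠ 1)
    {sp b : V → Bool} (hsp : ∀ v, sp (r v) = sp v)
    (hbq : ∀ v, sp v = true → b (r v) = !b v)
    (hg : ∀ w : V → Bool, (∀ v, (sp v = false ∨ b v = true) → w (r v) = w v) → dl s w ≤ 1 →
        ∀ v, w (r v) = w v) (a : V) (hs0 : s a ≠ a) :
    ∃ y, Hom2 s r sp b y ∧ y a = 1 := by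
  by_contra hcon
  push Not at hcon
  have h1 : pr a ∈ Submodule.span (ZMod 2) (Set.range (Sum.elim (al2 s) (ka2 r sp b))) := by
    refine mem_span_of_iInf_ker_le_ker fun y hy => ?_
    rw [Submodule.mem_iInf] at hy
    rw [LinearMap.mem_ker]
    have h2 := hcon y ⟨fun v => hy (Sum.inl v), fun v => hy (Sum.inr v)⟩
    exact (zmod2 (y a)).resolve_right h2
  rw [Submodule.mem_span_range_iff_exists_fun] at h1
  obtain ⟨c, hc⟩ := h1
  have h3 : ∀ u, ∑ v, c (Sum.inl v) * al2 s v (Pi.single u 1) +
      ∑ v, c (Sum.inr v) * ka2 r sp b v (Pi.single u 1) = if a = u then 1 else 0 := by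
    intro u
    rw [← pr_single, ← hc, Fintype.sum_sum_type, LinearMap.add_apply, LinearMap.sum_apply,
      LinearMap.sum_apply]
    simp only [LinearMap.smul_apply, smul_eq_mul, Sum.elim_inl, Sum.elim_inr]
  obtain ⟨w, -, hw1, hw2⟩ := dual_cut2 hs hr hr1 hsp hbq c _ h3
  let W : V → Bool := fun v => decide (w v = 1)
  have hW : ∀ v, W v = true ↔ w v = 1 := fun v => by simp [W]
  have hW0 : ∀ v, W v = false ↔ w v = 0 := fun v => by
    rw [← Bool.not_eq_true, hW]
    rcases zmod2 (w v) with h | h
    · rw [h]; decide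
    · rw [h]; decide
  have hsat : ∀ v, (sp v = false ∨ b v = true) → W (r v) = W v := by
    intro v hv
    show decide (w (r v) = 1) = decide (w v = 1)
    rw [hw1 v hv]
  have hmem : ∀ v, W v = true → W (s v) = false → v = a ∨ v = s a := by
    intro v h1 h2
    rw [hW] at h1
    rw [hW0] at h2
    have h3 := hw2 v
    rw [h1, h2] at h3
    by_contra h4
    push Not at h4
    rw [if_neg h4.1.symm, if_neg (fun h => h4.2 (by rw [h, hs]))] at h3
    exact absurd h3 (by decide)
  have hle : dl s W ≤ 1 := by
    unfold dl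
    rw [card_le_one]
    intro v hv u hu
    rw [mem_filter] at hv hu
    rcases hmem v hv.2.1 hv.2.2 with h1 | h1 <;> rcases hmem u hu.2.1 hu.2.2 with h2 | h2
    · rw [h1, h2]
    · have h3 := hv.2.2
      rw [h1, ← h2, hu.2.1] at h3
      exact absurd h3 (by decide)
    · have h3 := hu.2.2
      rw [h2, ← h1, hv.2.1] at h3
      exact absurd h3 (by decide)
    · rw [h1, h2]
  have hge : 1 ≤ dl s W := by
    unfold dl
    rw [Nat.one_le_iff_ne_zero, card_ne_zero]
    have h3 := hw2 a
    rw [if_pos rfl, if_neg (fun h => hs0 h.symm), add_zero] at h3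
    rcases zmod2 (w a) with h1 | h1
    · rw [h1, zero_add] at h3
      refine ⟨s a, ?_⟩
      rw [mem_filter, hs]
      exact ⟨mem_univ _, (hW _).2 h3, (hW0 _).2 h1⟩
    · rw [h1] at h3
      refine ⟨a, ?_⟩
      rw [mem_filter]
      exact ⟨mem_univ _, (hW _).2 h1, (hW0 _).2 (by simpa using h3)⟩
  exact hb W (hg W hsat hle) (le_antisymm hle hge)

theorem exists_particular2 (hs : ∀ v, s (s v) = v)
    (hr : ∀ v, r (r (r v)) = v ∨ (r (r (r (r v))) = v ∧ r (r v) ≠ v))
    (hr1 : ∀ v, r v ≠ v)
    {sp b : V → Bool} (hsp : ∀ v, sp (r v) = sp v) (hsp1 : ∀ v, sp v = true → r (r (r v)) ≠ v)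
    (hbq : ∀ v, sp v = true → b (r v) = !b v)
    (hg : ∀ w : V → Bool, (∀ v, (sp v = false ∨ b v = true) → w (r v) = w v) → dl s w ≤ 1 →
        ∀ v, w (r v) = w v) :
    ∃ x : V → ZMod 2, Sol s r sp b x := by
  by_contra hcon
  unfold Sol at hcon
  push Not at hcon
  let L : V ⊕ V → ((V → ZMod 2) × ZMod 2) →ₗ[ZMod 2] ZMod 2 :=
    Sum.elim (fun v => (al2 s v).comp (LinearMap.fst _ _ _))
      (fun v => (ka2 r sp b v).comp (LinearMap.fst _ _ _) - (ta2 sp b v) • LinearMap.snd _ _ _)
  have h1 : (LinearMap.snd (ZMod 2) (V → ZMod 2) (ZMod 2)) ∈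
      Submodule.span (ZMod 2) (Set.range L) := by
    refine mem_span_of_iInf_ker_le_ker fun y hy => ?_
    rw [Submodule.mem_iInf] at hy
    rw [LinearMap.mem_ker]
    by_contra h2
    have h3 : y.2 = 1 := (zmod2 y.2).resolve_left h2
    obtain ⟨v, hv⟩ := hcon y.1 (fun v => hy (Sum.inl v))
    apply hv
    have h4 : ka2 r sp b v y.1 - ta2 sp b v * y.2 = 0 := hy (Sum.inr v)
    rw [h3, mul_one] at h4
    exact sub_eq_zero.1 h4
  rw [Submodule.mem_span_range_iff_exists_fun] at h1
  obtain ⟨c, hc⟩ := h1
  have h3 : ∀ u, ∑ v, c (Sum.inl v) * al2 s v (Pi.single u 1) +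
      ∑ v, c (Sum.inr v) * ka2 r sp b v (Pi.single u 1) = 0 := by
    intro u
    have h4 := congrArg (fun f => f ((Pi.single u 1 : V → ZMod 2), (0 : ZMod 2))) hc
    simp only [Fintype.sum_sum_type, LinearMap.add_apply, LinearMap.sum_apply,
      LinearMap.smul_apply, smul_eq_mul, L, Sum.elim_inl, Sum.elim_inr, LinearMap.comp_apply,
      LinearMap.fst_apply, LinearMap.sub_apply, LinearMap.snd_apply, mul_zero, sub_zero] at h4
    exact h4
  have h5 : ∑ v, c (Sum.inr v) * ta2 sp b v = 1 := by
    have h4 := congrArg (fun f => f ((0 : V → ZMod 2), (1 : ZMod 2))) hc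
    simp only [Fintype.sum_sum_type, LinearMap.add_apply, LinearMap.sum_apply,
      LinearMap.smul_apply, smul_eq_mul, L, Sum.elim_inl, Sum.elim_inr, LinearMap.comp_apply,
      LinearMap.fst_apply, LinearMap.sub_apply, LinearMap.snd_apply, map_zero, mul_zero,
      sum_const_zero, zero_add, mul_one, zero_sub] at h4
    rw [← h4]
    refine sum_congr rfl fun v _ => ?_
    have : ∀ p : ZMod 2, -p = p := by decide
    rw [this]
  obtain ⟨w, hw0, hw1, hw2⟩ := dual_cut2 hs hr hr1 hsp hbq c _ h3
  let W : V → Bool := fun v => decide (w v = 1)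
  have hdl : dl s W ≤ 1 := by
    have : dl s W = 0 := by
      unfold dl
      rw [card_eq_zero, filter_eq_empty_iff]
      rintro v - ⟨h6, h7⟩
      have h6 : w v = 1 := by simpa [W] using h6
      have h7 : ¬ w (s v) = 1 := by simpa [W] using h7
      have h8 := hw2 v
      rw [h6, (zmod2 (w (s v))).resolve_right h7] at h8
      exact absurd h8 (by decide)
    omega
  have hWr := hg W (fun v hv => by
    show decide (w (r v) = 1) = decide (w v = 1)
    rw [hw1 v hv]) hdl
  have hwr : ∀ v, w (r v) = w v := by
    intro v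
    have h6 : decide (w (r v) = 1) = decide (w v = 1) := hWr v
    rcases zmod2 (w (r v)) with h7 | h7 <;> rcases zmod2 (w v) with h8 | h8
    · rw [h7, h8]
    · rw [h7, h8] at h6; exact absurd h6 (by decide)
    · rw [h7, h8] at h6; exact absurd h6 (by decide)
    · rw [h7, h8]
  have hcw : ∀ v, c (Sum.inr v) * ta2 sp b v = w v * ta2 sp b v := by
    intro v
    unfold ta2
    split_ifs with h6 h7
    · rw [mul_one, mul_one, hw0 v, sum_eq_single v]
      · have : ka2 r sp b v (Pi.single v 1) = 1 := by
          unfold ka2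
          rw [if_pos h6, if_pos h7, LinearMap.add_apply, pr_single, pr_single, if_pos rfl,
            if_neg (hr1 v), add_zero]
        rw [this, mul_one]
      · intro u _ huv
        have : ka2 r sp b u (Pi.single v 1) = 0 := by
          unfold ka2
          split_ifs with h8 h9 h10
          · rw [LinearMap.add_apply, pr_single, pr_single, if_neg huv, if_neg]
            · rfl
            · rintro rfl
              have h10 := hbq u h8
              rw [h7, h9] at h10
              exact absurd h10 (by decide)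
          · rfl
          · rw [LinearMap.add_apply, LinearMap.add_apply, pr_single, pr_single, pr_single,
              if_neg huv, if_neg, if_neg]
            · rfl
            · rintro rfl
              rw [hsp, hsp] at h6
              exact h8 h6
            · rintro rfl
              rw [hsp] at h6
              exact h8 h6
          · rw [LinearMap.add_apply, LinearMap.add_apply, LinearMap.add_apply, pr_single,
              pr_single, pr_single, pr_single, if_neg huv, if_neg, if_neg, if_neg]
            · rfl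
            · rintro rfl
              rw [hsp, hsp, hsp] at h6
              exact h8 h6
            · rintro rfl
              rw [hsp, hsp] at h6
              exact h8 h6
            · rintro rfl
              rw [hsp] at h6
              exact h8 h6
        rw [this, mul_zero]
      · intro h; exact absurd (mem_univ v) h
    · rw [mul_zero, mul_zero]
    · rw [mul_zero, mul_zero]
  have h6 : ∑ v, w v * ta2 sp b v = 0 := by
    refine sum_involution (fun v _ => if sp v = true then r (r v) else v) ?_ ?_ ?_ ?_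
    · intro v _
      have h4 : ∀ p : ZMod 2, p + p = 0 := by decide
      split_ifs with h7
      · rw [hwr, hwr]
        have h8 : ta2 sp b (r (r v)) = ta2 sp b v := by
          unfold ta2
          rw [hsp, hsp, hbq (r v) (by rw [hsp]; exact h7), hbq v h7, Bool.not_not]
        rw [h8]
        exact h4 _
      · exact h4 _
    · intro v _ hne
      have h7 : sp v = true := by
        by_contra h7
        apply hne
        unfold ta2
        rw [if_neg h7, mul_zero]
      rw [if_pos h7]
      exact ((hr v).resolve_left (hsp1 v h7)).2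
    · intro v _
      exact mem_univ _
    · intro v _
      by_cases h7 : sp v = true
      · have h9 : sp (r (r v)) = true := by rw [hsp, hsp]; exact h7
        simp only [if_pos h7, if_pos h9]
        exact ((hr v).resolve_left (hsp1 v h7)).1
      · simp only [if_neg h7]
  rw [sum_congr rfl fun v _ => hcw v, h6] at h5
  exact absurd h5 (by decide)

end

end H98.CF
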