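import Pool.Agent.H98.CF.Base

/-!
# The bridgeless pieces
-/

set_option autoImplicit false

namespace H98.CF

open Finset

variable {V : Type*} [Fintype V] [DecidableEq V]

/-- number of live vertices -/
def n3 (s : V → V) : ℕ := (univ.filter (fun v => s v ≠ v)).card

/-- number of live vertices in `f` -/
def wt (s : V → V) (f : V → Bool) : ℕ := (univ.filter (fun v => f v = true ∧ s v ≠ v)).card

/-- the 4-cycles that are split -/
def spF (s r : V → V) (v : V) : Bool :=
  decide (r (r (r v)) ≠ v ∧ s v ≠ v ∧ s (r v) ≠ r v ∧ s (r (r v)) ≠ r (r v) ∧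
    s (r (r (r v))) ≠ r (r (r v)))

/-- the natural choice -/
def chN (s r : V → V) (P c : V → Bool) (v : V) : Bool :=
  if spF s r v = true then c v else if s v ≠ v then false else
    if s (r (r v)) = r (r v) then P v else true

/-- the value as a Bool -/
def bX (x : V → ZMod 2) (v : V) : Bool := decide (x v = 1)

omit [Fintype V] [DecidableEq V] in
theorem bX_false {x : V → ZMod 2} {v : V} : bX x v = false ↔ x v = 0 := by
  unfold bX
  rcases zmod2 (x v) with h | h <;> rw [h] <;> decide

omit [Fintype V] [DecidableEq V] in
theorem bX_true {x : V → ZMod 2} {v : V} : bX x v = true ↔ x v = 1 := by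
  unfold bX
  rcases zmod2 (x v) with h | h <;> rw [h] <;> decide

theorem pat_a : ∀ p t : ZMod 2, pat4 (decide (p = 1)) (decide (p + 1 = 1)) (decide (t = 1))
    (decide (t + 1 = 1)) = true := by decide

theorem pat_b : ∀ q u : ZMod 2, pat4 (decide (u + 1 = 1)) (decide (q = 1)) (decide (q + 1 = 1))
    (decide (u = 1)) = true := by decide

theorem pat_c : ∀ p q t u : ZMod 2, p + q + t + u = 0 → (p = 0 ∨ q = 0 ∨ t = 0 ∨ u = 0) →
    pat4 (decide (p = 1)) (decide (q = 1)) (decide (t = 1)) (decide (u = 1)) = true := by decide

section piece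

variable {s r ri : V → V}

theorem spF_r (hr : ∀ v, r (r (r v)) = v ∨ (r (r (r (r v))) = v ∧ r (r v) ≠ v))
    (hr1 : ∀ v, r v ≠ v) (v : V) : spF s r (r v) = spF s r v := by
  have hinj := inj_of_orbits hr hr1
  unfold spF
  by_cases hT : r (r (r v)) = v
  · rw [decide_eq_false, decide_eq_false]
    · rintro ⟨h, -⟩; exact h hT
    · rintro ⟨h, -⟩; exact h (by rw [hT])
  · have hq4 := ((hr v).resolve_left hT).1
    have hv1 : r (r (r (r v))) ≠ r v := fun h => hT (hinj h)
    rw [decide_eq_decide, hq4]
    constructor
    · rintro ⟨-, h2, h3, h4, h5⟩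
      exact ⟨hT, h5, h2, h3, h4⟩
    · rintro ⟨-, h2, h3, h4, h5⟩
      exact ⟨(hr1 v).symm, h3, h4, h5, h2⟩

omit [Fintype V] in
theorem spF_true {v : V} (h : spF s r v = true) : r (r (r v)) ≠ v ∧ s v ≠ v := by
  unfold spF at h
  rw [decide_eq_true_eq] at h
  exact ⟨h.1, h.2.1⟩

omit [Fintype V] in
theorem tri_sp {v : V} (hT : r (r (r v)) = v) : spF s r v = false := by
  unfold spF
  rw [decide_eq_false]
  rintro ⟨h, -⟩
  exact h hT

theorem pat_of (hr : ∀ v, r (r (r v)) = v ∨ (r (r (r (r v))) = v ∧ r (r v) ≠ v))
    (hr1 : ∀ v, r v ≠ v) {b : V → Bool}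
    (hbq : ∀ v, spF s r v = true → b (r v) = !b v) {x : V → ZMod 2}
    (hx : Sol s r (spF s r) b x) (v : V) (hT : r (r (r v)) ≠ v) :
    pat4 (bX x v) (bX x (r v)) (bX x (r (r v))) (bX x (r (r (r v)))) = true := by
  have hspr : ∀ u, spF s r (r u) = spF s r u := spF_r hr hr1
  have hq4 := ((hr v).resolve_left hT).1
  unfold bX
  cases hsp : spF s r v with
  | true =>
    have s1 : spF s r (r v) = true := by rw [hspr, hsp]
    have s2 : spF s r (r (r v)) = true := by rw [hspr, s1]
    have s3 : spF s r (r (r (r v))) = true := by rw [hspr, s2]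
    have b1 := hbq v hsp
    have b2 := hbq (r v) s1
    have b3 := hbq (r (r v)) s2
    cases hbv : b v with
    | true =>
      rw [hbv] at b1
      rw [b1] at b2
      rw [hx.pair hsp hbv, hx.pair s2 b2]
      exact pat_a _ _
    | false =>
      rw [hbv] at b1
      rw [b1] at b2
      rw [b2] at b3
      have e1 := hx.pair s3 b3
      rw [hq4] at e1
      rw [e1, hx.pair s1 b1]
      exact pat_b _ _
  | false =>
    refine pat_c _ _ _ _ (hx.quad hsp hT) ?_
    by_contra hcon
    push Not at hcon
    have : spF s r v = true := by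
      unfold spF
      rw [decide_eq_true_eq]
      exact ⟨hT, fun h => hcon.1 (hx.dead h), fun h => hcon.2.1 (hx.dead h),
        fun h => hcon.2.2.1 (hx.dead h), fun h => hcon.2.2.2 (hx.dead h)⟩
    rw [hsp] at this
    exact absurd this (by decide)

omit [Fintype V] in
theorem tri_of {b : V → Bool} {x : V → ZMod 2}
    (hx : Sol s r (spF s r) b x) (v : V) (hT : r (r (r v)) = v) :
    (bX x v ^^ (bX x (r v) ^^ bX x (r (r v)))) = false := by
  have h : ∀ p q t : ZMod 2, p + q + t = 0 →
    (decide (p = 1) ^^ (decide (q = 1) ^^ decide (t = 1))) = false := by decide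
  exact h _ _ _ (hx.tri (tri_sp hT) hT)

/-- colours for the picks -/
theorem exists_c (hs : ∀ v, s (s v) = v)
    (hr : ∀ v, r (r (r v)) = v ∨ (r (r (r (r v))) = v ∧ r (r v) ≠ v))
    (hr1 : ∀ v, r v ≠ v) {b : V → Bool}
    (hbq : ∀ v, spF s r v = true → b (r v) = !b v) {x : V → ZMod 2}
    (hx : Sol s r (spF s r) b x) :
    ∃ c : V → Bool, (∀ v, s v ≠ v → c (s v) = !c v) ∧
      ∀ v, spF s r v = true → bX x v = false → bX x (r v) = true → bX x (r (r (r v))) = true →
        c (r (r v)) = !c v := by
  classical
  have hspr : ∀ u, spF s r (r u) = spF s r u := spF_r hr hr1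
  let O : V → Prop := fun v => spF s r v = true ∧ bX x v = false ∧ bX x (r v) = true ∧
    bX x (r (r (r v))) = true
  have hO : ∀ v, O v → O (r (r v)) := by
    rintro v ⟨h1, h2, h3, h4⟩
    have hT := (spF_true h1).1
    have hq4 := ((hr v).resolve_left hT).1
    have h5 := pat_of hr hr1 hbq hx v hT
    refine ⟨by rw [hspr, hspr]; exact h1, (pat4_sel _ _ _ _ h5 h3 h4).2, h4, ?_⟩
    rw [hq4]; exact h3
  have hO4 : ∀ v, O v → r (r (r (r v))) = v := fun v h =>
    ((hr v).resolve_left (spF_true h.1).1).1
  obtain ⟨c', hc1, hc2⟩ := two_colour (V := V × Bool)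
    (fun p => if s p.1 = p.1 then (p.1, !p.2) else (s p.1, p.2))
    (fun p => if O p.1 then (r (r p.1), p.2) else (p.1, !p.2))
    (fun p => by
      by_cases hp : s p.1 = p.1
      · simp only [if_pos hp, Bool.not_not]
      · have hp' : ¬ p.1 = s p.1 := fun h => hp h.symm
        simp only [if_neg hp, hs, if_neg hp'])
    (fun p => by
      by_cases hp : O p.1
      · simp only [if_pos hp, if_pos (hO _ hp), hO4 _ hp]
      · simp only [if_neg hp, Bool.not_not])
    (fun p h => by
      by_cases hp : s p.1 = p.1
      · simp only [if_pos hp] at h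
        have := congrArg Prod.snd h
        revert this
        show (!p.2) = p.2 → False
        cases p.2 <;> decide
      · simp only [if_neg hp] at h
        exact hp (congrArg Prod.fst h))
    (fun p h => by
      by_cases hp : O p.1
      · simp only [if_pos hp] at h
        exact ((hr p.1).resolve_left (spF_true hp.1).1).2 (congrArg Prod.fst h)
      · simp only [if_neg hp] at h
        have := congrArg Prod.snd h
        revert this
        show (!p.2) = p.2 → False
        cases p.2 <;> decide)
  refine ⟨fun v => c' (v, false), fun v hv => ?_, fun v h1 h2 h3 h4 => ?_⟩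
  · have := hc1 (v, false)
    simp only [if_neg hv] at this
    exact this
  · have := hc2 (v, false)
    simp only [if_pos (show O v from ⟨h1, h2, h3, h4⟩)] at this
    exact this

/-- the natural selection -/
theorem natural (hs : ∀ v, s (s v) = v)
    (hr : ∀ v, r (r (r v)) = v ∨ (r (r (r (r v))) = v ∧ r (r v) ≠ v))
    (hr1 : ∀ v, r v ≠ v) (hri : ∀ v, r (ri v) = v) {b : V → Bool}
    (hbq : ∀ v, spF s r v = true → b (r v) = !b v) {x : V → ZMod 2}
    (hx : Sol s r (spF s r) b x) (P c : V → Bool)
    (hP : ∀ v, r (r (r v)) ≠ v → P (r (r v)) = !P v)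
    (hc1 : ∀ v, s v ≠ v → c (s v) = !c v)
    (hc2 : ∀ v, spF s r v = true → bX x v = false → bX x (r v) = true →
      bX x (r (r (r v))) = true → c (r (r v)) = !c v) :
    VS s r ri (fun v => bX x v || mid r (bX x) (chN s r P c) v) := by
  have hspr : ∀ u, spF s r (r u) = spF s r u := spF_r hr hr1
  refine valid_of hri hr hr1 _ _ ?_ ?_ (fun v hv => tri_of hx v hv)
    (fun v hv => pat_of hr hr1 hbq hx v hv) ?_ ?_
  · intro v
    unfold bX
    rw [hx.s_eq]
  · intro v hv
    rw [bX_false]
    exact hx.dead hv
  · intro v hT k0 k1 k3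
    have hq4 := ((hr v).resolve_left hT).1
    have hv1 : r (r (r (r v))) ≠ r v := by rw [hq4]; exact (hr1 v).symm
    have hv2 : r (r (r (r (r v)))) ≠ r (r v) := by rw [hq4]; exact (hr1 (r v)).symm
    cases hsp : spF s r v with
    | true =>
      have h2 : spF s r (r (r v)) = true := by rw [hspr, hspr, hsp]
      unfold chN
      rw [if_pos hsp, if_pos h2]
      exact hc2 v hsp k0 k1 k3
    | false =>
      have h2 : spF s r (r (r v)) = false := by rw [hspr, hspr, hsp]
      have l1 : s (r v) ≠ r v := fun h => by
        rw [bX_true, hx.dead h] at k1; exact absurd k1 (by decide)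
      have l3 : s (r (r (r v))) ≠ r (r (r v)) := fun h => by
        rw [bX_true, hx.dead h] at k3; exact absurd k3 (by decide)
      have hn : ¬ spF s r v = true := by rw [hsp]; decide
      have hn2 : ¬ spF s r (r (r v)) = true := by rw [h2]; decide
      unfold chN
      rw [if_neg hn, if_neg hn2, hq4]
      by_cases d0 : s v = v <;> by_cases d2 : s (r (r v)) = r (r v)
      · simp only [ne_eq, d0, d2, not_true_eq_false, if_false, if_true]
        exact hP v hT
      · simp [d0, d2]
      · simp [d0, d2]
      · exfalso
        have : spF s r v = true := by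
          unfold spF
          rw [decide_eq_true_eq]
          exact ⟨hT, d0, l1, d2, l3⟩
        rw [hsp] at this
        exact absurd this (by decide)
  · intro v hm hl
    have hl' : s (s v) ≠ s v := by rw [hs]; exact hl.symm
    have hch : chN s r P c v = true := by
      unfold mid at hm
      rw [Bool.and_eq_true, Bool.and_eq_true, Bool.and_eq_true, Bool.and_eq_true] at hm
      exact hm.2.2.2.1
    have hch' : chN s r P c (s v) = false := by
      unfold chN at hch ⊢
      cases hsp : spF s r v with
      | false =>
        rw [if_neg (by rw [hsp]; decide), if_pos hl] at hch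
        exact absurd hch (by decide)
      | true =>
        rw [if_pos hsp] at hch
        split_ifs with h1
        · rw [hc1 v hl, hch]; rfl
        · rfl
    unfold mid
    rw [hch']
    simp

/-- the selection that avoids a dead vertex opposite to a live one -/
theorem special (hs : ∀ v, s (s v) = v)
    (hr : ∀ v, r (r (r v)) = v ∨ (r (r (r (r v))) = v ∧ r (r v) ≠ v))
    (hr1 : ∀ v, r v ≠ v) (hri : ∀ v, r (ri v) = v) {b : V → Bool}
    (hbq : ∀ v, spF s r v = true → b (r v) = !b v) {x : V → ZMod 2}
    (hx : Sol s r (spF s r) b x) (P c : V → Bool)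
    (hP : ∀ v, r (r (r v)) ≠ v → P (r (r v)) = !P v)
    (hc1 : ∀ v, s v ≠ v → c (s v) = !c v)
    (hc2 : ∀ v, spF s r v = true → bX x v = false → bX x (r v) = true →
      bX x (r (r (r v))) = true → c (r (r v)) = !c v)
    (d0 : V) (hT0 : r (r (r d0)) ≠ d0) (hc0 : c (r (r d0)) = true) :
    VS s r ri (fun v => bX x v || mid r (bX x) (fun v => if v = d0 then false else
      if v = r (r d0) then true else chN s r P c v) v) := by
  have hspr : ∀ u, spF s r (r u) = spF s r u := spF_r hr hr1
  have hinj := inj_of_orbits hr hr1
  have h4 := (hr d0).resolve_left hT0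
  refine valid_of hri hr hr1 _ _ ?_ ?_ (fun v hv => tri_of hx v hv)
    (fun v hv => pat_of hr hr1 hbq hx v hv) ?_ ?_
  · intro v
    unfold bX
    rw [hx.s_eq]
  · intro v hv
    rw [bX_false]
    exact hx.dead hv
  · intro v hT k0 k1 k3
    have hq4 := ((hr v).resolve_left hT).1
    show (if r (r v) = d0 then false else if r (r v) = r (r d0) then true else
      chN s r P c (r (r v))) = !(if v = d0 then false else if v = r (r d0) then true else
      chN s r P c v)
    by_cases e1 : v = d0
    · rw [e1, if_neg h4.2, if_pos rfl, if_pos rfl]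
      rfl
    · by_cases e2 : v = r (r d0)
      · rw [if_neg e1, if_pos e2, e2, if_pos h4.1]
        rfl
      · have e3 : ¬ r (r v) = d0 := fun h => e2 (by rw [← h, hq4])
        have e4 : ¬ r (r v) = r (r d0) := fun h => e1 (hinj (hinj h))
        rw [if_neg e1, if_neg e2, if_neg e3, if_neg e4]
        cases hsp : spF s r v with
        | true =>
          have h2 : spF s r (r (r v)) = true := by rw [hspr, hspr, hsp]
          unfold chN
          rw [if_pos hsp, if_pos h2]
          exact hc2 v hsp k0 k1 k3
        | false =>
          have h2 : spF s r (r (r v)) = false := by rw [hspr, hspr, hsp]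
          have l1 : s (r v) ≠ r v := fun h => by
            rw [bX_true, hx.dead h] at k1; exact absurd k1 (by decide)
          have l3 : s (r (r (r v))) ≠ r (r (r v)) := fun h => by
            rw [bX_true, hx.dead h] at k3; exact absurd k3 (by decide)
          have hn : ¬ spF s r v = true := by rw [hsp]; decide
          have hn2 : ¬ spF s r (r (r v)) = true := by rw [h2]; decide
          unfold chN
          rw [if_neg hn, if_neg hn2, hq4]
          by_cases d0 : s v = v <;> by_cases d2 : s (r (r v)) = r (r v)
          · simp only [ne_eq, d0, d2, not_true_eq_false, if_false, if_true]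
            exact hP v hT
          · simp [d0, d2]
          · simp [d0, d2]
          · exfalso
            have : spF s r v = true := by
              unfold spF
              rw [decide_eq_true_eq]
              exact ⟨hT, d0, l1, d2, l3⟩
            rw [hsp] at this
            exact absurd this (by decide)
  · intro v hm hl
    have hl' : s (s v) ≠ s v := by rw [hs]; exact hl.symm
    have hch : (if v = d0 then false else if v = r (r d0) then true else
        chN s r P c v) = true := by
      unfold mid at hm
      rw [Bool.and_eq_true, Bool.and_eq_true, Bool.and_eq_true, Bool.and_eq_true] at hm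
      exact hm.2.2.2.1
    have hcv : c v = true := by
      by_cases e1 : v = d0
      · rw [if_pos e1] at hch
        exact absurd hch (by decide)
      · by_cases e2 : v = r (r d0)
        · rw [e2]; exact hc0
        · rw [if_neg e1, if_neg e2] at hch
          unfold chN at hch
          cases hsp : spF s r v with
          | false =>
            rw [if_neg (by rw [hsp]; decide), if_pos hl] at hch
            exact absurd hch (by decide)
          | true =>
            rwa [if_pos hsp] at hch
    have hcs : c (s v) = false := by rw [hc1 v hl, hcv]; rfl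
    have e3 : ¬ s v = r (r d0) := fun h => by
      rw [h, hc0] at hcs; exact absurd hcs (by decide)
    have hch' : (if s v = d0 then false else if s v = r (r d0) then true else
        chN s r P c (s v)) = false := by
      by_cases e1 : s v = d0
      · rw [if_pos e1]
      · rw [if_neg e1, if_neg e3]
        unfold chN
        split_ifs with h1
        · exact hcs
        · rfl
    unfold mid
    simp only [hch']
    simp

end piece

end H98.CF
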