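import Pool.Agent.H98.CF.Piece

/-!
# The bridgeless pieces: the three statements
-/

set_option autoImplicit false

namespace H98.CF

open Finset

variable {V : Type*} [Fintype V] [DecidableEq V] {s r ri : V → V}

theorem zsum3 : ∀ p q t u : ZMod 2, p + q + t + u = 0 → p = 0 → t = 0 → q = u := by decide

theorem zsum4 : ∀ p q t u : ZMod 2, p + q + t + u = 0 → p = 0 → (t = 1 ↔ (q = 1 ∧ ¬ u = 1) ∨
    (¬ q = 1 ∧ u = 1)) := by decide

theorem wt_ge {b : V → Bool} {x : V → ZMod 2} (hx : Sol s r (spF s r) b x) (f : V → Bool)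
    (hf : ∀ v, bX x v = true → f v = true) :
    (univ.filter (fun v => x v = 1)).card ≤ wt s f := by
  unfold wt
  refine card_le_card fun v hv => ?_
  rw [mem_filter] at hv ⊢
  refine ⟨mem_univ _, hf v (bX_true.2 hv.2), fun h => ?_⟩
  rw [hx.dead h] at hv
  exact absurd hv.2 (by decide)

theorem exists_P (hr : ∀ v, r (r (r v)) = v ∨ (r (r (r (r v))) = v ∧ r (r v) ≠ v)) (d0 : V)
    (i : Bool) : ∃ P : V → Bool, (∀ v, r (r (r v)) ≠ v → P (r (r v)) = !P v) ∧ P d0 = i := by
  let e := Fintype.equivFin V
  let P : V → Bool := fun v => decide (e v < e (r (r v)))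
  have hP : ∀ v, r (r (r v)) ≠ v → P (r (r v)) = !P v := by
    intro v hv
    obtain ⟨h4, h2⟩ := (hr v).resolve_left hv
    show decide (e (r (r v)) < e (r (r (r (r v))))) = !decide (e v < e (r (r v)))
    rw [h4]
    rcases lt_trichotomy (e v) (e (r (r v))) with h | h | h
    · rw [decide_eq_true h, decide_eq_false (not_lt.2 h.le)]; rfl
    · exact absurd (e.injective h).symm h2
    · rw [decide_eq_true h, decide_eq_false (not_lt.2 h.le)]; rfl
  by_cases h : P d0 = i
  · exact ⟨P, hP, h⟩
  · refine ⟨fun v => !P v, fun v hv => ?_, ?_⟩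
    · show (!P (r (r v))) = !!P v
      rw [hP v hv]
    · show (!P d0) = i
      cases i <;> cases h' : P d0 <;> simp_all

theorem flip_c {x : V → ZMod 2} {c : V → Bool} (hc1 : ∀ v, s v ≠ v → c (s v) = !c v)
    (hc2 : ∀ v, spF s r v = true → bX x v = false → bX x (r v) = true →
      bX x (r (r (r v))) = true → c (r (r v)) = !c v) (a : V) :
    ∃ c : V → Bool, (∀ v, s v ≠ v → c (s v) = !c v) ∧ (∀ v, spF s r v = true →
      bX x v = false → bX x (r v) = true → bX x (r (r (r v))) = true → c (r (r v)) = !c v) ∧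
      c a = true := by
  by_cases h : c a = true
  · exact ⟨c, hc1, hc2, h⟩
  · refine ⟨fun v => !c v, fun v hv => ?_, fun v h1 h2 h3 h4 => ?_, ?_⟩
    · show (!c (s v)) = !!c v
      rw [hc1 v hv]
    · show (!c (r (r v))) = !!c v
      rw [hc2 v h1 h2 h3 h4]
    · show (!c a) = true
      simpa using h

theorem sel_two (hr : ∀ v, r (r (r v)) = v ∨ (r (r (r (r v))) = v ∧ r (r v) ≠ v))
    {b : V → Bool} (hne : (Sols s r (spF s r) b).Nonempty)
    (hnz : ∀ a, s a ≠ a → ∃ y, Hom2 s r (spF s r) b y ∧ y a = 1) (d0 : V) (hd0 : s d0 = d0)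
    (hT : r (r (r d0)) ≠ d0) (h1 : s (r d0) ≠ r d0) (h3 : s (r (r (r d0))) ≠ r (r (r d0))) :
    ∃ x ∈ Sols s r (spF s r) b, x (r d0) = 1 ∧ x (r (r (r d0))) = 1 := by
  have hsp : spF s r d0 = false := by
    unfold spF
    rw [decide_eq_false]
    rintro ⟨-, h, -⟩
    exact h hd0
  obtain ⟨y1, g1, k1⟩ := hnz _ h1
  obtain ⟨y3, g3, k3⟩ := hnz _ h3
  have c1 := half y1 g1 _ k1
  have c3 := half y3 g3 _ k3
  have hpos : 0 < (Sols s r (spF s r) b).card := card_pos.2 hne
  by_cases h2 : s (r (r d0)) = r (r d0)
  · have : 0 < ((Sols s r (spF s r) b).filter (fun x => x (r d0) = 1)).card := by omega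
    obtain ⟨x, hx⟩ := card_pos.1 this
    rw [mem_filter, mem_Sols] at hx
    refine ⟨x, mem_Sols.2 hx.1, hx.2, ?_⟩
    rw [← zsum3 _ _ _ _ (hx.1.quad hsp hT) (hx.1.dead hd0) (hx.1.dead h2)]
    exact hx.2
  · obtain ⟨y2, g2, k2⟩ := hnz _ h2
    have c2 := half y2 g2 _ k2
    by_contra hcon
    have hdis : (Sols s r (spF s r) b).filter (fun x => x (r (r d0)) = 1) =
        (Sols s r (spF s r) b).filter (fun x => x (r d0) = 1) ∪
        (Sols s r (spF s r) b).filter (fun x => x (r (r (r d0))) = 1) := by
      ext x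
      rw [mem_union, mem_filter, mem_filter, mem_filter]
      constructor
      · rintro ⟨hx, hx2⟩
        have hx' := mem_Sols.1 hx
        rcases (zsum4 _ _ _ _ (hx'.quad hsp hT) (hx'.dead hd0)).1 hx2 with h | h
        · exact Or.inl ⟨hx, h.1⟩
        · exact Or.inr ⟨hx, h.2⟩
      · rintro (⟨hx, hx2⟩ | ⟨hx, hx2⟩)
        · have hx' := mem_Sols.1 hx
          refine ⟨hx, (zsum4 _ _ _ _ (hx'.quad hsp hT) (hx'.dead hd0)).2 (Or.inl ⟨hx2, ?_⟩)⟩
          exact fun h => hcon ⟨x, hx, hx2, h⟩
        · have hx' := mem_Sols.1 hx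
          refine ⟨hx, (zsum4 _ _ _ _ (hx'.quad hsp hT) (hx'.dead hd0)).2 (Or.inr ⟨?_, hx2⟩)⟩
          exact fun h => hcon ⟨x, hx, h, hx2⟩
    have hdj : Disjoint ((Sols s r (spF s r) b).filter (fun x => x (r d0) = 1))
        ((Sols s r (spF s r) b).filter (fun x => x (r (r (r d0))) = 1)) := by
      rw [disjoint_left]
      intro x hx hx'
      rw [mem_filter] at hx hx'
      exact hcon ⟨x, hx.1, hx.2, hx'.2⟩
    rw [hdis, card_union_of_disjoint hdj] at c2
    omega

theorem sel_zero {b : V → Bool} (hne : (Sols s r (spF s r) b).Nonempty)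
    (hnz : ∀ a, s a ≠ a → ∃ y, Hom2 s r (spF s r) b y ∧ y a = 1) (a : V) :
    ∃ x ∈ Sols s r (spF s r) b, x a = 0 := by
  by_cases ha : s a = a
  · obtain ⟨x, hx⟩ := hne
    exact ⟨x, hx, (mem_Sols.1 hx).dead ha⟩
  · obtain ⟨y, g, k⟩ := hnz a ha
    have c := half y g _ k
    have hpos : 0 < (Sols s r (spF s r) b).card := card_pos.2 hne
    have h3 := card_filter_add_card_filter_not (s := Sols s r (spF s r) b) (fun x => x a = 1)
    have : 0 < ((Sols s r (spF s r) b).filter (fun x => ¬ x a = 1)).card := by omega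
    obtain ⟨x, hx⟩ := card_pos.1 this
    rw [mem_filter] at hx
    exact ⟨x, hx.1, (zmod2 (x a)).resolve_right hx.2⟩

/-- The full cycle at a dead vertex. -/
theorem full_sel (hs : ∀ v, s (s v) = v)
    (hr : ∀ v, r (r (r v)) = v ∨ (r (r (r (r v))) = v ∧ r (r v) ≠ v))
    (hr1 : ∀ v, r v ≠ v) (hri : ∀ v, r (ri v) = v) (hsr : ∀ v, s v ≠ r v)
    (hsri : ∀ v, s v ≠ ri v) {b : V → Bool} {x : V → ZMod 2}
    (hx : Sol s r (spF s r) b x) (P c : V → Bool)
    (hf : VS s r ri (fun v => bX x v || mid r (bX x) (chN s r P c) v))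
    (hop : ∀ v, spF s r v = true → bX x v = false → bX x (r v) = true →
      bX x (r (r (r v))) = true → False)
    (d0 : V) (hd0 : s d0 = d0) (hi : ¬ (r (r (r d0)) ≠ d0 ∧ s (r d0) ≠ r d0 ∧
      s (r (r (r d0))) ≠ r (r (r d0)))) (z1 : x (r d0) = 0) (z2 : x (r (r d0)) = 0)
    (z3 : x (r (r (r d0))) = 0) :
    VS s r ri (fun v => (bX x v || mid r (bX x) (chN s r P c) v) ||
      decide (v = d0 ∨ v = r d0 ∨ v = r (r d0) ∨ v = r (r (r d0)))) := by
  have hinj := inj_of_orbits hr hr1
  obtain ⟨o, ho⟩ : ∃ o : V → Bool, o = fun v =>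
    decide (v = d0 ∨ v = r d0 ∨ v = r (r d0) ∨ v = r (r (r d0))) := ⟨_, rfl⟩
  have hot : ∀ v, o v = true ↔ (v = d0 ∨ v = r d0 ∨ v = r (r d0) ∨ v = r (r (r d0))) := by
    intro v; rw [ho]; simp
  have hor1 : ∀ v, o v = true → o (r v) = true := by
    intro v hv
    rw [hot] at hv ⊢
    rcases hv with h | h | h | h
    · right; left; rw [h]
    · right; right; left; rw [h]
    · right; right; right; rw [h]
    · rw [h]
      rcases hr d0 with h5 | h5
      · right; left; rw [h5]
      · left; rw [h5.1]
  have hor2 : ∀ v, o (r v) = true → o v = true := by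
    intro v hv
    rw [hot] at hv ⊢
    rcases hv with h | h | h | h
    · rcases hr d0 with h5 | h5
      · right; right; left; exact hinj (by rw [h, h5])
      · right; right; right; exact hinj (by rw [h, h5.1])
    · left; exact hinj h
    · right; left; exact hinj h
    · right; right; left; exact hinj h
  have hor : ∀ v, o (r v) = o v := fun v => by
    rw [Bool.eq_iff_iff]; exact ⟨hor2 v, hor1 v⟩
  have hori : ∀ v, o (ri v) = o v := fun v => by
    rw [← hor (ri v), hri]
  have hox : ∀ v, o v = true → bX x v = false := by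
    intro v hv
    rw [bX_false]
    rcases (hot v).1 hv with h | h | h | h
    · rw [h]; exact hx.dead hd0
    · rw [h]; exact z1
    · rw [h]; exact z2
    · rw [h]; exact z3
  have hmid : ∀ v, s v ≠ v → mid r (bX x) (chN s r P c) v = false := by
    intro v hl
    by_contra h
    have hm : mid r (bX x) (chN s r P c) v = true := by simpa using h
    unfold mid at hm
    rw [Bool.and_eq_true, Bool.and_eq_true, Bool.and_eq_true, Bool.and_eq_true] at hm
    have h1 : chN s r P c v = true := hm.2.2.2.1
    unfold chN at h1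
    have h2 : bX x v = false := by
      have := hm.2.2.2.2
      revert this
      cases bX x v <;> decide
    cases hsp : spF s r v with
    | false =>
      rw [if_neg (by rw [hsp]; decide), if_pos hl] at h1
      exact absurd h1 (by decide)
    | true => exact hop v hsp h2 hm.2.1 hm.2.2.1
  have hos : ∀ v, o v = true → s v ≠ v → o (s v) = false := by
    intro v hv hl
    by_contra h
    have h1 : o (s v) = true := by simpa using h
    have hne : ∀ u, s u ≠ u → u ≠ d0 := fun u hu h => hu (by rw [h, hd0])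
    have hl' : s (s v) ≠ s v := by rw [hs]; exact hl.symm
    have k1 := hne v hl
    have k2 := hne (s v) hl'
    have n1 := hsr v
    have n2 := hsri v
    have n3 := hsr (s v)
    rw [hs] at n3
    rcases hr d0 with h5 | h5
    · -- a triangle
      rcases (hot v).1 hv with e | e | e | e
      · exact k1 e
      · rcases (hot _).1 h1 with e' | e' | e' | e'
        · exact k2 e'
        · exact hl (e'.trans e.symm)
        · exact n1 (by rw [e', e])
        · exact k2 (by rw [e', h5])
      · rcases (hot _).1 h1 with e' | e' | e' | e'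
        · exact k2 e'
        · exact n3 (by rw [e', e])
        · exact hl (e'.trans e.symm)
        · exact k2 (by rw [e', h5])
      · exact k1 (by rw [e, h5])
    · have hT : r (r (r d0)) ≠ d0 := fun h => by
        have := h5.1
        rw [h] at this
        exact hr1 d0 this
      rcases (hot v).1 hv with e | e | e | e
      · exact k1 e
      · rcases (hot _).1 h1 with e' | e' | e' | e'
        · exact k2 e'
        · exact hl (e'.trans e.symm)
        · exact n1 (by rw [e', e])
        · exact hi ⟨hT, by rw [← e]; exact hl, by rw [← e']; exact hl'⟩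
      · rcases (hot _).1 h1 with e' | e' | e' | e'
        · exact k2 e'
        · exact n3 (by rw [e', e])
        · exact hl (e'.trans e.symm)
        · exact n1 (by rw [e', e])
      · rcases (hot _).1 h1 with e' | e' | e' | e'
        · exact k2 e'
        · exact hi ⟨hT, by rw [← e']; exact hl', by rw [← e]; exact hl⟩
        · exact n3 (by rw [e', e])
        · exact hl (e'.trans e.symm)
  intro v hv
  have hv : ((bX x v || mid r (bX x) (chN s r P c) v) || decide (v = d0 ∨ v = r d0 ∨
    v = r (r d0) ∨ v = r (r (r d0)))) = true := hv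
  show ex2 ((bX x (r v) || mid r (bX x) (chN s r P c) (r v)) || decide (r v = d0 ∨ r v = r d0 ∨
    r v = r (r d0) ∨ r v = r (r (r d0)))) ((bX x (ri v) || mid r (bX x) (chN s r P c) (ri v)) ||
    decide (ri v = d0 ∨ ri v = r d0 ∨ ri v = r (r d0) ∨ ri v = r (r (r d0))))
    (decide (s v ≠ v) && ((bX x (s v) || mid r (bX x) (chN s r P c) (s v)) ||
    decide (s v = d0 ∨ s v = r d0 ∨ s v = r (r d0) ∨ s v = r (r (r d0))))) = true
  have eo : ∀ u, decide (u = d0 ∨ u = r d0 ∨ u = r (r d0) ∨ u = r (r (r d0))) = o u := fun u => by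
    rw [ho]
  rw [eo, eo, eo]
  rw [eo] at hv
  rw [hor, hori]
  cases hov : o v with
  | true =>
    rw [Bool.or_true, Bool.or_true]
    have : (decide (s v ≠ v) && ((bX x (s v) || mid r (bX x) (chN s r P c) (s v)) ||
        o (s v))) = false := by
      by_cases hl : s v = v
      · rw [decide_eq_false (by rw [hl]; simp), Bool.false_and]
      · have hl' : s (s v) ≠ s v := by rw [hs]; exact fun h => hl h.symm
        have e1 : bX x (s v) = false := by
          rw [bX_false, hx.s_eq, ← bX_false]
          exact hox v hov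
        rw [e1, hmid _ hl', hos v hov hl, Bool.or_false, Bool.or_false, Bool.and_false]
    rw [this]
    rfl
  | false =>
    rw [hov, Bool.or_false] at hv
    rw [Bool.or_false, Bool.or_false]
    have h6 := hf v hv
    have : (decide (s v ≠ v) && ((bX x (s v) || mid r (bX x) (chN s r P c) (s v)) ||
        o (s v))) = (decide (s v ≠ v) && (bX x (s v) || mid r (bX x) (chN s r P c) (s v))) := by
      by_cases hl : s v = v
      · rw [decide_eq_false (by rw [hl]; simp), Bool.false_and, Bool.false_and]
      · have hl' : s (s v) ≠ s v := by rw [hs]; exact fun h => hl h.symm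
        have e1 : o (s v) = false := by
          by_contra h
          have h7 : o (s v) = true := by simpa using h
          have h8 := hox _ h7
          have h9 := hmid v hl
          have h10 : bX x v = false := by
            rw [bX_false] at h8 ⊢
            rw [hx.s_eq] at h8
            exact h8
          rw [h9, h10] at hv
          exact absurd hv (by decide)
        rw [e1, Bool.or_false]
    rw [this]
    exact h6

end H98.CF
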