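import Pool.Agent.H98.CF.Piece2

/-!
# The bridgeless pieces: the three statements
-/

set_option autoImplicit false

namespace H98.CF

open Finset

variable {V : Type*} [Fintype V] [DecidableEq V] {s r ri : V → V}

omit [Fintype V] in
theorem not_spF_dead {d0 : V} (hd0 : s d0 = d0) : ¬ spF s r d0 = true := by
  intro h
  exact (spF_true h).2 hd0

theorem base (hs : ∀ v, s (s v) = v)
    (hr : ∀ v, r (r (r v)) = v ∨ (r (r (r (r v))) = v ∧ r (r v) ≠ v))
    (hr1 : ∀ v, r v ≠ v) (hri : ∀ v, r (ri v) = v) (hsr : ∀ v, s v ≠ r v)
    (hsri : ∀ v, s v ≠ ri v) (hb : ∀ w : V → Bool, (∀ v, w (r v) = w v) → dl s w ≠ 1) :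
    (∃ f, VS s r ri f ∧ n3 s ≤ 2 * wt s f) ∧
    ∀ d0, s d0 = d0 → (∃ f, VS s r ri f ∧ f d0 = false ∧ n3 s ≤ 2 * wt s f) ∧
      (∃ f, VS s r ri f ∧ ((f d0 = true ∧ n3 s ≤ 2 * wt s f) ∨ n3 s < 2 * wt s f)) := by
  have hspr : ∀ u, spF s r (r u) = spF s r u := spF_r hr hr1
  obtain ⟨b, hbq, hg⟩ := split_all2 hs hr hr1 hb (spF s r) hspr (fun v h => (spF_true h).1)
    (fun v h => (spF_true h).2)
  have hnz : ∀ a, s a ≠ a → ∃ y, Hom2 s r (spF s r) b y ∧ y a = 1 := fun a ha =>
    exists_nonzero2 hs hr hr1 hb hspr hbq hg a ha
  obtain ⟨x0, hx0⟩ := exists_particular2 hs hr hr1 hspr (fun v h => (spF_true h).1) hbq hg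
  have hne : (Sols s r (spF s r) b).Nonempty := ⟨x0, mem_Sols.2 hx0⟩
  have havg := avg (s := s) (r := r) (sp := spF s r) (b := b) hnz
  obtain ⟨x1, hx1, hw1⟩ := exists_le_of_sum_le hne havg.ge
  rw [mem_Sols] at hx1
  have hw1 : n3 s ≤ 2 * (univ.filter (fun v => x1 v = 1)).card := hw1
  obtain ⟨c1, k1, k2⟩ := exists_c hs hr hr1 hbq hx1
  refine ⟨?_, fun d0 hd0 => ⟨?_, ?_⟩⟩
  · rcases isEmpty_or_nonempty V with hV | ⟨⟨v0⟩⟩
    · refine ⟨fun _ => false, fun v h => by simp at h, ?_⟩
      unfold n3
      rw [univ_eq_empty, filter_empty, card_empty]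
      exact Nat.zero_le _
    · obtain ⟨P, hP, -⟩ := exists_P hr v0 true
      refine ⟨_, natural hs hr hr1 hri hbq hx1 P c1 hP k1 k2, hw1.trans ?_⟩
      exact Nat.mul_le_mul_left 2 (wt_ge hx1 _ fun v hv => by
        show (bX x1 v || _) = true
        rw [hv, Bool.true_or])
  · -- avoiding `d0`
    have hX0 : bX x1 d0 = false := bX_false.2 (hx1.dead hd0)
    by_cases hT : r (r (r d0)) = d0
    · obtain ⟨P, hP, -⟩ := exists_P hr d0 true
      refine ⟨_, natural hs hr hr1 hri hbq hx1 P c1 hP k1 k2, ?_, hw1.trans ?_⟩
      · show (bX x1 d0 || mid r (bX x1) (chN s r P c1) d0) = false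
        unfold mid
        rw [hX0, decide_eq_false (by rw [hT]; simp), Bool.false_and, Bool.or_false]
      · exact Nat.mul_le_mul_left 2 (wt_ge hx1 _ fun v hv => by
          show (bX x1 v || _) = true
          rw [hv, Bool.true_or])
    · by_cases h2 : s (r (r d0)) = r (r d0)
      · obtain ⟨P, hP, hP0⟩ := exists_P hr d0 false
        refine ⟨_, natural hs hr hr1 hri hbq hx1 P c1 hP k1 k2, ?_, hw1.trans ?_⟩
        · show (bX x1 d0 || mid r (bX x1) (chN s r P c1) d0) = false
          have : chN s r P c1 d0 = false := by
            unfold chN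
            rw [if_neg (not_spF_dead hd0), if_neg (fun h => h hd0), if_pos h2]
            exact hP0
          unfold mid
          rw [hX0, this]
          simp
        · exact Nat.mul_le_mul_left 2 (wt_ge hx1 _ fun v hv => by
            show (bX x1 v || _) = true
            rw [hv, Bool.true_or])
      · obtain ⟨P, hP, -⟩ := exists_P hr d0 true
        obtain ⟨c, l1, l2, l3⟩ := flip_c k1 k2 (r (r d0))
        refine ⟨_, special hs hr hr1 hri hbq hx1 P c hP l1 l2 d0 hT l3, ?_, hw1.trans ?_⟩
        · show (bX x1 d0 || mid r (bX x1) (fun v => if v = d0 then false else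
            if v = r (r d0) then true else chN s r P c v) d0) = false
          unfold mid
          rw [hX0]
          simp
        · exact Nat.mul_le_mul_left 2 (wt_ge hx1 _ fun v hv => by
            show (bX x1 v || _) = true
            rw [hv, Bool.true_or])
  · -- using `d0`
    by_cases hbig : ∃ x ∈ Sols s r (spF s r) b, n3 s < 2 * (univ.filter (fun v => x v = 1)).card
    · obtain ⟨x, hx, hxw⟩ := hbig
      rw [mem_Sols] at hx
      obtain ⟨c, l1, l2⟩ := exists_c hs hr hr1 hbq hx
      obtain ⟨P, hP, -⟩ := exists_P hr d0 true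
      refine ⟨_, natural hs hr hr1 hri hbq hx P c hP l1 l2, Or.inr (hxw.trans_le ?_)⟩
      exact Nat.mul_le_mul_left 2 (wt_ge hx _ fun v hv => by
        show (bX x v || _) = true
        rw [hv, Bool.true_or])
    · have hle : ∀ x ∈ Sols s r (spF s r) b, 2 * (univ.filter (fun v => x v = 1)).card ≤
          (univ.filter (fun v => s v ≠ v)).card := by
        intro x hx
        by_contra h
        exact hbig ⟨x, hx, not_le.1 h⟩
      have heq := (sum_eq_sum_iff_of_le hle).1 havg
      by_cases hi : r (r (r d0)) ≠ d0 ∧ s (r d0) ≠ r d0 ∧ s (r (r (r d0))) ≠ r (r (r d0))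
      · obtain ⟨x, hx, hxa, hxc⟩ := sel_two hr hne hnz d0 hd0 hi.1 hi.2.1 hi.2.2
        have hw : n3 s = 2 * (univ.filter (fun v => x v = 1)).card := (heq x hx).symm
        rw [mem_Sols] at hx
        obtain ⟨c, l1, l2⟩ := exists_c hs hr hr1 hbq hx
        obtain ⟨P, hP, hP0⟩ := exists_P hr d0 true
        refine ⟨_, natural hs hr hr1 hri hbq hx P c hP l1 l2, Or.inl ⟨?_, hw.le.trans ?_⟩⟩
        · show (bX x d0 || mid r (bX x) (chN s r P c) d0) = true
          have : chN s r P c d0 = true := by
            unfold chN
            rw [if_neg (not_spF_dead hd0), if_neg (fun h => h hd0), hP0]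
            split_ifs <;> rfl
          unfold mid
          rw [bX_false.2 (hx.dead hd0), this, bX_true.2 hxa, bX_true.2 hxc, decide_eq_true hi.1]
          rfl
        · exact Nat.mul_le_mul_left 2 (wt_ge hx _ fun v hv => by
            show (bX x v || _) = true
            rw [hv, Bool.true_or])
      · -- the full cycle
        have hz : ∃ x ∈ Sols s r (spF s r) b, x (r d0) = 0 ∧ x (r (r d0)) = 0 ∧
            x (r (r (r d0))) = 0 := by
          have hsp : spF s r d0 = false := by
            have := not_spF_dead (r := r) hd0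
            simpa using this
          by_cases hT : r (r (r d0)) = d0
          · obtain ⟨x, hx, hx0⟩ := sel_zero hne hnz (r d0)
            have hx' := mem_Sols.1 hx
            have hd := hx'.dead hd0
            have h3 := hx'.tri hsp hT
            rw [hd, hx0, zero_add, zero_add] at h3
            exact ⟨x, hx, hx0, h3, by rw [hT]; exact hd⟩
          · obtain ⟨x, hx, hx0⟩ := sel_zero hne hnz (r (r d0))
            have hx' := mem_Sols.1 hx
            have hd := hx'.dead hd0
            have h3 := hx'.quad hsp hT
            rw [hd, hx0, zero_add, add_zero] at h3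
            have h4 : s (r d0) = r d0 ∨ s (r (r (r d0))) = r (r (r d0)) := by
              by_contra h5
              push Not at h5
              exact hi ⟨hT, h5.1, h5.2⟩
            rcases h4 with h5 | h5
            · have h6 := hx'.dead h5
              rw [h6, zero_add] at h3
              exact ⟨x, hx, h6, hx0, h3⟩
            · have h6 := hx'.dead h5
              rw [h6, add_zero] at h3
              exact ⟨x, hx, h3, hx0, h6⟩
        obtain ⟨x, hx, z1, z2, z3⟩ := hz
        have hw : n3 s = 2 * (univ.filter (fun v => x v = 1)).card := (heq x hx).symm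
        rw [mem_Sols] at hx
        obtain ⟨c, l1, l2⟩ := exists_c hs hr hr1 hbq hx
        obtain ⟨P, hP, -⟩ := exists_P hr d0 true
        have hf := natural hs hr hr1 hri hbq hx P c hP l1 l2
        by_cases hop : ∃ v, spF s r v = true ∧ bX x v = false ∧ bX x (r v) = true ∧
            bX x (r (r (r v))) = true
        · obtain ⟨v, o1, o2, o3, o4⟩ := hop
          have hT := (spF_true o1).1
          have hq4 := ((hr v).resolve_left hT).1
          have hpat := pat_of hr hr1 hbq hx v hT
          have o5 := (pat4_sel _ _ _ _ hpat o3 o4).2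
          have hu : ∃ u, spF s r u = true ∧ bX x u = false ∧ bX x (r u) = true ∧
              bX x (r (r (r u))) = true ∧ c u = true := by
            by_cases hcv : c v = true
            · exact ⟨v, o1, o2, o3, o4, hcv⟩
            · refine ⟨r (r v), by rw [hspr, hspr]; exact o1, o5, o4, by rw [hq4]; exact o3, ?_⟩
              rw [l2 v o1 o2 o3 o4]
              simpa using hcv
          obtain ⟨u, u1, u2, u3, u4, u5⟩ := hu
          refine ⟨_, hf, Or.inr ?_⟩
          have hlt : (univ.filter (fun v => x v = 1)).card <
              wt s (fun v => bX x v || mid r (bX x) (chN s r P c) v) := by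
            unfold wt
            refine card_lt_card ?_
            rw [ssubset_iff_of_subset]
            · refine ⟨u, ?_, ?_⟩
              · rw [mem_filter]
                refine ⟨mem_univ _, ?_, (spF_true u1).2⟩
                show (bX x u || mid r (bX x) (chN s r P c) u) = true
                unfold mid chN
                rw [if_pos u1, u2, u3, u4, u5, decide_eq_true (spF_true u1).1]
                rfl
              · rw [mem_filter]
                rintro ⟨-, h⟩
                rw [bX_false] at u2
                rw [u2] at h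
                exact absurd h (by decide)
            · intro w hw
              rw [mem_filter] at hw ⊢
              refine ⟨mem_univ _, ?_, fun h => ?_⟩
              · show (bX x w || _) = true
                rw [bX_true.2 hw.2, Bool.true_or]
              · rw [hx.dead h] at hw
                exact absurd hw.2 (by decide)
          omega
        · have hfull := full_sel hs hr hr1 hri hsr hsri hx P c hf
            (fun v a1 a2 a3 a4 => hop ⟨v, a1, a2, a3, a4⟩) d0 hd0 hi z1 z2 z3
          refine ⟨_, hfull, Or.inl ⟨?_, hw.le.trans ?_⟩⟩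
          · show ((bX x d0 || mid r (bX x) (chN s r P c) d0) || decide (d0 = d0 ∨ d0 = r d0 ∨
              d0 = r (r d0) ∨ d0 = r (r (r d0)))) = true
            rw [decide_eq_true (Or.inl rfl), Bool.or_true]
          · exact Nat.mul_le_mul_left 2 (wt_ge hx _ fun v hv => by
              show ((bX x v || _) || _) = true
              rw [hv, Bool.true_or, Bool.true_or])

end H98.CF
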