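import Pool.Agent.H98.CF.Split

/-!
# Splitting off, with dead vertices

As `Split.lean`, but `s` may have fixed points (dead vertices) and only the orbits in `sp` are split.
-/

set_option autoImplicit false

namespace H98.CF

open Finset

variable {V : Type*} [Fintype V] [DecidableEq V]

theorem part_pos2 {s r : V → V} (hs : ∀ v, s (s v) = v) 
    (hb : ∀ w : V → Bool, (∀ v, w (r v) = w v) → dl s w ≠ 1) {U b : V → Bool}
    (hg : Good s r U b) (f : V → Bool) (v0 : V) (hs0 : s v0 ≠ v0) (hf0 : f v0 = true)
    (hf : Sat r U b (fun v => f v && decide (v ≠ v0))) : 1 ≤ dl s f := by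
  by_contra hcon
  have h0 : dl s f = 0 := by omega
  unfold dl at h0
  rw [card_eq_zero] at h0
  have hcl : ∀ v, f v = true → f (s v) = true := by
    intro v hv
    by_contra h
    have : v ∈ univ.filter (fun v => f v = true ∧ f (s v) = false) := by
      rw [mem_filter]
      exact ⟨mem_univ _, hv, by simpa using h⟩
    rw [h0] at this
    exact absurd this (notMem_empty _)
  have hsub : univ.filter (fun v => (f v && decide (v ≠ v0)) = true ∧
      (f (s v) && decide (s v ≠ v0)) = false) = {s v0} := by
    ext v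
    rw [mem_filter, mem_singleton]
    constructor
    · rintro ⟨-, h1, h2⟩
      rw [Bool.and_eq_true] at h1
      rw [hcl v h1.1, Bool.true_and, decide_eq_false_iff_not, not_not] at h2
      rw [← h2, hs]
    · rintro rfl
      refine ⟨mem_univ _, ?_, ?_⟩
      · rw [hcl v0 hf0, Bool.true_and, decide_eq_true_eq]
        exact hs0
      · rw [hs]
        simp
  have h1 : dl s (fun v => f v && decide (v ≠ v0)) = 1 := by
    unfold dl
    rw [hsub, card_singleton]
  exact hb _ (hg _ hf h1.le) h1

section step

variable {s r : V → V}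

/-- The splitting step. -/
theorem split_step2 (hs : ∀ v, s (s v) = v)
    (hr : ∀ v, r (r (r v)) = v ∨ (r (r (r (r v))) = v ∧ r (r v) ≠ v)) (hr1 : ∀ v, r v ≠ v)
    (hb : ∀ w : V → Bool, (∀ v, w (r v) = w v) → dl s w ≠ 1) {U b : V → Bool}
    (hU : ∀ v, U (r v) = U v) (hUb : ∀ v, U v = true → b (r v) = !b v) (hg : Good s r U b)
    (v1 : V) (hq : r (r (r v1)) ≠ v1) (hU1 : U v1 = false)
    (hl : ∀ v, (v = v1 ∨ v = r v1 ∨ v = r (r v1) ∨ v = r (r (r v1))) → s v ≠ v) :
    ∃ U' b' : V → Bool, (∀ v, U' (r v) = U' v) ∧ (∀ v, U' v = true ↔ U v = true ∨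
      v = v1 ∨ v = r v1 ∨ v = r (r v1) ∨ v = r (r (r v1))) ∧
      (∀ v, U' v = true → b' (r v) = !b' v) ∧ Good s r U' b' := by
  obtain ⟨q4, q2⟩ : r (r (r (r v1))) = v1 ∧ r (r v1) ≠ v1 := (hr v1).resolve_left hq
  obtain ⟨v2, hv2⟩ : ∃ v2, v2 = r v1 := ⟨_, rfl⟩
  obtain ⟨v3, hv3⟩ : ∃ v3, v3 = r v2 := ⟨_, rfl⟩
  obtain ⟨v4, hv4⟩ : ∃ v4, v4 = r v3 := ⟨_, rfl⟩
  have hv1 : r v4 = v1 := by rw [hv4, hv3, hv2]; exact q4
  have n12 : v1 ≠ v2 := by rw [hv2]; exact (hr1 v1).symm
  have n13 : v1 ≠ v3 := by rw [hv3, hv2]; exact q2.symm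
  have n14 : v1 ≠ v4 := by rw [hv4, hv3, hv2]; exact hq.symm
  have n23 : v2 ≠ v3 := by rw [hv3]; exact (hr1 v2).symm
  have n34 : v3 ≠ v4 := by rw [hv4]; exact (hr1 v3).symm
  have n24 : v2 ≠ v4 := by
    intro h
    apply n13
    rw [← hv1, ← h, hv3]
  have hinj : Function.Injective r := by
    intro x y h
    rcases hr x with hx | ⟨hx, hx2⟩ <;> rcases hr y with hy | ⟨hy, hy2⟩
    · rw [← hx, h, hy]
    · exfalso
      have : r (r (r x)) = r (r (r y)) := by rw [h]
      rw [hx] at this
      apply hr1 y
      rw [← h, this, hy]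
    · exfalso
      have : r (r (r x)) = r (r (r y)) := by rw [h]
      rw [hy] at this
      apply hr1 x
      rw [h, ← this, hx]
    · rw [← hx, h, hy]
  -- the orbit
  let o : V → Bool := fun v => decide (v = v1 ∨ v = v2 ∨ v = v3 ∨ v = v4)
  have ho : ∀ v, o v = true ↔ v = v1 ∨ v = v2 ∨ v = v3 ∨ v = v4 := fun v => by simp [o]
  have hor : ∀ v, o (r v) = o v := by
    intro v
    rw [Bool.eq_iff_iff, ho, ho]
    constructor
    · rintro (h | h | h | h)
      · right; right; right; exact hinj (h.trans hv1.symm)
      · left; exact hinj (h.trans hv2)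
      · right; left; exact hinj (h.trans hv3)
      · right; right; left; exact hinj (h.trans hv4)
    · rintro (h | h | h | h)
      · right; left; rw [h, hv2]
      · right; right; left; rw [h, hv3]
      · right; right; right; rw [h, hv4]
      · left; rw [h, hv1]
  have hUo : ∀ v, o v = true → U v = false := by
    intro v hv
    rcases (ho v).1 hv with h | h | h | h
    · rw [h]; exact hU1
    · rw [h, hv2, hU]; exact hU1
    · rw [h, hv3, hv2, hU, hU]; exact hU1
    · rw [h, hv4, hv3, hv2, hU, hU, hU]; exact hU1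
  let U' : V → Bool := fun v => U v || o v
  have hU'r : ∀ v, U' (r v) = U' v := fun v => by
    show (U (r v) || o (r v)) = (U v || o v)
    rw [hU, hor]
  have hU'i : ∀ v, U' v = true ↔ U v = true ∨
      v = v1 ∨ v = r v1 ∨ v = r (r v1) ∨ v = r (r (r v1)) := by
    intro v
    show (U v || o v) = true ↔ _
    rw [Bool.or_eq_true, ho, ← hv2, ← hv3, ← hv4]
  let b1 : V → Bool := fun v => if v = v1 ∨ v = v3 then true else if v = v2 ∨ v = v4 then false
    else b v
  let b2 : V → Bool := fun v => if v = v1 ∨ v = v3 then false else if v = v2 ∨ v = v4 then true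
    else b v
  have b11 : b1 v1 = true := by simp [b1]
  have b12 : b1 v2 = false := by simp [b1, n12.symm, n23]
  have b13 : b1 v3 = true := by simp [b1]
  have b14 : b1 v4 = false := by simp [b1, n14.symm, n34.symm]
  have b21 : b2 v1 = false := by simp [b2]
  have b22 : b2 v2 = true := by simp [b2, n12.symm, n23]
  have b23 : b2 v3 = false := by simp [b2]
  have b24 : b2 v4 = true := by simp [b2, n14.symm, n34.symm]
  have b1o : ∀ v, o v = false → b1 v = b v := by
    intro v hv
    have : ¬ (v = v1 ∨ v = v2 ∨ v = v3 ∨ v = v4) := fun h => by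
      rw [(ho v).2 h] at hv; exact absurd hv (by decide)
    have h1 : ¬ (v = v1 ∨ v = v3) := by tauto
    have h2 : ¬ (v = v2 ∨ v = v4) := by tauto
    simp only [b1, if_neg h1, if_neg h2]
  have b2o : ∀ v, o v = false → b2 v = b v := by
    intro v hv
    have : ¬ (v = v1 ∨ v = v2 ∨ v = v3 ∨ v = v4) := fun h => by
      rw [(ho v).2 h] at hv; exact absurd hv (by decide)
    have h1 : ¬ (v = v1 ∨ v = v3) := by tauto
    have h2 : ¬ (v = v2 ∨ v = v4) := by tauto
    simp only [b2, if_neg h1, if_neg h2]
  have hb1 : ∀ v, U' v = true → b1 (r v) = !b1 v := by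
    intro v hv
    cases hov : o v with
    | false =>
      have h1 : U v = true := by
        have : (U v || o v) = true := hv
        rwa [hov, Bool.or_false] at this
      rw [b1o v hov, b1o (r v) (by rw [hor]; exact hov)]
      exact hUb v h1
    | true =>
      rcases (ho v).1 hov with h | h | h | h
      · rw [h, ← hv2, b12, b11]; rfl
      · rw [h, ← hv3, b13, b12]; rfl
      · rw [h, ← hv4, b14, b13]; rfl
      · rw [h, hv1, b11, b14]; rfl
  have hb2 : ∀ v, U' v = true → b2 (r v) = !b2 v := by
    intro v hv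
    cases hov : o v with
    | false =>
      have h1 : U v = true := by
        have : (U v || o v) = true := hv
        rwa [hov, Bool.or_false] at this
      rw [b2o v hov, b2o (r v) (by rw [hor]; exact hov)]
      exact hUb v h1
    | true =>
      rcases (ho v).1 hov with h | h | h | h
      · rw [h, ← hv2, b22, b21]; rfl
      · rw [h, ← hv3, b23, b22]; rfl
      · rw [h, ← hv4, b24, b23]; rfl
      · rw [h, hv1, b21, b24]; rfl
  by_contra hcon
  have hng1 : ¬ Good s r U' b1 := fun h => hcon ⟨U', b1, hU'r, hU'i, hb1, h⟩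
  have hng2 : ¬ Good s r U' b2 := fun h => hcon ⟨U', b2, hU'r, hU'i, hb2, h⟩
  have key : ∀ (b' : V → Bool), (∀ v, o v = false → b' v = b v) → ¬ Good s r U' b' →
      ∃ w, Sat r U' b' w ∧ dl s w ≤ 1 ∧ w v1 = true ∧
        (∀ v, o v = false → (U v = false ∨ b v = true) → w (r v) = w v) ∧
        ¬ (w v2 = true ∧ w v3 = true ∧ w v4 = true) := by
    intro b' hb' hng
    unfold Good at hng
    push Not at hng
    obtain ⟨w0, h1, h2, x, h3⟩ := hng
    have hout : ∀ w : V → Bool, Sat r U' b' w →
        (∀ v, o v = false → (U v = false ∨ b v = true) → w (r v) = w v) := by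
      intro w hw v hov hv
      apply hw v
      rw [hb' v hov]
      rcases hv with hv | hv
      · left
        show (U v || o v) = false
        rw [hv, hov]; rfl
      · exact Or.inr hv
    have hnot : ∀ w : V → Bool, Sat r U' b' w → dl s w ≤ 1 → (∃ x, w (r x) ≠ w x) →
        w v1 = true → ¬ (w v2 = true ∧ w v3 = true ∧ w v4 = true) := by
      rintro w hw hd ⟨x, hx⟩ hw1 ⟨hw2, hw3, hw4⟩
      apply hx
      refine hg w ?_ hd x
      intro v hv
      cases hov : o v with
      | false => exact hout w hw v hov hv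
      | true =>
        rcases (ho v).1 hov with h | h | h | h
        · rw [h, ← hv2, hw1, hw2]
        · rw [h, ← hv3, hw2, hw3]
        · rw [h, ← hv4, hw3, hw4]
        · rw [h, hv1, hw1, hw4]
    cases hw1 : w0 v1 with
    | true => exact ⟨w0, h1, h2, hw1, hout w0 h1, hnot w0 h1 h2 ⟨x, h3⟩ hw1⟩
    | false =>
      have h1' : Sat r U' b' (fun v => !w0 v) := by
        intro v hv
        show (!w0 (r v)) = !w0 v
        rw [h1 v hv]
      have h2' : dl s (fun v => !w0 v) ≤ 1 := by rw [dl_not s hs]; exact h2
      have hw1' : (!w0 v1) = true := by rw [hw1]; rfl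
      refine ⟨fun v => !w0 v, h1', h2', hw1', hout _ h1', hnot _ h1' h2' ⟨x, ?_⟩ hw1'⟩
      show (!w0 (r x)) ≠ !w0 x
      intro h
      exact h3 (by simpa using h)
  obtain ⟨w, hw, hwd, hw1, hwo, hwn⟩ := key b1 b1o hng1
  obtain ⟨w', hw', hwd', hw1', hwo', hwn'⟩ := key b2 b2o hng2
  have c2 : w v2 = true := by
    have := hw v1 (Or.inr b11)
    rw [← hv2] at this
    rw [this, hw1]
  have c34 : w v4 = w v3 := by
    have := hw v3 (Or.inr b13)
    rwa [← hv4] at this
  have c3 : w v3 = false := by
    cases h : w v3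
    · rfl
    · exact absurd ⟨c2, h, by rw [c34, h]⟩ hwn
  have c4 : w v4 = false := by rw [c34, c3]
  have d4 : w' v4 = true := by
    have := hw' v4 (Or.inr b24)
    rw [hv1] at this
    rw [← this, hw1']
  have d23 : w' v3 = w' v2 := by
    have := hw' v2 (Or.inr b22)
    rwa [← hv3] at this
  have d2 : w' v2 = false := by
    cases h : w' v2
    · rfl
    · exact absurd ⟨h, by rw [d23, h], d4⟩ hwn'
  have d3 : w' v3 = false := by rw [d23, d2]
  -- the four parts
  have hpart : ∀ (f : V → Bool) (v0 : V), f v0 = true →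
      (∀ v, o v = false → (U v = false ∨ b v = true) → f (r v) = f v) →
      (∀ v, o v = true → v ≠ v0 → f v = false) → o v0 = true → 1 ≤ dl s f := by
    intro f v0 hf0 hf1 hf2 hov0
    have hlv0 : s v0 ≠ v0 := by
      apply hl
      rw [← hv2, ← hv3, ← hv4]
      exact (ho v0).1 hov0
    refine part_pos2 hs hb hg f v0 hlv0 hf0 ?_
    intro v hv
    show (f (r v) && decide (r v ≠ v0)) = (f v && decide (v ≠ v0))
    cases hov : o v with
    | false =>
      have e1 : v ≠ v0 := fun h => by rw [h, hov0] at hov; exact absurd hov (by decide)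
      have e2 : r v ≠ v0 := fun h => by
        rw [← hor, h, hov0] at hov; exact absurd hov (by decide)
      rw [hf1 v hov hv, decide_eq_true e1, decide_eq_true e2]
    | true =>
      have e0 : ∀ u, o u = true → (f u && decide (u ≠ v0)) = false := by
        intro u hu
        by_cases h : u = v0
        · simp [h]
        · rw [hf2 u hu h]; rfl
      rw [e0 v hov, e0 (r v) (by rw [hor]; exact hov)]
  have ow1 : o v1 = true := (ho v1).2 (Or.inl rfl)
  have ow2 : o v2 = true := (ho v2).2 (Or.inr (Or.inl rfl))
  have ow3 : o v3 = true := (ho v3).2 (Or.inr (Or.inr (Or.inl rfl)))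
  have ow4 : o v4 = true := (ho v4).2 (Or.inr (Or.inr (Or.inr rfl)))
  refine four_parts s hs w w' hwd hwd' ?_ ?_ ?_ ?_
  · refine hpart _ v1 (by simp [hw1, hw1']) ?_ ?_ ow1
    · intro v h1 h2
      simp only [hwo v h1 h2, hwo' v h1 h2]
    · intro v h1 h2
      rcases (ho v).1 h1 with h | h | h | h
      · exact absurd h h2
      · simp [h, c2, d2]
      · simp [h, c3, d3]
      · simp [h, c4, d4]
  · refine hpart _ v2 (by simp [c2, d2]) ?_ ?_ ow2
    · intro v h1 h2
      simp only [hwo v h1 h2, hwo' v h1 h2]
    · intro v h1 h2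
      rcases (ho v).1 h1 with h | h | h | h
      · simp [h, hw1, hw1']
      · exact absurd h h2
      · simp [h, c3, d3]
      · simp [h, c4, d4]
  · refine hpart _ v4 (by simp [c4, d4]) ?_ ?_ ow4
    · intro v h1 h2
      simp only [hwo v h1 h2, hwo' v h1 h2]
    · intro v h1 h2
      rcases (ho v).1 h1 with h | h | h | h
      · simp [h, hw1, hw1']
      · simp [h, c2, d2]
      · simp [h, c3, d3]
      · exact absurd h h2
  · refine hpart _ v3 (by simp [c3, d3]) ?_ ?_ ow3
    · intro v h1 h2
      simp only [hwo v h1 h2, hwo' v h1 h2]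
    · intro v h1 h2
      rcases (ho v).1 h1 with h | h | h | h
      · simp [h, hw1, hw1']
      · simp [h, c2, d2]
      · exact absurd h h2
      · simp [h, c4, d4]

/-- Splitting all orbits in `sp`. -/
theorem split_all2 (hs : ∀ v, s (s v) = v)
    (hr : ∀ v, r (r (r v)) = v ∨ (r (r (r (r v))) = v ∧ r (r v) ≠ v)) (hr1 : ∀ v, r v ≠ v)
    (hb : ∀ w : V → Bool, (∀ v, w (r v) = w v) → dl s w ≠ 1) (sp : V → Bool)
    (hsp : ∀ v, sp (r v) = sp v) (hsp1 : ∀ v, sp v = true → r (r (r v)) ≠ v)
    (hsp2 : ∀ v, sp v = true → s v ≠ v) :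
    ∃ b : V → Bool, (∀ v, sp v = true → b (r v) = !b v) ∧
      ∀ w : V → Bool, (∀ v, (sp v = false ∨ b v = true) → w (r v) = w v) → dl s w ≤ 1 →
        ∀ v, w (r v) = w v := by
  have main : ∀ k : ℕ, ∀ U b : V → Bool, (∀ v, U (r v) = U v) →
      (∀ v, U v = true → sp v = true) → (∀ v, U v = true → b (r v) = !b v) →
      Good s r U b → (univ.filter (fun v => sp v = true ∧ U v = false)).card ≤ k →
      ∃ b : V → Bool, (∀ v, sp v = true → b (r v) = !b v) ∧
      ∀ w : V → Bool, (∀ v, (sp v = false ∨ b v = true) → w (r v) = w v) → dl s w ≤ 1 →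
        ∀ v, w (r v) = w v := by
    intro k
    induction k with
    | zero =>
      intro U b hU hUq hUb hg hk
      have hall : ∀ v, sp v = true → U v = true := by
        intro v hv
        by_contra h
        have h1 : v ∈ univ.filter (fun v => sp v = true ∧ U v = false) := by
          rw [mem_filter]
          exact ⟨mem_univ _, hv, by simpa using h⟩
        rw [card_eq_zero.1 (Nat.le_zero.1 hk)] at h1
        exact absurd h1 (notMem_empty _)
      refine ⟨b, fun v hv => hUb v (hall v hv), fun w hw hd => hg w ?_ hd⟩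
      rintro v (hv | hv)
      · apply hw v
        left
        by_contra h
        rw [hall v (by simpa using h)] at hv
        exact absurd hv (by decide)
      · exact hw v (Or.inr hv)
    | succ k ih =>
      intro U b hU hUq hUb hg hk
      by_cases hex : ∃ v1, sp v1 = true ∧ U v1 = false
      · obtain ⟨v1, hq, hU1⟩ := hex
        obtain ⟨U', b', g1, g2, g3, g4⟩ := split_step2 hs hr hr1 hb hU hUb hg v1 (hsp1 v1 hq) hU1
          (fun v hv => by
            apply hsp2
            rcases hv with h | h | h | h
            · rw [h]; exact hq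
            · rw [h, hsp]; exact hq
            · rw [h, hsp, hsp]; exact hq
            · rw [h, hsp, hsp, hsp]; exact hq)
        refine ih U' b' g1 ?_ g3 g4 ?_
        · intro v hv
          rcases (g2 v).1 hv with h | h | h | h | h
          · exact hUq v h
          · rw [h]; exact hq
          · rw [h, hsp]; exact hq
          · rw [h, hsp, hsp]; exact hq
          · rw [h, hsp, hsp, hsp]; exact hq
        · have hlt : univ.filter (fun v => sp v = true ∧ U' v = false) ⊂
              univ.filter (fun v => sp v = true ∧ U v = false) := by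
            rw [ssubset_iff_of_subset]
            · refine ⟨v1, ?_, ?_⟩
              · rw [mem_filter]; exact ⟨mem_univ _, hq, hU1⟩
              · rw [mem_filter]
                rintro ⟨-, -, h⟩
                rw [(g2 v1).2 (Or.inr (Or.inl rfl))] at h
                exact absurd h (by decide)
            · intro v hv
              rw [mem_filter] at hv ⊢
              refine ⟨hv.1, hv.2.1, ?_⟩
              by_contra h
              have : U v = true := by simpa using h
              rw [(g2 v).2 (Or.inl this)] at hv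
              exact absurd hv.2.2 (by decide)
          have := card_lt_card hlt
          omega
      · refine ih U b hU hUq hUb hg ?_
        have : univ.filter (fun v => sp v = true ∧ U v = false) = ∅ := by
          rw [filter_eq_empty_iff]
          intro v _ h
          exact hex ⟨v, h⟩
        rw [this, card_empty]
        exact Nat.zero_le _
  refine main _ (fun _ => false) (fun _ => false) (fun _ => rfl) (fun v h => ?_) (fun v h => ?_)
    (fun w hw _ v => hw v (Or.inl rfl)) le_rfl
  · exact absurd h (by decide)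
  · exact absurd h (by decide)

end step

end H98.CF
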