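import Pool.Agent.H98.CF.Final

/-!
# Disjoint 3-cycles and 4-cycles in graphs of maximum degree three
-/

set_option autoImplicit false

namespace H98.CF

open Finset

section whole

variable {V : Type*} [Fintype V] [DecidableEq V] {G : SimpleGraph V} [DecidableRel G.Adj]

/-- Graphs of maximum degree three with a 2-factor of 3-cycles and 4-cycles. -/
theorem short_factor_sub (h3 : ∀ v, G.degree v ≤ 3) (r : V → V) (h1 : ∀ v, G.Adj v (r v))
    (hr : ∀ v, r (r (r v)) = v ∨ (r (r (r (r v))) = v ∧ r (r v) ≠ v)) :
    ∃ S : Finset V, (∀ v ∈ S, (S.filter (fun y => G.Adj v y)).card = 2) ∧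
      (univ.filter (fun v => G.degree v = 3)).card ≤ 2 * S.card := by
  classical
  have hr1 : ∀ v, r v ≠ v := fun v => (h1 v).ne'
  have hr2 : ∀ v, r (r v) ≠ v := by
    intro v h
    rcases hr v with h' | h'
    · rw [h] at h'
      exact hr1 v h'
    · exact h'.2 h
  have hinj := inj_of_orbits hr hr1
  obtain ⟨ri, hri⟩ : ∃ ri : V → V, ∀ v, r (ri v) = v := by
    refine ⟨fun v => if r (r (r v)) = v then r (r v) else r (r (r v)), fun v => ?_⟩
    show r (if r (r (r v)) = v then r (r v) else r (r (r v))) = v
    split_ifs with h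
    · exact h
    · exact ((hr v).resolve_left h).1
  have hri' : ∀ v, ri (r v) = v := fun v => hinj (hri (r v))
  have hadji : ∀ v, G.Adj v (ri v) := by
    intro v
    have := h1 (ri v)
    rw [hri] at this
    exact this.symm
  have hne : ∀ v, r v ≠ ri v := fun v h => hr2 v (by rw [h, hri])
  have hex : ∀ v, ∃ w, w ≠ r v ∧ w ≠ ri v ∧ (∀ y, G.Adj v y ↔ y = r v ∨ y = ri v ∨ (y = w ∧ w ≠ v)) ∧
      (G.degree v = 3 → w ≠ v) := by
    intro v
    have hc : (G.neighborFinset v).card = G.degree v := rfl
    have e1 : r v ∈ G.neighborFinset v := by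
      rw [SimpleGraph.mem_neighborFinset]; exact h1 v
    have e2 : ri v ∈ (G.neighborFinset v).erase (r v) := by
      rw [mem_erase, SimpleGraph.mem_neighborFinset]
      exact ⟨(hne v).symm, hadji v⟩
    have e3 : (((G.neighborFinset v).erase (r v)).erase (ri v)).card = G.degree v - 1 - 1 := by
      rw [card_erase_of_mem e2, card_erase_of_mem e1, hc]
    have h3v := h3 v
    by_cases hd : G.degree v = 3
    · have e4 : (((G.neighborFinset v).erase (r v)).erase (ri v)).card = 1 := by omega
      obtain ⟨w, hw⟩ := card_eq_one.1 e4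
      have hw' : w ∈ ((G.neighborFinset v).erase (r v)).erase (ri v) := by
        rw [hw]; exact mem_singleton_self w
      rw [mem_erase, mem_erase] at hw'
      have hwv : w ≠ v := by
        have := hw'.2.2
        rw [SimpleGraph.mem_neighborFinset] at this
        exact this.ne'
      refine ⟨w, hw'.2.1, hw'.1, fun y => ?_, fun _ => hwv⟩
      have hy : y ∈ G.neighborFinset v ↔ y = r v ∨ y = ri v ∨ y = w := by
        rw [← insert_erase e1, ← insert_erase e2, hw]
        simp
      rw [← SimpleGraph.mem_neighborFinset, hy]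
      simp [hwv]
    · have e4 : (((G.neighborFinset v).erase (r v)).erase (ri v)) = ∅ := by
        rw [← card_eq_zero]; omega
      refine ⟨v, (hr1 v).symm, fun h => ?_, fun y => ?_, fun h => absurd h hd⟩
      · have := hri v
        rw [← h] at this
        exact hr1 v this
      · have hy : y ∈ G.neighborFinset v ↔ y = r v ∨ y = ri v := by
          rw [← insert_erase e1, ← insert_erase e2, e4]
          simp
        rw [← SimpleGraph.mem_neighborFinset, hy]
        simp
  choose s hs1 hs2 hadj hs4 using hex
  have hss : ∀ v, s (s v) = v := by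
    intro v
    by_cases hv0 : s v = v
    · rw [hv0, hv0]
    · have hv : G.Adj (s v) v := ((hadj v (s v)).2 (Or.inr (Or.inr ⟨rfl, hv0⟩))).symm
      rcases (hadj (s v) v).1 hv with h | h | h
      · exfalso
        apply hs2 v
        conv_rhs => rw [h]
        rw [hri']
      · exfalso
        apply hs1 v
        conv_rhs => rw [h]
        rw [hri]
      · exact h.1.symm
  obtain ⟨f, hf, hw⟩ := (three_all hr hr1 hri (n3 s) s hss hs1 hs2 le_rfl).1
  have hn : (univ.filter (fun v => G.degree v = 3)).card ≤ n3 s := by
    unfold n3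
    refine card_le_card fun v hv => ?_
    rw [mem_filter] at hv ⊢
    exact ⟨mem_univ _, hs4 v hv.2⟩
  have hwt : wt s f ≤ (univ.filter (fun v => f v = true)).card := by
    unfold wt
    refine card_le_card fun v hv => ?_
    rw [mem_filter] at hv ⊢
    exact ⟨mem_univ _, hv.2.1⟩
  refine ⟨univ.filter (fun v => f v = true), ?_, by omega⟩
  intro v hv
  rw [mem_filter] at hv
  have hk := hf v hv.2
  have n1 : s v ≠ r v := hs1 v
  have n2 : s v ≠ ri v := hs2 v
  have n3 : r v ≠ ri v := hne v
  by_cases hv0 : s v = v
  · have hset : (univ.filter (fun v => f v = true)).filter (fun y => G.Adj v y) =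
        ({r v, ri v} : Finset V).filter (fun y => f y = true) := by
      ext y
      simp only [mem_filter, mem_univ, true_and, mem_insert, mem_singleton, hadj v y]
      tauto
    rw [decide_eq_false (by simp [hv0]), Bool.false_and] at hk
    rw [hset, filter_insert, filter_singleton]
    rcases ex2_cases _ _ _ hk with ⟨k1, k2, k3⟩ | ⟨k1, k2, k3⟩ | ⟨k1, k2, k3⟩
    · simp [k1, k2, n3]
    · exact absurd k3 (by decide)
    · exact absurd k3 (by decide)
  · have hset : (univ.filter (fun v => f v = true)).filter (fun y => G.Adj v y) =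
        ({r v, ri v, s v} : Finset V).filter (fun y => f y = true) := by
      ext y
      simp only [mem_filter, mem_univ, true_and, mem_insert, mem_singleton, hadj v y]
      tauto
    rw [decide_eq_true hv0, Bool.true_and] at hk
    rw [hset, filter_insert, filter_insert, filter_singleton]
    rcases ex2_cases _ _ _ hk with ⟨k1, k2, k3⟩ | ⟨k1, k2, k3⟩ | ⟨k1, k2, k3⟩ <;>
      simp [k1, k2, k3, n1, n2, n3, n1.symm, n2.symm, n3.symm, card_insert_of_notMem]

end whole

variable {V : Type*} [Fintype V] [DecidableEq V] {G : SimpleGraph V} [DecidableRel G.Adj]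

/-- Disjoint 3-cycles and 4-cycles in a graph of maximum degree three. -/
theorem short_cycles (h3 : ∀ v, G.degree v ≤ 3) (W : Finset V) (r : V → V)
    (h1 : ∀ v ∈ W, r v ∈ W ∧ G.Adj v (r v))
    (hr : ∀ v ∈ W, r (r (r v)) = v ∨ (r (r (r (r v))) = v ∧ r (r v) ≠ v)) :
    ∃ S : Finset V, S ⊆ W ∧ (∀ v ∈ S, (S.filter (fun y => G.Adj v y)).card = 2) ∧
      (W.filter (fun v => (W.filter (fun y => G.Adj v y)).card = 3)).card ≤ 2 * S.card := by
  classical
  let H : SimpleGraph {v // v ∈ W} := G.comap (fun v => v.1)
  have hH : ∀ a b, H.Adj a b ↔ G.Adj a.1 b.1 := fun a b => Iff.rfl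
  have hcount : ∀ (T : Finset {v // v ∈ W}) (a : {v // v ∈ W}),
      (T.filter (fun y => H.Adj a y)).card =
        ((T.map (Function.Embedding.subtype _)).filter (fun y => G.Adj a.1 y)).card := by
    intro T a
    rw [filter_map, card_map]
    rfl
  have hu : (univ : Finset {v // v ∈ W}).map (Function.Embedding.subtype _) = W := by
    ext v
    simp
  have hdeg : ∀ a, H.degree a = (W.filter (fun y => G.Adj a.1 y)).card := by
    intro a
    have : H.degree a = (univ.filter (fun y => H.Adj a y)).card := by
      rw [← SimpleGraph.card_neighborFinset_eq_degree]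
      congr 1
      ext y
      rw [SimpleGraph.mem_neighborFinset, mem_filter]
      simp
    rw [this, hcount, hu]
  let r' : {v // v ∈ W} → {v // v ∈ W} := fun v => ⟨r v.1, (h1 v.1 v.2).1⟩
  obtain ⟨S, hS, hc⟩ := short_factor_sub (G := H) (fun a => by
    rw [hdeg]
    refine le_trans (card_le_card ?_) (h3 a.1)
    intro y hy
    rw [mem_filter] at hy
    rw [SimpleGraph.mem_neighborFinset]
    exact hy.2) r' (fun v => (h1 v.1 v.2).2) (fun v => by
      rcases hr v.1 v.2 with h | h
      · exact Or.inl (Subtype.ext h)
      · exact Or.inr ⟨Subtype.ext h.1, fun h' => h.2 (congrArg Subtype.val h')⟩)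
  refine ⟨S.map (Function.Embedding.subtype _), ?_, ?_, ?_⟩
  · intro v hv
    rw [mem_map] at hv
    obtain ⟨a, -, rfl⟩ := hv
    exact a.2
  · intro v hv
    rw [mem_map] at hv
    obtain ⟨a, ha, rfl⟩ := hv
    have := hS a ha
    rw [hcount] at this
    exact this
  · rw [card_map]
    refine le_trans (le_of_eq ?_) hc
    have : W.filter (fun v => (W.filter (fun y => G.Adj v y)).card = 3) =
        (univ.filter (fun v => H.degree v = 3)).map (Function.Embedding.subtype _) := by
      ext v
      simp only [mem_filter, mem_map, mem_univ, true_and, hdeg, Function.Embedding.subtype_apply]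
      constructor
      · rintro ⟨h4, h5⟩
        exact ⟨⟨v, h4⟩, h5, rfl⟩
      · rintro ⟨a, h4, rfl⟩
        exact ⟨a.2, h4⟩
    rw [this, card_map]

/-- In a cubic graph few vertices of `W` have a neighbour outside `W`. -/
theorem few_boundary (h3 : G.IsRegularOfDegree 3) (W : Finset V) :
    4 * W.card ≤ (W.filter (fun v => (W.filter (fun y => G.Adj v y)).card = 3)).card +
      3 * Fintype.card V := by
  classical
  have h : W.filter (fun v => ¬ (W.filter (fun y => G.Adj v y)).card = 3) ⊆
      Wᶜ.biUnion (fun u => G.neighborFinset u) := by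
    intro v hv
    rw [mem_filter] at hv
    rw [mem_biUnion]
    by_contra hcon
    apply hv.2
    have : W.filter (fun y => G.Adj v y) = G.neighborFinset v := by
      ext y
      rw [mem_filter, SimpleGraph.mem_neighborFinset]
      refine ⟨fun h => h.2, fun h => ⟨?_, h⟩⟩
      by_contra hy
      exact hcon ⟨y, mem_compl.2 hy, by rw [SimpleGraph.mem_neighborFinset]; exact h.symm⟩
    rw [this]
    exact h3 v
  have h4 : (Wᶜ.biUnion (fun u => G.neighborFinset u)).card ≤ Wᶜ.card * 3 :=
    card_biUnion_le_card_mul _ _ _ (fun u _ => (h3 u).le)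
  have h5 := card_le_card h
  have h6 := card_filter_add_card_filter_not (s := W)
    (fun v => (W.filter (fun y => G.Adj v y)).card = 3)
  have h7 := card_compl_add_card W
  omega

end H98.CF
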