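import Pool.Agent.H98.CF.Avg
import Pool.Agent.H98.CF.Four

/-!
# Bridgeless cubic graphs with a 2-factor of 3-cycles and 4-cycles
-/

set_option autoImplicit false

namespace H98.CF

open Finset

/-- The table behind `three_four` for the 4-cycles. -/
theorem table4 : ∀ xv x1 x2 x3 cv c1 c3 p : Bool,
    (x1 = (!xv) ∧ x3 = (!x2)) ∨ (x2 = (!x1) ∧ x3 = (!xv)) →
    ((xv = true ∧ x2 = true) → c3 = (!c1)) →
    (xv || ((x1 && x3) && cv)) = true →
    ((x1 || ((x2 && xv) && c1)) = true ∧ (x3 || ((xv && x2) && c3)) = true ∧
        (xv || (p && !cv)) = false) ∨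
      ((x1 || ((x2 && xv) && c1)) = true ∧ (x3 || ((xv && x2) && c3)) = false ∧
        (xv || (p && !cv)) = true) ∨
      ((x1 || ((x2 && xv) && c1)) = false ∧ (x3 || ((xv && x2) && c3)) = true ∧
        (xv || (p && !cv)) = true) := by
  decide

theorem table3 : ∀ p q : Bool, (true ^^ (p ^^ q)) = false →
    ((p = true ∧ q = true ∧ (true : Bool) = false) ∨ (p = true ∧ q = false ∧ (true : Bool) = true) ∨
      (p = false ∧ q = true ∧ (true : Bool) = true)) := by
  decide

theorem zmod2' : ∀ p q : ZMod 2, q = p + 1 → decide (q = 1) = !decide (p = 1) := by decide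

theorem zmod3' : ∀ p q t : ZMod 2, p + q + t = 0 →
    (decide (p = 1) ^^ (decide (q = 1) ^^ decide (t = 1))) = false := by decide

variable {V : Type*} [Fintype V] [DecidableEq V] {G : SimpleGraph V} [DecidableRel G.Adj]

/-- Bridgeless cubic graphs with a 2-factor of 3-cycles and 4-cycles. -/
theorem three_four (h3 : G.IsRegularOfDegree 3) (r : V → V) (h1 : ∀ v, G.Adj v (r v))
    (hr : ∀ v, r (r (r v)) = v ∨ (r (r (r (r v))) = v ∧ r (r v) ≠ v))
    (hbr : ∀ e ∈ G.edgeSet, ¬ G.IsBridge e) :
    ∃ S : Finset V, (∀ v ∈ S, (S.filter (fun y => G.Adj v y)).card = 2) ∧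
      Fintype.card V ≤ 2 * S.card := by
  classical
  have hr1 : ∀ v, r v ≠ v := fun v => (h1 v).ne'
  have hr2 : ∀ v, r (r v) ≠ v := by
    intro v h
    rcases hr v with h' | h'
    · rw [h] at h'
      exact hr1 v h'
    · exact h'.2 h
  have hinj := inj_of_orbits hr hr1
  have hq1 : ∀ v, r (r (r v)) = v ↔ r (r (r (r v))) = r v := fun v =>
    ⟨fun h => by rw [h], fun h => hinj h⟩
  -- the inverse of `r`
  obtain ⟨ri, hri⟩ : ∃ ri : V → V, ∀ v, r (ri v) = v := by
    refine ⟨fun v => if r (r (r v)) = v then r (r v) else r (r (r v)), fun v => ?_⟩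
    show r (if r (r (r v)) = v then r (r v) else r (r (r v))) = v
    split_ifs with h
    · exact h
    · exact ((hr v).resolve_left h).1
  have hri' : ∀ v, ri (r v) = v := fun v => hinj (hri (r v))
  have hri3 : ∀ v, r (r (r v)) = v → ri v = r (r v) := fun v h => hinj (by rw [hri, h])
  have hri4 : ∀ v, r (r (r v)) ≠ v → ri v = r (r (r v)) := fun v h =>
    hinj (by rw [hri, ((hr v).resolve_left h).1])
  have hadji : ∀ v, G.Adj v (ri v) := by
    intro v
    have := h1 (ri v)
    rw [hri] at this
    exact this.symm
  have hne : ∀ v, r v ≠ ri v := fun v h => hr2 v (by rw [h, hri])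
  -- the third neighbour
  have hex : ∀ v, ∃ w, w ≠ r v ∧ w ≠ ri v ∧ G.neighborFinset v = {r v, ri v, w} := by
    intro v
    have hc : (G.neighborFinset v).card = 3 := h3 v
    have e1 : r v ∈ G.neighborFinset v := by
      rw [SimpleGraph.mem_neighborFinset]; exact h1 v
    have e2 : ri v ∈ (G.neighborFinset v).erase (r v) := by
      rw [mem_erase, SimpleGraph.mem_neighborFinset]
      exact ⟨(hne v).symm, hadji v⟩
    have e3 : (((G.neighborFinset v).erase (r v)).erase (ri v)).card = 1 := by
      rw [card_erase_of_mem e2, card_erase_of_mem e1, hc]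
    obtain ⟨w, hw⟩ := card_eq_one.1 e3
    have hw' : w ∈ ((G.neighborFinset v).erase (r v)).erase (ri v) := by
      rw [hw]; exact mem_singleton_self w
    rw [mem_erase, mem_erase] at hw'
    refine ⟨w, hw'.2.1, hw'.1, ?_⟩
    rw [← insert_erase e1, ← insert_erase e2, hw]
  choose s hs1 hs2 hs3 using hex
  have hadj : ∀ v w, G.Adj v w ↔ w = r v ∨ w = ri v ∨ w = s v := by
    intro v w
    rw [← SimpleGraph.mem_neighborFinset, hs3 v]
    simp
  have hss : ∀ v, s (s v) = v := by
    intro v
    have hv : G.Adj (s v) v := ((hadj v (s v)).2 (Or.inr (Or.inr rfl))).symm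
    rcases (hadj (s v) v).1 hv with h | h | h
    · exfalso
      apply hs2 v
      conv_rhs => rw [h]
      rw [hri']
    · exfalso
      apply hs1 v
      conv_rhs => rw [h]
      rw [hri]
    · exact h.symm
  have hs0 : ∀ v, s v ≠ v := fun v => ((hadj v (s v)).2 (Or.inr (Or.inr rfl))).ne'
  -- no bridges
  have hb : ∀ w : V → Bool, (∀ v, w (r v) = w v) → dl s w ≠ 1 := by
    intro w hw hd
    unfold dl at hd
    obtain ⟨a, ha⟩ := card_eq_one.1 hd
    have ha' : w a = true ∧ w (s a) = false := by
      have : a ∈ univ.filter (fun v => w v = true ∧ w (s v) = false) := by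
        rw [ha]; exact mem_singleton_self a
      rw [mem_filter] at this
      exact this.2
    have hun : ∀ v, w v = true → w (s v) = false → v = a := by
      intro v h4 h5
      have : v ∈ univ.filter (fun v => w v = true ∧ w (s v) = false) := by
        rw [mem_filter]; exact ⟨mem_univ _, h4, h5⟩
      rw [ha, mem_singleton] at this
      exact this
    have hadja : G.Adj a (s a) := (hadj a (s a)).2 (Or.inr (Or.inr rfl))
    apply hbr s(a, s a) hadja
    rw [SimpleGraph.isBridge_iff]
    rintro ⟨p⟩
    have hstep : ∀ x y, (G.deleteEdges {s(a, s a)}).Adj x y → w x = w y := by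
      intro x y hxy
      rw [SimpleGraph.deleteEdges_adj] at hxy
      obtain ⟨hxy, hnot⟩ := hxy
      rcases (hadj x y).1 hxy with h | h | h
      · rw [h, hw]
      · rw [h]
        have := hw (ri x)
        rw [hri] at this
        exact this
      · cases h4 : w x <;> cases h5 : w y
        · rfl
        · exfalso
          have h6 : w (s y) = false := by rw [h, hss]; exact h4
          have h7 := hun y h5 h6
          apply hnot
          rw [Set.mem_singleton_iff, Sym2.eq_iff]
          right
          refine ⟨?_, h7⟩
          rw [← h7, h, hss]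
        · exfalso
          have h6 : w (s x) = false := by rw [← h]; exact h5
          have h7 := hun x h4 h6
          apply hnot
          rw [Set.mem_singleton_iff, Sym2.eq_iff]
          left
          exact ⟨h7, by rw [h, h7]⟩
        · rfl
    have hwalk : ∀ x y, (G.deleteEdges {s(a, s a)}).Walk x y → w x = w y := by
      intro x y p
      induction p with
      | nil => rfl
      | cons h _ ih => exact (hstep _ _ h).trans ih
    have := hwalk a (s a) p
    rw [ha'.1, ha'.2] at this
    exact absurd this (by decide)
  obtain ⟨b, hbq, hg⟩ := split_all hss hs0 hr hr1 hb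
  obtain ⟨x, hxs, hxq, hxt, hxz⟩ := exists_x hss hs0 hr hr1 hb hbq hg
  obtain ⟨X, hX⟩ : ∃ X : V → Bool, X = fun v => decide (x v = 1) := ⟨_, rfl⟩
  have hXs : ∀ v, X (s v) = X v := by
    intro v
    rw [hX]
    show decide (x (s v) = 1) = decide (x v = 1)
    rw [hxs]
  have hX0 : ∀ v, x v = 0 ↔ X v = false := by
    intro v
    rw [hX]
    show x v = 0 ↔ decide (x v = 1) = false
    rcases zmod2 (x v) with h | h <;> rw [h] <;> decide
  have hXt : ∀ v, r (r (r v)) = v → (X v ^^ (X (r v) ^^ X (r (r v)))) = false := by
    intro v hv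
    rw [hX]
    exact zmod3' _ _ _ (hxt v hv)
  have hXq : ∀ v, r (r (r v)) ≠ v →
      (X (r v) = (!X v) ∧ X (r (r (r v))) = (!X (r (r v)))) ∨
      (X (r (r v)) = (!X (r v)) ∧ X (r (r (r v))) = (!X v)) := by
    intro v hv
    have hv1 : r (r (r (r v))) ≠ r v := fun h => hv (hinj h)
    have hv2 : r (r (r (r (r v)))) ≠ r (r v) := fun h => hv1 (hinj h)
    have hv3 : r (r (r (r (r (r v))))) ≠ r (r (r v)) := fun h => hv2 (hinj h)
    have h4 := ((hr v).resolve_left hv).1
    have b1 := hbq v hv
    have b2 := hbq (r v) hv1
    have b3 := hbq (r (r v)) hv2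
    rw [hX]
    cases hbv : b v with
    | true =>
      left
      rw [hbv] at b1
      rw [b1] at b2
      refine ⟨zmod2' _ _ (hxq v hv hbv), zmod2' _ _ (hxq (r (r v)) hv2 b2)⟩
    | false =>
      right
      rw [hbv] at b1
      rw [b1] at b2
      rw [b2] at b3
      refine ⟨zmod2' _ _ (hxq (r v) hv1 b1), ?_⟩
      have := zmod2' _ _ (hxq (r (r (r v))) hv3 b3)
      rw [h4] at this
      show decide (x (r (r (r v))) = 1) = !decide (x v = 1)
      rw [this, Bool.not_not]
  -- the involution on the 4-cycles that preserves `X`
  let q : V → V := fun v => if X (r v) = X v then r v else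
    if X (r (r v)) = X v then r (r v) else r (r (r v))
  have hq : ∀ v, q v = if X (r v) = X v then r v else
    if X (r (r v)) = X v then r (r v) else r (r (r v)) := fun _ => rfl
  have hqQ : ∀ v, r (r (r v)) ≠ v → r (r (r (q v))) ≠ q v := by
    intro v hv
    have hv1 : r (r (r (r v))) ≠ r v := fun h => hv (hinj h)
    have hv2 : r (r (r (r (r v)))) ≠ r (r v) := fun h => hv1 (hinj h)
    have hv3 : r (r (r (r (r (r v))))) ≠ r (r (r v)) := fun h => hv2 (hinj h)
    rw [hq]
    split_ifs
    · exact hv1
    · exact hv2
    · exact hv3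
  have hqq : ∀ v, r (r (r v)) ≠ v → q (q v) = v := by
    intro v hv
    have h4 := ((hr v).resolve_left hv).1
    have hq2 := hXq v hv
    by_cases k1 : X (r v) = X v
    · have e1 : q v = r v := by rw [hq, if_pos k1]
      rw [e1, hq, h4]
      have k2 : X (r (r v)) = (!X v) := by
        rcases hq2 with h | h
        · exfalso
          rw [k1] at h
          cases h5 : X v <;> rw [h5] at h <;> exact absurd h.1 (by decide)
        · rw [h.1, k1]
      have k3 : X (r (r (r v))) = (!X v) := by
        rcases hq2 with h | h
        · exfalso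
          rw [k1] at h
          cases h5 : X v <;> rw [h5] at h <;> exact absurd h.1 (by decide)
        · exact h.2
      rw [k1, k2, k3, if_neg (by cases X v <;> decide), if_neg (by cases X v <;> decide)]
    · by_cases k2 : X (r (r v)) = X v
      · have e1 : q v = r (r v) := by rw [hq, if_neg k1, if_pos k2]
        rw [e1, hq, h4]
        have k3 : X (r (r (r v))) = (!X v) := by
          rcases hq2 with h | h
          · rw [h.2, k2]
          · exact h.2
        rw [k2, k3, if_neg (by cases X v <;> decide), if_pos rfl]
      · have e1 : q v = r (r (r v)) := by rw [hq, if_neg k1, if_neg k2]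
        rw [e1, hq, h4]
        have k3 : X v = X (r (r (r v))) := by
          rcases hq2 with h | h
          · rw [h.2]
            revert k2
            cases X v <;> cases X (r (r v)) <;> decide
          · exfalso
            revert k1 k2
            rw [h.1]
            cases X v <;> cases X (r v) <;> decide
        rw [if_pos k3]
  have hq0 : ∀ v, r (r (r v)) ≠ v → q v ≠ v := by
    intro v hv
    rw [hq]
    split_ifs
    · exact hr1 v
    · exact hr2 v
    · exact hv
  obtain ⟨c', hc1, hc2⟩ := two_colour (V := V × Bool) (fun p => (s p.1, p.2))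
    (fun p => if r (r (r p.1)) = p.1 then (p.1, !p.2) else (q p.1, p.2))
    (fun p => by
      show (s (s p.1), p.2) = p
      rw [hss])
    (fun p => by
      by_cases hp : r (r (r p.1)) = p.1
      · simp only [if_pos hp, Bool.not_not]
      · simp only [if_neg hp, if_neg (hqQ p.1 hp), hqq p.1 hp])
    (fun p h => hs0 p.1 (congrArg Prod.fst h))
    (fun p h => by
      by_cases hp : r (r (r p.1)) = p.1
      · simp only [if_pos hp] at h
        have := congrArg Prod.snd h
        revert this
        show (!p.2) = p.2 → False
        cases p.2 <;> decide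
      · simp only [if_neg hp] at h
        exact hq0 p.1 hp (congrArg Prod.fst h))
  obtain ⟨c, hc⟩ : ∃ c : V → Bool, c = fun v => c' (v, false) := ⟨_, rfl⟩
  have hcs : ∀ v, c (s v) = !c v := by
    intro v
    rw [hc]
    exact hc1 (v, false)
  have hcq : ∀ v, r (r (r v)) ≠ v → c (q v) = !c v := by
    intro v hv
    rw [hc]
    have := hc2 (v, false)
    simp only [if_neg hv] at this
    exact this
  let Q : V → Bool := fun v => decide (r (r (r v)) ≠ v)
  let f : V → Bool := fun v => X v || (Q v && ((X (r v) && X (r (r (r v)))) && c v))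
  have hf : ∀ v, f v = (X v || (Q v && ((X (r v) && X (r (r (r v)))) && c v))) := fun _ => rfl
  refine ⟨univ.filter (fun v => f v = true), ?_, ?_⟩
  · intro v hv
    rw [mem_filter] at hv
    have hfv := hv.2
    have hset : (univ.filter (fun v => f v = true)).filter (fun y => G.Adj v y) =
        ({r v, ri v, s v} : Finset V).filter (fun y => f y = true) := by
      ext y
      simp only [mem_filter, mem_univ, true_and, mem_insert, mem_singleton, hadj v y]
      tauto
    rw [hset, filter_insert, filter_insert, filter_singleton]
    have n1 : s v ≠ r v := hs1 v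
    have n2 : s v ≠ ri v := hs2 v
    have n3 : r v ≠ ri v := hne v
    have key : (f (r v) = true ∧ f (ri v) = true ∧ f (s v) = false) ∨
        (f (r v) = true ∧ f (ri v) = false ∧ f (s v) = true) ∨
        (f (r v) = false ∧ f (ri v) = true ∧ f (s v) = true) := by
      by_cases hT : r (r (r v)) = v
      · have e0 : ∀ u, r (r (r u)) = u → f u = X u := by
          intro u hu
          rw [hf]
          have : Q u = false := by simp [Q, hu]
          rw [this, Bool.false_and, Bool.or_false]
        have hT1 : r (r (r (r v))) = r v := by rw [hT]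
        have hT2 : r (r (r (r (r v)))) = r (r v) := by rw [hT1]
        rw [hri3 v hT, e0 _ hT1, e0 _ hT2]
        rw [e0 v hT] at hfv
        have e1 : f (s v) = true := by rw [hf, hXs, hfv, Bool.true_or]
        rw [e1]
        have := hXt v hT
        rw [hfv] at this
        exact table3 _ _ this
      · have h4 := ((hr v).resolve_left hT).1
        have hv1 : r (r (r (r v))) ≠ r v := fun h => hT (hinj h)
        have hv2 : r (r (r (r (r v)))) ≠ r (r v) := fun h => hv1 (hinj h)
        have hv3 : r (r (r (r (r (r v))))) ≠ r (r (r v)) := fun h => hv2 (hinj h)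
        have qv : Q v = true := by simp [Q, hT]
        have qv1 : Q (r v) = true := by simp only [Q, decide_eq_true_eq]; exact hv1
        have qv3 : Q (r (r (r v))) = true := by simp only [Q, decide_eq_true_eq]; exact hv3
        have e1 : f (r v) = (X (r v) || ((X (r (r v)) && X v) && c (r v))) := by
          rw [hf, qv1, h4, Bool.true_and]
        have e3 : f (ri v) = (X (r (r (r v))) || ((X v && X (r (r v))) && c (r (r (r v))))) := by
          rw [hri4 v hT, hf, qv3, h4, Bool.true_and]
        have es : f (s v) = (X v || ((Q (s v) && (X (r (s v)) && X (r (r (r (s v)))))) && !c v)) := by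
          rw [hf, hXs, hcs, ← Bool.and_assoc]
        have ev : (X v || ((X (r v) && X (r (r (r v)))) && c v)) = true := by
          rw [hf, qv, Bool.true_and] at hfv
          exact hfv
        rw [e1, e3, es]
        refine table4 _ _ _ _ _ _ _ _ (hXq v hT) ?_ ev
        rintro ⟨k1, k2⟩
        have hx1 : X (r v) = false ∧ X (r (r (r v))) = false := by
          rcases hXq v hT with h | h
          · rw [k1] at h
            rw [k2] at h
            exact h
          · rw [k1, k2] at h
            refine ⟨?_, h.2⟩
            have := h.1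
            revert this
            cases X (r v) <;> decide
        have e5 : q (r v) = r (r (r v)) := by
          rw [hq, if_neg, if_pos]
          · rw [hx1.1, hx1.2]
          · rw [k2, hx1.1]; decide
        rw [← e5]
        exact hcq (r v) hv1
    rcases key with ⟨k1, k2, k3⟩ | ⟨k1, k2, k3⟩ | ⟨k1, k2, k3⟩ <;>
      simp [k1, k2, k3, n1, n2, n3, n1.symm, n2.symm, n3.symm, card_insert_of_notMem]
  · have hbij : Function.Bijective r := Finite.injective_iff_bijective.1 hinj
    have hsc : ∀ h : V → ℕ, ∑ v, h (r v) = ∑ v, h v := fun h =>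
      (Equiv.ofBijective r hbij).sum_comp h
    let qx : V → ℕ := fun v => if r (r (r v)) ≠ v ∧ X v = true then 1 else 0
    let qn : V → ℕ := fun v => if r (r (r v)) ≠ v then 1 else 0
    let tx : V → ℕ := fun v => if r (r (r v)) = v ∧ X v = true then 1 else 0
    let tn : V → ℕ := fun v => if r (r (r v)) = v then 1 else 0
    let tz : V → ℕ := fun v => if r (r (r v)) = v ∧ x v = 0 ∧ x (r v) = 0 then 1 else 0
    have p1 : ∀ v, qx v + qx (r v) + qx (r (r v)) + qx (r (r (r v))) = 2 * qn v := by
      intro v
      by_cases hT : r (r (r v)) = v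
      · have hT1 : r (r (r (r v))) = r v := by rw [hT]
        have hT2 : r (r (r (r (r v)))) = r (r v) := by rw [hT1]
        simp only [qx, qn, hT, ne_eq, not_true_eq_false, false_and, if_false]
      · have hv1 : r (r (r (r v))) ≠ r v := fun h => hT (hinj h)
        have hv2 : r (r (r (r (r v)))) ≠ r (r v) := fun h => hv1 (hinj h)
        have hv3 : r (r (r (r (r (r v))))) ≠ r (r (r v)) := fun h => hv2 (hinj h)
        simp only [qx, qn, ne_eq, hT, hv1, hv2, hv3, not_false_eq_true, true_and, if_true]
        rcases hXq v hT with h | h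
        · rw [h.1, h.2]
          cases X v <;> cases X (r (r v)) <;> rfl
        · rw [h.1, h.2]
          cases X v <;> cases X (r v) <;> rfl
    have p2 : ∀ v, tx v + tx (r v) + tx (r (r v)) + 2 * tz v = 2 * tn v := by
      intro v
      by_cases hT : r (r (r v)) = v
      · have hT1 : r (r (r (r v))) = r v := by rw [hT]
        have hT2 : r (r (r (r (r v)))) = r (r v) := by rw [hT1]
        have := hXt v hT
        simp only [tx, tn, tz, hT, true_and, if_true, hX0]
        cases h4 : X v <;> cases h5 : X (r v) <;> cases h6 : X (r (r v)) <;>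
          rw [h4, h5, h6] at this <;> first | rfl | exact absurd this (by decide)
      · have hv1 : r (r (r (r v))) ≠ r v := fun h => hT (hinj h)
        have hv2 : r (r (r (r (r v)))) ≠ r (r v) := fun h => hv1 (hinj h)
        simp only [tx, tn, tz, hT, hv1, hv2, false_and, if_false]
    have s1 : 4 * ∑ v, qx v = 2 * ∑ v, qn v := by
      have h := sum_congr (rfl : (univ : Finset V) = univ) fun v _ => p1 v
      rw [sum_add_distrib, sum_add_distrib, sum_add_distrib, ← mul_sum] at h
      have a1 := hsc qx
      have a2 := hsc (fun v => qx (r v))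
      have a3 := hsc (fun v => qx (r (r v)))
      omega
    have s2 : 3 * ∑ v, tx v + 2 * ∑ v, tz v = 2 * ∑ v, tn v := by
      have h := sum_congr (rfl : (univ : Finset V) = univ) fun v _ => p2 v
      rw [sum_add_distrib, sum_add_distrib, sum_add_distrib, ← mul_sum, ← mul_sum] at h
      have a1 := hsc tx
      have a2 := hsc (fun v => tx (r v))
      omega
    have s3 : 4 * ∑ v, tz v ≤ ∑ v, tn v := by
      have e1 : ∑ v, tz v = (univ.filter (fun a => r (r (r a)) = a ∧ x a = 0 ∧
          x (r a) = 0)).card := by rw [card_filter]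
      have e2 : ∑ v, tn v = (univ.filter (fun a => r (r (r a)) = a)).card := by
        rw [card_filter]
      rw [e1, e2]
      exact hxz
    have s4 : ∑ v, qn v + ∑ v, tn v = Fintype.card V := by
      rw [← sum_add_distrib, ← card_univ, card_eq_sum_ones]
      refine sum_congr rfl fun v _ => ?_
      simp only [qn, tn]
      by_cases hT : r (r (r v)) = v
      · simp [hT]
      · simp [hT]
    have s5 : ∑ v, qx v + ∑ v, tx v ≤ (univ.filter (fun v => f v = true)).card := by
      rw [card_filter, ← sum_add_distrib]
      refine sum_le_sum fun v _ => ?_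
      simp only [qx, tx]
      cases h4 : X v
      · simp
      · have : f v = true := by rw [hf, h4, Bool.true_or]
        rw [this]
        by_cases hT : r (r (r v)) = v
        · simp [hT]
        · simp [hT]
    omega

end H98.CF
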