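import Mathlib

/-!
# A cyclic chain of 12-vertex blocks

Each block consists of three 4-cycles.  Every induced 2-regular subgraph has at most half of the
vertices.
-/

set_option autoImplicit false

namespace H98.CF

open Finset

/-- The rotation of the three 4-cycles `0123`, `4567`, `8 9 10 11`. -/
def rot : Fin 12 → Fin 12 := ![1, 2, 3, 0, 5, 6, 7, 4, 9, 10, 11, 8]

/-- The matching in the block; the edges at `0` and `4` leave the block. -/
def mt : Fin 12 → Fin 12 := ![4, 8, 6, 10, 0, 9, 2, 11, 1, 5, 3, 7]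

theorem rot4 : ∀ a, rot (rot (rot (rot a))) = a := by decide

theorem mt2 : ∀ a, mt (mt a) = a := by decide

theorem rot_ne : ∀ a, rot a ≠ a := by decide

theorem rot2_ne : ∀ a, rot (rot a) ≠ a := by decide

theorem rot3_ne : ∀ a, rot (rot (rot a)) ≠ a := by decide

theorem mt_ne : ∀ a, mt a ≠ a := by decide

theorem mt_ne1 : ∀ a, mt a ≠ rot a := by decide

theorem mt_ne3 : ∀ a, mt a ≠ rot (rot (rot a)) := by decide

/-- The shift of the block along the external edges. -/
def sh : Fin 12 → ℤ := ![-1, 0, 0, 0, 1, 0, 0, 0, 0, 0, 0, 0]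

theorem sh_mt : ∀ a, sh (mt a) = - sh a := by decide

section chain

variable (m : ℕ)

/-- External neighbour. -/
def sN (v : ZMod m × Fin 12) : ZMod m × Fin 12 := (v.1 + (sh v.2 : ZMod m), mt v.2)

/-- Rotation. -/
def rN (v : ZMod m × Fin 12) : ZMod m × Fin 12 := (v.1, rot v.2)

theorem sN2 (v : ZMod m × Fin 12) : sN m (sN m v) = v := by
  rcases v with ⟨i, a⟩
  simp only [sN, mt2, sh_mt, Int.cast_neg, add_neg_cancel_right]

theorem rN4 (v : ZMod m × Fin 12) : rN m (rN m (rN m (rN m v))) = v := by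
  rcases v with ⟨i, a⟩
  simp only [rN, rot4]

/-- The chain. -/
def chain : SimpleGraph (ZMod m × Fin 12) where
  Adj v w := w = rN m v ∨ w = rN m (rN m (rN m v)) ∨ w = sN m v
  symm := ⟨by
    rintro v w (rfl | rfl | rfl)
    · right; left; rw [rN4]
    · left; rw [rN4]
    · right; right; rw [sN2]⟩
  loopless := ⟨by
    rintro ⟨i, a⟩ (h | h | h)
    · exact rot_ne a (congrArg Prod.snd h).symm
    · exact rot3_ne a (congrArg Prod.snd h).symm
    · exact mt_ne a (congrArg Prod.snd h).symm⟩

theorem chain_adj (v w : ZMod m × Fin 12) :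
    (chain m).Adj v w ↔ w = rN m v ∨ w = rN m (rN m (rN m v)) ∨ w = sN m v := Iff.rfl

instance : DecidableRel (chain m).Adj := fun v w =>
  decidable_of_iff _ (chain_adj m v w).symm

theorem ne12 (v : ZMod m × Fin 12) : rN m v ≠ rN m (rN m (rN m v)) := fun h =>
  rot2_ne (rot v.2) (congrArg Prod.snd h).symm

theorem ne13 (v : ZMod m × Fin 12) : rN m v ≠ sN m v := fun h =>
  mt_ne1 v.2 (congrArg Prod.snd h).symm

theorem ne23 (v : ZMod m × Fin 12) : rN m (rN m (rN m v)) ≠ sN m v := fun h =>
  mt_ne3 v.2 (congrArg Prod.snd h).symm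

theorem chain_regular [NeZero m] : (chain m).IsRegularOfDegree 3 := by
  intro v
  have h : (chain m).neighborFinset v = {rN m v, rN m (rN m (rN m v)), sN m v} := by
    ext w
    rw [SimpleGraph.mem_neighborFinset, chain_adj]
    simp
  change ((chain m).neighborFinset v).card = 3
  rw [h, card_insert_of_notMem, card_insert_of_notMem, card_singleton]
  · simpa using ne23 m v
  · simpa using ⟨ne12 m v, ne13 m v⟩

theorem chain_connected [NeZero m] : (chain m).Connected := by
  have hr : ∀ i a, (chain m).Reachable (i, a) (i, rot a) := fun i a =>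
    SimpleGraph.Adj.reachable (by rw [chain_adj]; exact Or.inl rfl)
  have hs : ∀ i a, (chain m).Reachable (i, a) (i + (sh a : ZMod m), mt a) := fun i a =>
    SimpleGraph.Adj.reachable (by rw [chain_adj]; exact Or.inr (Or.inr rfl))
  have hs0 : ∀ i a, sh a = 0 → (chain m).Reachable (i, a) (i, mt a) := by
    intro i a h
    have := hs i a
    rwa [h, Int.cast_zero, add_zero] at this
  have hblock : ∀ i a, (chain m).Reachable (i, (0 : Fin 12)) (i, a) := by
    intro i
    have h1 : (chain m).Reachable (i, (0 : Fin 12)) (i, 1) := hr i 0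
    have h2 : (chain m).Reachable (i, (0 : Fin 12)) (i, 2) := h1.trans (hr i 1)
    have h3 : (chain m).Reachable (i, (0 : Fin 12)) (i, 3) := h2.trans (hr i 2)
    have h8 : (chain m).Reachable (i, (0 : Fin 12)) (i, 8) := h1.trans (hs0 i 1 rfl)
    have h9 : (chain m).Reachable (i, (0 : Fin 12)) (i, 9) := h8.trans (hr i 8)
    have h10 : (chain m).Reachable (i, (0 : Fin 12)) (i, 10) := h9.trans (hr i 9)
    have h11 : (chain m).Reachable (i, (0 : Fin 12)) (i, 11) := h10.trans (hr i 10)
    have h6 : (chain m).Reachable (i, (0 : Fin 12)) (i, 6) := h2.trans (hs0 i 2 rfl)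
    have h7 : (chain m).Reachable (i, (0 : Fin 12)) (i, 7) := h6.trans (hr i 6)
    have h4 : (chain m).Reachable (i, (0 : Fin 12)) (i, 4) := h7.trans (hr i 7)
    have h5 : (chain m).Reachable (i, (0 : Fin 12)) (i, 5) := h4.trans (hr i 4)
    intro a
    fin_cases a
    exacts [SimpleGraph.Reachable.refl _, h1, h2, h3, h4, h5, h6, h7, h8, h9, h10, h11]
  have hall : ∀ k : ℕ, ∀ a, (chain m).Reachable ((0 : ZMod m), (0 : Fin 12)) ((k : ZMod m), a) := by
    intro k
    induction k with
    | zero => intro a; rw [Nat.cast_zero]; exact hblock 0 a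
    | succ k ih =>
      intro a
      have h1 := (ih 4).trans (hs (k : ZMod m) 4)
      have h2 : (((k : ZMod m) + ((sh 4 : ℤ) : ZMod m), mt 4) : ZMod m × Fin 12) =
          (((k + 1 : ℕ) : ZMod m), 0) := by
        rw [show sh 4 = 1 from rfl, show mt 4 = 0 from rfl]
        push_cast
        rfl
      rw [h2] at h1
      exact h1.trans (hblock _ a)
  have hall' : ∀ v, (chain m).Reachable ((0 : ZMod m), (0 : Fin 12)) v := by
    rintro ⟨i, a⟩
    have := hall i.val a
    rwa [ZMod.natCast_zmod_val] at this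
  have : Nonempty (ZMod m × Fin 12) := ⟨(0, 0)⟩
  exact SimpleGraph.Connected.mk (fun v w => (hall' v).symm.trans (hall' w))

end chain

/-- Exactly two of three. -/
def two (x y z : Bool) : Bool := (x && y && !z) || (x && !y && z) || (!x && y && z)

theorem two_iff : ∀ x y z : Bool, x.toNat + y.toNat + z.toNat = 2 → two x y z = true := by
  decide

theorem two_or : ∀ x y z : Bool, two x y z = true → (x || y) = true := by
  decide

/-- The finite check for a block. -/
theorem block : ∀ t0 t1 t2 t3 t4 t5 t6 t7 t8 t9 t10 t11 : Bool,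
    ((!t0 || (t1 || t3)) && (!t1 || two t2 t0 t8) && (!t2 || two t3 t1 t6) &&
      (!t3 || two t0 t2 t10) && (!t4 || (t5 || t7)) && (!t5 || two t6 t4 t9) &&
      (!t6 || two t7 t5 t2) && (!t7 || two t4 t6 t11) && (!t8 || two t9 t11 t1) &&
      (!t9 || two t10 t8 t5) && (!t10 || two t11 t9 t3) && (!t11 || two t8 t10 t7)) = true →
    t0.toNat + t1.toNat + t2.toNat + t3.toNat + t4.toNat + t5.toNat + t6.toNat + t7.toNat +
      t8.toNat + t9.toNat + t10.toNat + t11.toNat ≤ 6 := by
  decide +kernel

theorem chain_bound (m : ℕ) [NeZero m] (S : Finset (ZMod m × Fin 12))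
    (hS : ∀ v ∈ S, (S.filter (fun y => (chain m).Adj v y)).card = 2) : S.card ≤ 6 * m := by
  obtain ⟨p, hp⟩ : ∃ p : ZMod m × Fin 12 → Bool, p = fun v => decide (v ∈ S) := ⟨_, rfl⟩
  have hpm : ∀ v, p v = true ↔ v ∈ S := by intro v; rw [hp]; simp
  have h1 : ∀ v, p v = true →
      two (p (rN m v)) (p (rN m (rN m (rN m v)))) (p (sN m v)) = true := by
    intro v hv
    apply two_iff
    have h2 := hS v ((hpm v).1 hv)
    have h3 : S.filter (fun y => (chain m).Adj v y) =
        ({rN m v, rN m (rN m (rN m v)), sN m v} : Finset _).filter (fun y => p y = true) := by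
      ext y
      simp only [mem_filter, mem_insert, mem_singleton, chain_adj, hpm]
      tauto
    rw [h3, filter_insert, filter_insert, filter_singleton] at h2
    have n1 := ne12 m v
    have n2 := ne13 m v
    have n3 := ne23 m v
    rw [← h2]
    cases p (rN m v) <;> cases p (rN m (rN m (rN m v))) <;> cases p (sN m v) <;>
      simp [n1, n2, n3]
  have h4 : ∀ i : ZMod m, ∑ a : Fin 12, (p (i, a)).toNat ≤ 6 := by
    intro i
    have k : ∀ a, (!p (i, a) || two (p (i, rot a)) (p (i, rot (rot (rot a))))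
        (p (i + (sh a : ZMod m), mt a))) = true := by
      intro a
      cases h : p (i, a)
      · rfl
      · exact h1 (i, a) h
    have k' : ∀ a, (!p (i, a) || (p (i, rot a) || p (i, rot (rot (rot a))))) = true := by
      intro a
      cases h : p (i, a)
      · rfl
      · exact two_or (p (i, rot a)) (p (i, rot (rot (rot a)))) _ (h1 (i, a) h)
    have k0 : ∀ a, sh a = 0 → (!p (i, a) || two (p (i, rot a)) (p (i, rot (rot (rot a))))
        (p (i, mt a))) = true := by
      intro a ha
      have := k a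
      rwa [ha, Int.cast_zero, add_zero] at this
    have h5 := block (p (i, 0)) (p (i, 1)) (p (i, 2)) (p (i, 3)) (p (i, 4)) (p (i, 5)) (p (i, 6))
      (p (i, 7)) (p (i, 8)) (p (i, 9)) (p (i, 10)) (p (i, 11)) (by
        simp only [Bool.and_eq_true]
        exact ⟨⟨⟨⟨⟨⟨⟨⟨⟨⟨⟨k' 0, k0 1 rfl⟩, k0 2 rfl⟩, k0 3 rfl⟩, k' 4⟩, k0 5 rfl⟩, k0 6 rfl⟩,
          k0 7 rfl⟩, k0 8 rfl⟩, k0 9 rfl⟩, k0 10 rfl⟩, k0 11 rfl⟩)
    have h6 : ∑ a : Fin 12, (p (i, a)).toNat =
        (p (i, 0)).toNat + (p (i, 1)).toNat + (p (i, 2)).toNat + (p (i, 3)).toNat +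
        (p (i, 4)).toNat + (p (i, 5)).toNat + (p (i, 6)).toNat + (p (i, 7)).toNat +
        (p (i, 8)).toNat + (p (i, 9)).toNat + (p (i, 10)).toNat + (p (i, 11)).toNat := by
      simp only [Fin.sum_univ_succ, Fin.sum_univ_zero]
      simp only [← add_assoc]
      rfl
    rw [h6]
    exact h5
  have h7 : S.card = ∑ v : ZMod m × Fin 12, (p v).toNat := by
    rw [card_eq_sum_ones, ← sum_filter_add_sum_filter_not univ (fun v => p v = true)]
    rw [sum_eq_zero (s := univ.filter (fun v => ¬ p v = true)), add_zero]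
    · apply sum_congr
      · ext v; simp [hpm]
      · intro v hv
        rw [mem_filter] at hv
        rw [hv.2]; rfl
    · intro v hv
      rw [mem_filter] at hv
      rw [Bool.eq_false_iff.2 hv.2]; rfl
  rw [h7, Fintype.sum_prod_type]
  refine (sum_le_sum fun i _ => h4 i).trans ?_
  rw [sum_const, card_univ, ZMod.card, smul_eq_mul, mul_comm]

end H98.CF
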